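import Pool.Agent.EVN.K.KeyPhi
import Pool.Agent.BEX.Reg

/-!
Project EVN (MP_8c6f77_pr, note 3192), block K3: THE KEY LEMMA `KKey` from the stage lemma `KStage`.
-/

namespace Pool.Agent.EVN

open Pool.Agent.Hhelper14.SAW Pool.Agent.HHP Pool.Agent.HEP Pool.Agent.PLY.G Pool.Agent.BEX.F
open scoped ENNReal

/-- A power of a number smaller than one is at most `1/4`. -/
lemma KeyFin_pow {c : ℝ≥0∞} (hc : c < 1) : ∃ K : ℕ, 1 ≤ K ∧ 4 * c ^ K ≤ 1 := by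
  have h1 := ENNReal.tendsto_pow_atTop_nhds_zero_of_lt_one hc
  have h2 : ∀ᶠ n : ℕ in Filter.atTop, c ^ n < 1 / 4 :=
    h1.eventually_lt_const (by norm_num)
  obtain ⟨n, hn1, hn2⟩ := (h2.and (Filter.eventually_ge_atTop 1)).exists
  refine ⟨n, hn2, ?_⟩
  have h3 := (ENNReal.lt_div_iff_mul_lt (Or.inl (by norm_num)) (Or.inl (by norm_num))).1 hn1
  rw [mul_comm]
  exact h3.le

/-- The number `C6`. -/
lemma KeyFin_C6 {σ CU : ℝ} (hσ : 0 < σ) (hCU : 0 < CU) : ∃ C6 : ℕ, 8 ≤ C6 ∧ 512 * CU * (1 / (C6 : ℝ)) ^ σ ≤ σ := by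
  set Z : ℝ := (512 * CU / σ) ^ (1 / σ) with hZ
  have hZ0 : 0 < Z := by positivity
  obtain ⟨n, hn⟩ := exists_nat_ge Z
  refine ⟨n + 8, by omega, ?_⟩
  have h1 : Z ≤ ((n + 8 : ℕ) : ℝ) := by push_cast; linarith
  have h2 : (1 / ((n + 8 : ℕ) : ℝ)) ^ σ ≤ (1 / Z) ^ σ := by
    apply Real.rpow_le_rpow (by positivity) _ hσ.le
    exact one_div_le_one_div_of_le hZ0 h1
  have h3 : (1 / Z) ^ σ = σ / (512 * CU) := by
    rw [Real.div_rpow (by norm_num) hZ0.le, Real.one_rpow, hZ, ← Real.rpow_mul (by positivity),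
      one_div_mul_cancel hσ.ne', Real.rpow_one, one_div_div]
  calc 512 * CU * (1 / ((n + 8 : ℕ) : ℝ)) ^ σ ≤ 512 * CU * (σ / (512 * CU)) := by
        rw [← h3]; gcongr
    _ = σ := by field_simp

/-- Cancellation. -/
lemma KeyFin_cancel {a b s : ℝ≥0∞} (h0 : s ≠ 0) (h1 : s ≠ ⊤) (h : s * a ≤ s * b) : a ≤ b :=
  (ENNReal.mul_le_mul_iff_right h0 h1).1 h

/-- The power of the ratio is at most the ratio if the ratio is at least one. -/
lemma KeyFin_rpow_le {y : ℝ} (hy : 1 ≤ y) : y ^ (3 / 4 : ℝ) ≤ y := by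
  calc y ^ (3 / 4 : ℝ) ≤ y ^ (1 : ℝ) := Real.rpow_le_rpow_of_exponent_le hy (by norm_num)
    _ = y := Real.rpow_one y

/-- The power of a small ratio. -/
lemma KeyFin_rpow_sqrt {y z : ℝ} (hy : 0 ≤ y) (hy1 : y ≤ 1) (hz : 0 ≤ z) (h : y ≤ z ^ 2) : y ^ (3 / 4 : ℝ) ≤ z := by
  calc y ^ (3 / 4 : ℝ) ≤ y ^ (1 / 2 : ℝ) := Real.rpow_le_rpow_of_exponent_ge' hy hy1 (by norm_num) (by norm_num)
    _ = √y := (Real.sqrt_eq_rpow y).symm
    _ ≤ √(z ^ 2) := Real.sqrt_le_sqrt h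
    _ = z := Real.sqrt_sq hz

/-- First error: no renewal between `x` and `H / 4`. -/
lemma KeyFin_J1 {σ CU : ℝ} (hCU : 0 < CU) (hU : ∀ m M : ℕ, hsI.U m ≤
      ENNReal.ofReal (CU * (((m : ℝ) + 1) / ((M : ℝ) + 1)) ^ (3 / 4 : ℝ)) * hsI.U M)
    {C6 : ℕ} (hC6 : 8 ≤ C6) (h6 : 512 * CU * (1 / (C6 : ℝ)) ^ σ ≤ σ) (hσ : 0 < σ) {H : ℕ} (hH : C6 ≤ H) {S A E : ℝ≥0∞}
    (hS : S ≤ ENNReal.ofReal ((((H / C6 : ℕ) : ℝ) / H) ^ σ) * A) (hA : ENNReal.ofReal σ * A ≤ 4 * (E * hsI.U H)) :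
    8 * (S * hsI.Lam (H / 4 - H / C6)) ≤ E := by
  have hH0 : (0 : ℝ) < H := by exact_mod_cast (by omega : 0 < H)
  have hC0 : (0 : ℝ) < C6 := by exact_mod_cast (by omega : 0 < C6)
  set N : ℕ := H / 4 - H / C6 with hN
  have h1 : hsI.U H * hsI.Lam N ≤ ENNReal.ofReal (16 * CU) := by
    have h2 : H / C6 ≤ H / 8 := Nat.div_le_div_left hC6 (by norm_num)
    have h3 : H + 1 ≤ 16 * (N + 1) := by omega
    have h4 : (((H : ℝ) + 1) / ((N : ℝ) + 1)) ^ (3 / 4 : ℝ) ≤ 16 := by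
      have h5 : ((H : ℝ) + 1) / ((N : ℝ) + 1) ≤ 16 := by
        rw [div_le_iff₀ (by positivity)]
        exact_mod_cast h3
      calc (((H : ℝ) + 1) / ((N : ℝ) + 1)) ^ (3 / 4 : ℝ) ≤ (16 : ℝ) ^ (3 / 4 : ℝ) :=
            Real.rpow_le_rpow (by positivity) h5 (by norm_num)
        _ ≤ 16 := KeyFin_rpow_le (by norm_num)
    calc hsI.U H * hsI.Lam N
        ≤ (ENNReal.ofReal (CU * (((H : ℝ) + 1) / ((N : ℝ) + 1)) ^ (3 / 4 : ℝ)) * hsI.U N) * hsI.Lam N :=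
          mul_le_mul' (hU H N) le_rfl
      _ = ENNReal.ofReal (CU * (((H : ℝ) + 1) / ((N : ℝ) + 1)) ^ (3 / 4 : ℝ)) * (hsI.U N * hsI.Lam N) := by ring
      _ ≤ ENNReal.ofReal (16 * CU) * 1 := by
          refine mul_le_mul' (ENNReal.ofReal_le_ofReal ?_) (hsI.toAlph.U_mul_Lam N)
          calc CU * (((H : ℝ) + 1) / ((N : ℝ) + 1)) ^ (3 / 4 : ℝ) ≤ CU * 16 := mul_le_mul_of_nonneg_left h4 hCU.le
            _ = 16 * CU := by ring
      _ = _ := mul_one _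
  have h2 : (((H / C6 : ℕ) : ℝ) / H) ^ σ ≤ (1 / (C6 : ℝ)) ^ σ := by
    apply Real.rpow_le_rpow (by positivity) _ hσ.le
    rw [div_le_div_iff₀ hH0 hC0, one_mul]
    exact_mod_cast Nat.div_mul_le_self H C6
  have hs0 : ENNReal.ofReal σ ≠ 0 := by rw [Ne, ENNReal.ofReal_eq_zero, not_le]; exact hσ
  refine KeyFin_cancel hs0 ENNReal.ofReal_ne_top ?_
  calc ENNReal.ofReal σ * (8 * (S * hsI.Lam N))
      ≤ ENNReal.ofReal σ * (8 * ((ENNReal.ofReal ((((H / C6 : ℕ) : ℝ) / H) ^ σ) * A) * hsI.Lam N)) := by gcongr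
    _ = 8 * ENNReal.ofReal ((((H / C6 : ℕ) : ℝ) / H) ^ σ) * (ENNReal.ofReal σ * A) * hsI.Lam N := by ring
    _ ≤ 8 * ENNReal.ofReal ((1 / (C6 : ℝ)) ^ σ) * (4 * (E * hsI.U H)) * hsI.Lam N := by gcongr
    _ = 32 * ENNReal.ofReal ((1 / (C6 : ℝ)) ^ σ) * (hsI.U H * hsI.Lam N) * E := by ring
    _ ≤ 32 * ENNReal.ofReal ((1 / (C6 : ℝ)) ^ σ) * ENNReal.ofReal (16 * CU) * E := by gcongr
    _ = ENNReal.ofReal (512 * CU * (1 / (C6 : ℝ)) ^ σ) * E := by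
        rw [show (512 * CU * (1 / (C6 : ℝ)) ^ σ) = (32 * ((1 / (C6 : ℝ)) ^ σ)) * (16 * CU) by ring,
          ENNReal.ofReal_mul (p := 32 * ((1 / (C6 : ℝ)) ^ σ)) (by positivity),
          ENNReal.ofReal_mul (p := 32) (by norm_num), ENNReal.ofReal_ofNat]
    _ ≤ ENNReal.ofReal σ * E := by gcongr

/-- Second error: a stage with a long block. -/
lemma KeyFin_J2 {σ CU : ℝ} (hCU : 0 < CU) (hU : ∀ m M : ℕ, hsI.U m ≤
      ENNReal.ofReal (CU * (((m : ℝ) + 1) / ((M : ℝ) + 1)) ^ (3 / 4 : ℝ)) * hsI.U M)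
    {C6 : ℕ} (hC6 : 8 ≤ C6) (hσ : 0 < σ) {H : ℕ} (hH : C6 ≤ H) {A E Ex : ℝ≥0∞}
    (hA : ENNReal.ofReal σ * A ≤ 4 * (E * hsI.U H)) (hEx : hsI.U (H / C6) * Ex ≤ 6 * A)
    {T k : ℕ} {y : ℝ} (hy : y ^ (3 / 4 : ℝ) * (384 * CU ^ 2 * C6 * k) ≤ σ) (hy0 : 0 ≤ y) (hTM : 2 * T ≤ H / (4 * k))
    (hk : 1 ≤ k) (hyT : 8 * k * ((T : ℝ) + 1) ≤ y * H) :
    8 * (k * (Ex * (hsI.U T * hsI.Lam (H / (4 * k) - T)))) ≤ E := by
  have hH0 : (0 : ℝ) < H := by exact_mod_cast (by omega : 0 < H)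
  have hC0 : (0 : ℝ) < C6 := by exact_mod_cast (by omega : 0 < C6)
  have hk0 : (0 : ℝ) < k := by exact_mod_cast hk
  set x : ℕ := H / C6 with hx
  set M : ℕ := H / (4 * k) with hM
  -- `U H` against `U x`
  have h1 : hsI.U H ≤ ENNReal.ofReal (CU * (2 * C6)) * hsI.U x := by
    refine (hU H x).trans (mul_le_mul' (ENNReal.ofReal_le_ofReal (mul_le_mul_of_nonneg_left ?_ hCU.le)) le_rfl)
    have h3 : ((H : ℝ) + 1) / ((x : ℝ) + 1) ≤ 2 * C6 := by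
      rw [div_le_iff₀ (by positivity)]
      have h4 : H < (x + 1) * C6 := by rw [hx, mul_comm]; exact Nat.lt_mul_div_succ H (by omega)
      have h5 : (H : ℝ) < (x + 1) * C6 := by exact_mod_cast h4
      have h6 : (1 : ℝ) ≤ H := by exact_mod_cast (by omega : 1 ≤ H)
      nlinarith
    calc (((H : ℝ) + 1) / ((x : ℝ) + 1)) ^ (3 / 4 : ℝ) ≤ (2 * (C6 : ℝ)) ^ (3 / 4 : ℝ) :=
          Real.rpow_le_rpow (by positivity) h3 (by norm_num)
      _ ≤ 2 * C6 := KeyFin_rpow_le (by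
          have : (8 : ℝ) ≤ C6 := by exact_mod_cast hC6
          linarith)
  -- the stage
  have h2 : hsI.U T * hsI.Lam (M - T) ≤ ENNReal.ofReal (CU * y ^ (3 / 4 : ℝ)) := by
    have h3 : ((T : ℝ) + 1) / (((M - T : ℕ) : ℝ) + 1) ≤ y := by
      rw [div_le_iff₀ (by positivity)]
      have h4 : M + 1 ≤ 2 * (M - T + 1) := by omega
      have h5 : (M : ℝ) + 1 ≤ 2 * (((M - T : ℕ) : ℝ) + 1) := by exact_mod_cast h4
      have h6 : H < (M + 1) * (4 * k) := by rw [hM, mul_comm]; exact Nat.lt_mul_div_succ H (by omega)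
      have h7 : (H : ℝ) < (M + 1) * (4 * k) := by exact_mod_cast h6
      have h8 : (8 * k) * ((T : ℝ) + 1) ≤ (8 * k) * (y * (((M - T : ℕ) : ℝ) + 1)) := by
        calc (8 * k) * ((T : ℝ) + 1) ≤ y * H := hyT
          _ ≤ y * ((M + 1) * (4 * k)) := mul_le_mul_of_nonneg_left h7.le hy0
          _ ≤ y * ((2 * (((M - T : ℕ) : ℝ) + 1)) * (4 * k)) := by gcongr
          _ = _ := by ring
      exact le_of_mul_le_mul_left h8 (by positivity)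
    calc hsI.U T * hsI.Lam (M - T)
        ≤ (ENNReal.ofReal (CU * (((T : ℝ) + 1) / (((M - T : ℕ) : ℝ) + 1)) ^ (3 / 4 : ℝ)) * hsI.U (M - T)) *
            hsI.Lam (M - T) := mul_le_mul' (hU T (M - T)) le_rfl
      _ = ENNReal.ofReal (CU * (((T : ℝ) + 1) / (((M - T : ℕ) : ℝ) + 1)) ^ (3 / 4 : ℝ)) *
            (hsI.U (M - T) * hsI.Lam (M - T)) := by ring
      _ ≤ ENNReal.ofReal (CU * y ^ (3 / 4 : ℝ)) * 1 := by
          refine mul_le_mul' (ENNReal.ofReal_le_ofReal (mul_le_mul_of_nonneg_left ?_ hCU.le)) (hsI.toAlph.U_mul_Lam _)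
          exact Real.rpow_le_rpow (by positivity) h3 (by norm_num)
      _ = _ := mul_one _
  have hs0 : ENNReal.ofReal σ ≠ 0 := by rw [Ne, ENNReal.ofReal_eq_zero, not_le]; exact hσ
  refine KeyFin_cancel (mul_ne_zero hs0 (hsI.toAlph.U_ne_zero x)) (ENNReal.mul_ne_top ENNReal.ofReal_ne_top
    (hsI.toAlph.U_ne_top x)) ?_
  calc ENNReal.ofReal σ * hsI.U x * (8 * (k * (Ex * (hsI.U T * hsI.Lam (M - T)))))
      = 8 * k * ENNReal.ofReal σ * (hsI.U x * Ex) * (hsI.U T * hsI.Lam (M - T)) := by ring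
    _ ≤ 8 * k * ENNReal.ofReal σ * (6 * A) * ENNReal.ofReal (CU * y ^ (3 / 4 : ℝ)) := by gcongr
    _ = 48 * k * ENNReal.ofReal (CU * y ^ (3 / 4 : ℝ)) * (ENNReal.ofReal σ * A) := by ring
    _ ≤ 48 * k * ENNReal.ofReal (CU * y ^ (3 / 4 : ℝ)) * (4 * (E * (ENNReal.ofReal (CU * (2 * C6)) * hsI.U x))) := by
        refine mul_le_mul' le_rfl (hA.trans ?_)
        gcongr
    _ = 192 * k * ENNReal.ofReal (CU * y ^ (3 / 4 : ℝ)) * ENNReal.ofReal (CU * (2 * C6)) * (hsI.U x * E) := by ring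
    _ = ENNReal.ofReal (y ^ (3 / 4 : ℝ) * (384 * CU ^ 2 * C6 * k)) * (hsI.U x * E) := by
        have e : y ^ (3 / 4 : ℝ) * (384 * CU ^ 2 * C6 * k) = 192 * k * (CU * y ^ (3 / 4 : ℝ)) * (CU * (2 * C6)) := by ring
        rw [e, ENNReal.ofReal_mul (p := 192 * k * (CU * y ^ (3 / 4 : ℝ))) (by positivity),
          ENNReal.ofReal_mul (p := 192 * k) (by positivity),
          ENNReal.ofReal_mul (p := 192) (by norm_num), ENNReal.ofReal_natCast, ENNReal.ofReal_ofNat]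
    _ ≤ ENNReal.ofReal σ * (hsI.U x * E) := by gcongr
    _ = _ := by ring

/-- Third error: `k` hugged stages. -/
lemma KeyFin_J3 {σ : ℝ} {c : ℝ≥0∞} {K1 : ℕ} (hK : 4 * c ^ K1 ≤ 1) {H : ℕ} (hHσ : 32 ≤ σ * H) {A E : ℝ≥0∞}
    (hA : ENNReal.ofReal σ * A ≤ 4 * (E * hsI.U H)) (hA1 : 1 ≤ A) : 8 * c ^ (K1 * (Nat.log 2 H + 1)) ≤ E := by
  set l : ℕ := Nat.log 2 H + 1 with hl
  have h1 : H + 1 ≤ 2 ^ l := Nat.lt_pow_succ_log_self (by norm_num) H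
  have h2 : (4 : ℝ≥0∞) ^ l * c ^ (K1 * l) ≤ 1 := by
    rw [pow_mul, ← mul_pow]
    exact pow_le_one' hK l
  have h3 : (((H + 1 : ℕ) : ℝ≥0∞)) ^ 2 ≤ (4 : ℝ≥0∞) ^ l := by
    have : (H + 1) ^ 2 ≤ 4 ^ l := by
      calc (H + 1) ^ 2 ≤ (2 ^ l) ^ 2 := Nat.pow_le_pow_left h1 2
        _ = 4 ^ l := by rw [← pow_mul, mul_comm, pow_mul]; norm_num
    exact_mod_cast this
  have h4 : hsI.U H ≤ ((H + 1 : ℕ) : ℝ≥0∞) := by
    have := hsI.toAlph.U_le H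
    push_cast
    exact this
  have hn0 : ((H + 1 : ℕ) : ℝ≥0∞) ≠ 0 := by exact_mod_cast (Nat.succ_ne_zero H)
  have hn1 : ((H + 1 : ℕ) : ℝ≥0∞) ≠ ⊤ := ENNReal.natCast_ne_top _
  refine KeyFin_cancel (s := 4 * ((H + 1 : ℕ) : ℝ≥0∞)) (mul_ne_zero (by norm_num) hn0)
    (ENNReal.mul_ne_top (by norm_num) hn1) ?_
  have h5 : (32 : ℝ≥0∞) ≤ ENNReal.ofReal σ * ((H + 1 : ℕ) : ℝ≥0∞) := by
    have hσ : 0 ≤ σ := by
      by_contra h
      push Not at h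
      have : (0 : ℝ) ≤ H := Nat.cast_nonneg H
      nlinarith
    rw [← ENNReal.ofReal_natCast (H + 1), ← ENNReal.ofReal_mul hσ, show (32 : ℝ≥0∞) = ENNReal.ofReal 32 by norm_num]
    apply ENNReal.ofReal_le_ofReal
    push_cast
    nlinarith
  calc 4 * ((H + 1 : ℕ) : ℝ≥0∞) * (8 * c ^ (K1 * l))
      = 32 * (((H + 1 : ℕ) : ℝ≥0∞) * c ^ (K1 * l)) := by ring
    _ ≤ (ENNReal.ofReal σ * ((H + 1 : ℕ) : ℝ≥0∞)) * (((H + 1 : ℕ) : ℝ≥0∞) * c ^ (K1 * l)) := mul_le_mul' h5 le_rfl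
    _ = ENNReal.ofReal σ * ((((H + 1 : ℕ) : ℝ≥0∞)) ^ 2 * c ^ (K1 * l)) := by ring
    _ ≤ ENNReal.ofReal σ * 1 := mul_le_mul' le_rfl ((mul_le_mul' h3 le_rfl).trans h2)
    _ ≤ ENNReal.ofReal σ * A := mul_le_mul' le_rfl hA1
    _ ≤ 4 * (E * hsI.U H) := hA
    _ ≤ 4 * (E * ((H + 1 : ℕ) : ℝ≥0∞)) := by gcongr
    _ = _ := by ring

/-- THE KEY LEMMA. -/
theorem kkey (hS : KStage) : KKey := by
  intro σ hσ hσ1
  obtain ⟨c, T0, r0, hc1, hc⟩ := hS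
  obtain ⟨CU, hCU, hU⟩ := hsI_quarter.U_ratio hsI_anti
  obtain ⟨CN, hCN, hN⟩ := nonhug
  obtain ⟨C6, hC6, h6⟩ := KeyFin_C6 hσ hCU
  obtain ⟨K1, hK1, hK⟩ := KeyFin_pow hc1
  -- the constants
  obtain ⟨Z, hZ⟩ := exists_nat_ge (384 * CU ^ 2 * C6 * K1 / σ)
  obtain ⟨Cs, hCs⟩ := exists_nat_ge (8 * (CN : ℝ) / σ)
  obtain ⟨Hs, hHs⟩ := exists_nat_ge (32 / σ)
  set C : ℕ := 2 + CN + Cs + 8 * K1 * (T0 + 1) * (Z + 1) ^ 2 with hC
  refine ⟨C, C6 + r0 + Hs + 1, ?_⟩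
  intro H r L 𝓛 α hH hr hrH hr0 hL hα hak hα1 hαt hαH hσA hAx
  set l : ℕ := Nat.log 2 H + 1 with hl
  set k : ℕ := K1 * l with hk
  set A : ℝ≥0∞ := ∑ j ∈ Finset.range (H + 1), α j with hAdef
  set Φ := PhiL 𝓛 L with hΦ
  set E : ℝ≥0∞ := hsI.toAlph.EX Φ (H / 2) with hE
  have hl1 : 1 ≤ l := by omega
  have hk1 : 1 ≤ k := Nat.mul_pos (by omega) (by omega)
  have hH1 : 1 ≤ H := by omega
  have hrl : r * l ^ 4 * C ≤ H := by
    calc r * l ^ 4 * C = C * r * l ^ 4 := by ring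
      _ ≤ H := hrH
  have hr1 : r * 2 ≤ H := by
    calc r * 2 ≤ r * l ^ 4 * C := by
          calc r * 2 = r * 1 * 2 := by ring
            _ ≤ r * l ^ 4 * C := Nat.mul_le_mul (Nat.mul_le_mul le_rfl (Nat.one_le_pow _ _ hl1)) (by omega)
      _ ≤ H := hrl
  -- lower bound of `E`
  have hEA : ENNReal.ofReal σ * A ≤ 4 * (E * hsI.U H) := by
    have h1 := Alph.EX_low (A := hsI.toAlph) (Φ := Φ) (PhiL_anti 𝓛 L) (H / 2) H
    have h2 : ((H - H / 2 + 1 : ℕ) : ℝ≥0∞) * α H ≤ 2 * (E * hsI.U H) := by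
      calc ((H - H / 2 + 1 : ℕ) : ℝ≥0∞) * α H = ∑ j ∈ Finset.Icc (H / 2) H, α H := by
            rw [Finset.sum_const, Nat.card_Icc, nsmul_eq_mul]
            congr 2
            omega
        _ ≤ ∑ j ∈ Finset.Icc (H / 2) H, 2 * hsI.toAlph.af Φ j := by
            refine Finset.sum_le_sum fun j hj => ?_
            rw [Finset.mem_Icc] at hj
            rw [hΦ, af_PhiL]
            exact hαH j hj.1 hj.2
        _ = 2 * ∑ j ∈ Finset.Icc (H / 2) H, hsI.toAlph.af Φ j := by rw [Finset.mul_sum]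
        _ ≤ 2 * (E * hsI.U H) := mul_le_mul' le_rfl h1
    calc ENNReal.ofReal σ * A ≤ H * α H := hσA
      _ ≤ ((2 * (H - H / 2 + 1) : ℕ) : ℝ≥0∞) * α H := by
          refine mul_le_mul' ?_ le_rfl
          exact_mod_cast (by omega : H ≤ 2 * (H - H / 2 + 1))
      _ = 2 * (((H - H / 2 + 1 : ℕ) : ℝ≥0∞) * α H) := by push_cast; ring
      _ ≤ 2 * (2 * (E * hsI.U H)) := mul_le_mul' le_rfl h2
      _ = _ := by ring
  have hA1 : 1 ≤ A := hα1.trans (Finset.single_le_sum (f := α) (fun _ _ => zero_le) (Finset.mem_range.2 (by omega)))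
  have hEt : E ≠ ⊤ := by
    refine ne_top_of_le_ne_top ENNReal.one_ne_top ?_
    rw [← Alph.tsum_fpw (A := hsI.toAlph) (H / 2)]
    refine ENNReal.tsum_le_tsum fun w => mul_le_mul' le_rfl ?_
    exact mul_le_of_le_one_right' (PhiL_le 𝓛 L w)
  -- the decomposition
  have hTM : 2 * (T0 * r) ≤ H / (4 * k) := by
    rw [Nat.le_div_iff_mul_le (by omega)]
    have h1 : l ≤ l ^ 4 := Nat.le_self_pow (by norm_num) l
    have h2 : 8 * K1 * T0 ≤ C := by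
      have h3 : 8 * K1 * T0 ≤ 8 * K1 * (T0 + 1) * (Z + 1) ^ 2 := by
        calc 8 * K1 * T0 ≤ 8 * K1 * (T0 + 1) * 1 := by rw [mul_one]; exact Nat.mul_le_mul le_rfl (by omega)
          _ ≤ _ := Nat.mul_le_mul le_rfl (Nat.one_le_pow _ _ (by omega))
      omega
    calc 2 * (T0 * r) * (4 * k) = r * l * (8 * K1 * T0) := by rw [hk]; ring
      _ ≤ r * l ^ 4 * C := Nat.mul_le_mul (Nat.mul_le_mul le_rfl h1) h2
      _ ≤ H := hrl
  have hx : H / C6 ≤ H / 4 := Nat.div_le_div_left (by omega) (by norm_num)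
  have hX : H / 4 + k * (H / (4 * k)) ≤ H / 2 := by
    have h1 : k * (H / (4 * k)) ≤ H / 4 := by
      rw [Nat.le_div_iff_mul_le (by norm_num)]
      calc k * (H / (4 * k)) * 4 = (4 * k) * (H / (4 * k)) := by ring
        _ ≤ H := Nat.mul_div_le H (4 * k)
    omega
  have hmain := KeyPhi_main hc (r := r) (by omega) 𝓛 L (x := H / C6) (M := H / (4 * k)) (k := k) (X := H / 2) (N1 := H / 4)
    (by omega) hx hX
  set NHm : ℝ≥0∞ := ∑ ω ∈ 𝓛.Om, 𝓛.p ω * ∑' q : List Blk,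
    ind (hsI.toAlph.NH (SvO ω L) (HgO ω r) (H / C6) (H / 2) q) * wj q with hNHm
  have hNH : NHm * hsI.U r ≤ CN * ∑ h ∈ Finset.range (H + 1), ph 𝓛 (2 * L) r h := by
    refine hN H r L (H / C6) (H / 2) 𝓛 hr ?_ (by omega)
    refine le_trans (Nat.mul_le_mul ?_ le_rfl) hL
    omega
  -- the three errors
  have hxH : 1 ≤ H / C6 := (Nat.one_le_div_iff (by omega)).2 (by omega)
  have hJ1 : 8 * ((∑ j ∈ Finset.range (H / C6), ak 𝓛 L j) * hsI.Lam (H / 4 - H / C6)) ≤ E := by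
    refine KeyFin_J1 hCU hU hC6 h6 hσ (by omega) (A := A) ?_ hEA
    refine le_trans ?_ (hAx (H / C6) hxH (Nat.div_le_self _ _))
    calc ∑ j ∈ Finset.range (H / C6), ak 𝓛 L j ≤ ∑ j ∈ Finset.range (H / C6), α j := Finset.sum_le_sum fun j _ => hak j
      _ ≤ _ := Finset.sum_le_sum_of_subset (Finset.range_subset_range.2 (by omega))
  have hJ2 : 8 * (k * (hsI.toAlph.EX Φ (H / C6) * (hsI.U (T0 * r) * hsI.Lam (H / (4 * k) - T0 * r)))) ≤ E := by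
    have hl0 : (0 : ℝ) < l := by exact_mod_cast hl1
    have hK0 : (0 : ℝ) < K1 := by exact_mod_cast hK1
    have hr0' : (1 : ℝ) ≤ r := by exact_mod_cast hr
    have hH0 : (0 : ℝ) < H := by exact_mod_cast hH1
    set z : ℝ := 1 / ((Z + 1) * l) with hz
    have hz0 : 0 < z := by positivity
    have hz1 : z ≤ 1 := by
      rw [hz, div_le_one (by positivity)]
      have : (1 : ℝ) ≤ l := by exact_mod_cast hl1
      have : (0 : ℝ) ≤ Z := Nat.cast_nonneg Z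
      nlinarith
    refine KeyFin_J2 hCU hU hC6 hσ (by omega) (A := A) hEA ?_ (y := z ^ 2) ?_ (by positivity) hTM hk1 ?_
    · refine (Alph.EX_up (A := hsI.toAlph) hsI_anti (Φ := Φ) (PhiL_anti 𝓛 L) hα (fun j => ?_) hxH).trans ?_
      · rw [hΦ, af_PhiL]; exact hak j
      · refine mul_le_mul' le_rfl (Finset.sum_le_sum_of_subset (Finset.range_subset_range.2 ?_))
        have := Nat.div_le_self H C6
        omega
    · have h1 : (z ^ 2) ^ (3 / 4 : ℝ) ≤ z := KeyFin_rpow_sqrt (by positivity) (by nlinarith) hz0.le le_rfl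
      calc (z ^ 2) ^ (3 / 4 : ℝ) * (384 * CU ^ 2 * C6 * k) ≤ z * (384 * CU ^ 2 * C6 * k) :=
            mul_le_mul_of_nonneg_right h1 (by positivity)
        _ = (384 * CU ^ 2 * C6 * K1) / (Z + 1) := by
            rw [hz, hk]; push_cast; field_simp
        _ ≤ σ := by
            rw [div_le_iff₀ (by positivity)]
            rw [div_le_iff₀ hσ] at hZ
            nlinarith
    · have h1 : 8 * K1 * (T0 + 1) * (Z + 1) ^ 2 ≤ C := by omega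
      have h2 : (r : ℝ) * (l : ℝ) ^ 4 * (8 * K1 * (T0 + 1) * (Z + 1) ^ 2) ≤ (H : ℝ) := by
        have h5 : (8 * K1 * (T0 + 1) * (Z + 1) ^ 2 : ℝ) ≤ (C : ℝ) := by exact_mod_cast h1
        have h6 : (r : ℝ) * (l : ℝ) ^ 4 * (C : ℝ) ≤ (H : ℝ) := by exact_mod_cast hrl
        exact (mul_le_mul_of_nonneg_left h5 (by positivity)).trans h6
      have h3 : ((T0 * r : ℕ) : ℝ) + 1 ≤ (T0 + 1) * r := by push_cast; nlinarith
      have h4 : (1 : ℝ) ≤ l := by exact_mod_cast hl1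
      calc 8 * (k : ℝ) * (((T0 * r : ℕ) : ℝ) + 1) ≤ 8 * k * ((T0 + 1) * r) :=
            mul_le_mul_of_nonneg_left h3 (by positivity)
        _ = z ^ 2 * (r * l ^ 3 * (8 * K1 * (T0 + 1) * (Z + 1) ^ 2)) := by
            rw [hz, hk]; push_cast; field_simp
        _ ≤ z ^ 2 * (r * l ^ 4 * (8 * K1 * (T0 + 1) * (Z + 1) ^ 2)) := by
            gcongr z ^ 2 * (r * ?_ * _)
            exact pow_le_pow_right₀ h4 (by norm_num)
        _ ≤ z ^ 2 * H := mul_le_mul_of_nonneg_left h2 (by positivity)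
  have hJ3 : 8 * c ^ k ≤ E := by
    refine KeyFin_J3 hK ?_ hEA hA1
    have h1 : (Hs : ℝ) ≤ H := by exact_mod_cast (by omega : Hs ≤ H)
    rw [div_le_iff₀ hσ] at hHs
    nlinarith
  -- conclusion
  have hE2 : E ≤ 2 * NHm := by
    have h1 : 8 * E ≤ 3 * E + 8 * NHm := by
      calc 8 * E ≤ 8 * ((∑ j ∈ Finset.range (H / C6), ak 𝓛 L j) * hsI.Lam (H / 4 - H / C6) +
            k * (hsI.toAlph.EX (PhiL 𝓛 L) (H / C6) * (hsI.U (T0 * r) * hsI.Lam (H / (4 * k) - T0 * r))) + NHm + c ^ k) :=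
            mul_le_mul' le_rfl hmain
        _ = 8 * ((∑ j ∈ Finset.range (H / C6), ak 𝓛 L j) * hsI.Lam (H / 4 - H / C6)) +
            8 * (k * (hsI.toAlph.EX (PhiL 𝓛 L) (H / C6) * (hsI.U (T0 * r) * hsI.Lam (H / (4 * k) - T0 * r)))) +
            8 * NHm + 8 * c ^ k := by ring
        _ ≤ E + E + 8 * NHm + E := by gcongr
        _ = _ := by ring
    have h2 : 3 * E + 5 * E ≤ 3 * E + 8 * NHm := by
      calc 3 * E + 5 * E = 8 * E := by ring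
        _ ≤ _ := h1
    have h3 : 5 * E ≤ 8 * NHm := (ENNReal.add_le_add_iff_left (ENNReal.mul_ne_top (by norm_num) hEt)).1 h2
    refine KeyFin_cancel (s := 4) (by norm_num) (by norm_num) ?_
    calc 4 * E ≤ 5 * E := mul_le_mul' (by norm_num) le_rfl
      _ ≤ 8 * NHm := h3
      _ = 4 * (2 * NHm) := by ring
  have hs0 : ENNReal.ofReal σ ≠ 0 := by rw [Ne, ENNReal.ofReal_eq_zero, not_le]; exact hσ
  refine KeyFin_cancel hs0 ENNReal.ofReal_ne_top ?_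
  calc ENNReal.ofReal σ * (A * hsI.U r) = (ENNReal.ofReal σ * A) * hsI.U r := by ring
    _ ≤ 4 * (E * hsI.U H) * hsI.U r := mul_le_mul' hEA le_rfl
    _ ≤ 4 * ((2 * NHm) * hsI.U H) * hsI.U r := by gcongr
    _ = 8 * hsI.U H * (NHm * hsI.U r) := by ring
    _ ≤ 8 * hsI.U H * (CN * ∑ h ∈ Finset.range (H + 1), ph 𝓛 (2 * L) r h) := mul_le_mul' le_rfl hNH
    _ = (8 * CN) * (hsI.U H * ∑ h ∈ Finset.range (H + 1), ph 𝓛 (2 * L) r h) := by ring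
    _ ≤ (ENNReal.ofReal σ * C) * (hsI.U H * ∑ h ∈ Finset.range (H + 1), ph 𝓛 (2 * L) r h) := by
        refine mul_le_mul' ?_ le_rfl
        rw [← ENNReal.ofReal_natCast C, ← ENNReal.ofReal_mul hσ.le,
          show (8 * (CN : ℝ≥0∞)) = ENNReal.ofReal (8 * CN) by
            rw [ENNReal.ofReal_mul (by norm_num), ENNReal.ofReal_natCast]; norm_num]
        apply ENNReal.ofReal_le_ofReal
        have h1 : (Cs : ℝ) ≤ C := by exact_mod_cast (by omega : Cs ≤ C)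
        rw [div_le_iff₀ hσ] at hCs
        nlinarith
    _ = _ := by ring

end Pool.Agent.EVN
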