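import Pool.Agent.EVN.K.OneW
import Pool.Agent.EVN.Stmt

/-!
Project EVN, block K1 (helper63): `KMono` from (A-eq) and (A-sym).

PAPER PROOF. `X_k` = the paths `bw l`, `hj l = k`, at most `L` steps. `Sv n J X_k + Sv n' J X_k = 2 ak 𝓛 L k` (the word turned by 180 degrees),
`mass0 X_k ≤ 1`, and the probability `Vm n J o X_k` is decreasing in `k`.
-/

namespace Pool.Agent.EVN.KW

open Pool.Agent.Hhelper14.SAW Pool.Agent.HHP Pool.Agent.HEP Pool.Agent.PLY.G Pool.Agent.BEX.F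
open scoped ENNReal

/-- The paths of the words of height `k`, at most `L` steps. -/
def Xk (L k : ℕ) : Set (List (ℤ × ℤ)) := {η | ∃ l, (hj l = k ∧ ln l ≤ L) ∧ bw l = η}

theorem tsum_Xk (L k : ℕ) (f : List (ℤ × ℤ) → ℝ≥0∞) :
    ∑' η : Xk L k, f η.1 = ∑' l : List Blk, ind (hj l = k ∧ ln l ≤ L) * f (bw l) := by
  classical
  let φ : {l : List Blk // hj l = k ∧ ln l ≤ L} → Xk L k := fun l => ⟨bw l.1, l.1, l.2, rfl⟩
  have hφ : Function.Bijective φ := by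
    constructor
    · intro l l' h
      exact Subtype.ext (bw_inj (congrArg Subtype.val h))
    · rintro ⟨η, l, hl, rfl⟩
      exact ⟨⟨l, hl⟩, rfl⟩
  rw [← (Equiv.ofBijective φ hφ).tsum_eq]
  have h1 : ∀ l : {l : List Blk // hj l = k ∧ ln l ≤ L}, f ((Equiv.ofBijective φ hφ) l).1 = f (bw l.1) := fun l => rfl
  rw [tsum_congr h1]
  refine (tsum_subtype {l : List Blk | hj l = k ∧ ln l ≤ L} fun l => f (bw l)).trans (tsum_congr fun l => ?_)
  by_cases h : hj l = k ∧ ln l ≤ L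
  · rw [Set.indicator_of_mem (by exact h), ind_true h, one_mul]
  · rw [Set.indicator_of_notMem (by exact h), ind_false h, zero_mul]

theorem tsum_rvl (f : List Blk → ℝ≥0∞) : ∑' l, f (rvl l) = ∑' l, f l :=
  (Function.Involutive.toPerm rvl rvl_rvl).tsum_eq f

theorem Sv_Xk (hs : ASym) (n J L k : ℕ) :
    Sv n J (Xk L k) = ∑' l : List Blk, ind (hj l = k ∧ ln l ≤ L) * (wj l * ev n J o' (VL l)) := by
  unfold Sv
  rw [tsum_Xk L k (fun η => xE ^ (η.length - 1) * ev n J η.headI {z | z ∈ η.tail}),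
    ← tsum_rvl (fun l => ind (hj l = k ∧ ln l ≤ L) * (wj l * ev n J o' (VL l)))]
  refine tsum_congr fun l => ?_
  have h1 : ev n J (ptz l) (VL l) = ev n J o' (VL (rvl l)) := by
    have h2 := ev_word hs n J (y := 0) (by decide) l
    have h3 : (fun z : ℤ × ℤ => 0 + z) '' VL l = VL l := by
      simp
    rwa [h3, zero_add] at h2
  have h4 : {z | z ∈ (bw l).tail} = VL l := by
    ext z
    exact mem_pw
  rw [hj_rvl, ln_rvl, wj_rvl, h4, bw_length, Nat.add_sub_cancel, wj_ln, ← h1]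
  rfl

theorem Sv_two (hs : ASym) {n n' J : ℕ} {𝓛 : Law} (hI : IsEv n n' J 𝓛) (L k : ℕ) :
    Sv n J (Xk L k) + Sv n' J (Xk L k) = 2 * ak 𝓛 L k := by
  rw [Sv_Xk hs, Sv_Xk hs, ← ENNReal.tsum_add]
  unfold ak
  rw [← ENNReal.tsum_mul_left]
  refine tsum_congr fun l => ?_
  rw [← mul_add, ← mul_add, ← hI]
  ring

theorem mass_Xk (L k : ℕ) (hk : 1 ≤ k) : mass0 (Xk L k) ≤ 1 := by
  unfold mass0
  rw [tsum_Xk L k (fun η => xE ^ (η.length - 1))]
  calc ∑' l : List Blk, ind (hj l = k ∧ ln l ≤ L) * xE ^ ((bw l).length - 1) ≤ ∑' l : List Blk, ind (hj l = k - 1 + 1) * wj l := by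
        refine ENNReal.tsum_le_tsum fun l => ?_
        rw [bw_length, Nat.add_sub_cancel, wj_ln]
        gcongr
        by_cases h : hj l = k ∧ ln l ≤ L
        · rw [ind_true h, ind_true (by omega)]
        · rw [ind_false h]
          exact bot_le
    _ = ms xE (Br (k - 1)) := (ms_Br _).symm
    _ ≤ 1 := Pool.Agent.BEX.C.bn_le_one k

theorem av_empty (𝓛 : Law) : 𝓛.av ∅ = 1 := by
  unfold Law.av
  rw [← 𝓛.tot]
  refine Finset.sum_congr rfl fun ω _ => ?_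
  rw [ind_true (p := ∀ z ∈ ω, z ∉ (∅ : Set (ℤ × ℤ))) (fun z _ h => h), mul_one]

theorem ak_zero (𝓛 : Law) (L : ℕ) : ak 𝓛 L 0 = 1 := by
  unfold ak
  rw [tsum_eq_single []]
  · have h : VL [] = ∅ := by
      ext z
      rw [← mem_pw]
      simp [pw]
    rw [ind_true ⟨hj_nil, by rw [ln_nil]; exact Nat.zero_le _⟩, wj_nil, h, av_empty, one_mul, one_mul]
  · intro l hl
    have := hj_pos hl
    rw [ind_false (by omega), zero_mul]

theorem kMono_of (hA : AEq) (hs : ASym) : KMono := by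
  obtain ⟨C, n0, hA⟩ := hA
  refine ⟨2 * C + 1, n0, fun n n' J L 𝓛 hadm hn hI hL hJ => ?_⟩
  have hLJ : L ≤ J := by nlinarith
  have hadm' : Adm n0 n' J := ⟨hadm.1.trans hn, hadm.2.1, hadm.2.2.trans hn⟩
  set e : ℝ≥0∞ := (C : ℝ≥0∞) * ((L : ℝ≥0∞) / (J : ℝ≥0∞)) with he
  let β : ℕ → ℝ≥0∞ := fun k => if k = 0 then 2 else Vm n J o (Xk L k) + Vm n' J o (Xk L k)
  have hX : ∀ k, 1 ≤ k → PFr (Xk L k) ∧ ∀ η ∈ Xk L k, Beg o L η := by
    intro k hk
    constructor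
    · rintro η ⟨l, hl, rfl⟩ t ⟨l', hl', h⟩
      exact bw_pf h.symm (by rw [hl.1, hl'.1])
    · rintro η ⟨l, hl, rfl⟩
      have hne : l ≠ [] := by
        rintro rfl
        rw [hj_nil] at hl
        omega
      have := ln_pos hne
      exact ⟨by rw [bw_length]; omega, by rw [bw_length]; omega, bw_nodup l, bw_chain l, bw_last l⟩
  have hkey : ∀ k, 1 ≤ k → 2 * ak 𝓛 L k ≤ β k + 2 * e ∧ β k ≤ 2 * ak 𝓛 L k + 2 * e := by
    intro k hk
    have h0 : β k = Vm n J o (Xk L k) + Vm n' J o (Xk L k) := if_neg (by omega)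
    obtain ⟨h1, h2⟩ := hX k hk
    obtain ⟨h3, h4⟩ := hA n J L hadm hLJ o (Or.inl rfl) _ h1 h2
    obtain ⟨h5, h6⟩ := hA n' J L hadm' hLJ o (Or.inl rfl) _ h1 h2
    have hm : (C : ℝ≥0∞) * ((L : ℝ≥0∞) / J) * mass0 (Xk L k) ≤ e := by
      calc (C : ℝ≥0∞) * ((L : ℝ≥0∞) / J) * mass0 (Xk L k) ≤ (C : ℝ≥0∞) * ((L : ℝ≥0∞) / J) * 1 := by
            gcongr
            exact mass_Xk L k hk
        _ = e := mul_one _
    rw [h0, ← Sv_two hs hI]
    constructor
    · calc Sv n J (Xk L k) + Sv n' J (Xk L k) ≤ (Vm n J o (Xk L k) + e) + (Vm n' J o (Xk L k) + e) :=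
            add_le_add (h3.trans (add_le_add le_rfl hm)) (h5.trans (add_le_add le_rfl hm))
        _ = _ := by ring
    · calc Vm n J o (Xk L k) + Vm n' J o (Xk L k) ≤ (Sv n J (Xk L k) + e) + (Sv n' J (Xk L k) + e) :=
            add_le_add (h4.trans (add_le_add le_rfl hm)) (h6.trans (add_le_add le_rfl hm))
        _ = _ := by ring
  have hanti : Antitone β := by
    refine antitone_nat_of_succ_le fun k => ?_
    have h0 : β (k + 1) = Vm n J o (Xk L (k + 1)) + Vm n' J o (Xk L (k + 1)) := if_neg (by omega)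
    rw [h0]
    rcases Nat.eq_zero_or_pos k with rfl | hk
    · show _ ≤ (2 : ℝ≥0∞)
      calc _ ≤ (1 : ℝ≥0∞) + 1 := add_le_add (Vm_le_one hs n J (Or.inl rfl) _) (Vm_le_one hs n' J (Or.inl rfl) _)
        _ = 2 := one_add_one_eq_two
    · have h1 : β k = Vm n J o (Xk L k) + Vm n' J o (Xk L k) := if_neg (by omega)
      rw [h1]
      have h2 : ∀ η ∈ Xk L (k + 1), ∃ t, ∃ η' ∈ Xk L k, η = t ++ η' := by
        rintro η ⟨l, hl, rfl⟩
        obtain ⟨t, l1, h3, h4, h5⟩ := bw_beg (k := k) (l := l) (by omega)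
        exact ⟨t, bw l1, ⟨l1, ⟨h4, by omega⟩, rfl⟩, h3⟩
      exact add_le_add (Vm_mono h2) (Vm_mono h2)
  have h2ne : (2 : ℝ≥0∞) ≠ 0 := by norm_num
  have h2top : (2 : ℝ≥0∞) ≠ ⊤ := by norm_num
  refine ⟨fun k => β k / 2 + e, fun a b hab => add_le_add (ENNReal.div_le_div_right (hanti hab) _) le_rfl, fun k => ?_⟩
  have hfin : e + e ≤ ((2 * C + 1 : ℕ) : ℝ≥0∞) * ((L : ℝ≥0∞) / J) := by
    rw [he, ← two_mul, ← mul_assoc]
    gcongr
    push_cast
    exact le_self_add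
  rcases Nat.eq_zero_or_pos k with rfl | hk
  · rw [ak_zero]
    have h0 : β 0 / 2 = 1 := ENNReal.div_self h2ne h2top
    show 1 ≤ β 0 / 2 + e ∧ β 0 / 2 + e ≤ 1 + ((2 * C + 1 : ℕ) : ℝ≥0∞) * ((L : ℝ≥0∞) / J)
    rw [h0]
    refine ⟨le_self_add, ?_⟩
    refine add_le_add le_rfl (le_trans le_self_add hfin)
  · obtain ⟨h1, h2⟩ := hkey k hk
    constructor
    · rw [← ENNReal.mul_le_mul_iff_right h2ne h2top]
      calc 2 * ak 𝓛 L k ≤ β k + 2 * e := h1
        _ = 2 * (β k / 2) + 2 * e := by rw [ENNReal.mul_div_cancel h2ne h2top]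
        _ = _ := by ring
    · have h3 : β k / 2 ≤ ak 𝓛 L k + e := by
        rw [ENNReal.div_le_iff h2ne h2top]
        refine h2.trans (le_of_eq ?_)
        ring
      calc β k / 2 + e ≤ ak 𝓛 L k + e + e := add_le_add h3 le_rfl
        _ = ak 𝓛 L k + (e + e) := add_assoc _ _ _
        _ ≤ _ := add_le_add le_rfl hfin

end Pool.Agent.EVN.KW
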