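import Pool.Agent.EVN.K.OneD
import Pool.Agent.EVN.A.Rat

/-!
EVN, block K: THE CONTRACT `KOne` from `AEq` and `ASym`.
-/

namespace Pool.Agent.EVN.KO

open Pool.Agent.Hhelper14.SAW Pool.Agent.HHP Pool.Agent.HEP Pool.Agent.PLY.G Pool.Agent.BEX.F
open scoped ENNReal

theorem polyA : PolyA := by
  obtain ⟨C, K, h⟩ := tE_poly
  refine ⟨max C K, fun m => (h m).trans ?_⟩
  have h1 : (1 : ℝ≥0∞) ≤ ((m + 1 : ℕ) : ℝ≥0∞) := by exact_mod_cast Nat.le_add_left 1 m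
  calc (C : ℝ≥0∞) * ((m : ℝ≥0∞) + 1) ^ K ≤ ((max C K : ℕ) : ℝ≥0∞) * ((m + 1 : ℕ) : ℝ≥0∞) ^ K := by
        refine mul_le_mul' ?_ (le_of_eq (by push_cast; rfl))
        exact_mod_cast le_max_left _ _
    _ ≤ _ := mul_le_mul_right (pow_le_pow_right₀ h1 (le_max_right _ _)) _

/-- THE CONTRACT `KOne`. -/
theorem kone (hA : AEq) (hS : ASym) : KOne := kone_poly hA hS polyA

end Pool.Agent.EVN.KO
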