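import Pool.Agent.PLY.G.HitB

/-!
Project EVN (MP_8c6f77_pr, note 3192), block K2, GEOMETRY: the invariant `Iv` of a barrier at a point which has all the points of the barrier
in its two rows on one side (`stage_far`); a path which starts at such a point and leaves the strip of the barrier on the other side meets the
barrier (`stage_wall`).
-/

namespace Pool.Agent.EVN

open Pool.Agent.Hhelper14.SAW Pool.Agent.HHP Pool.Agent.HEP

private lemma StA_U {x y : ℤ × ℤ} (p : ℤ × ℤ) (hp : U p) (h : y = x + p) : U (x - y) := by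
  subst h
  have : x - (x + p) = -p := by ring
  rw [this]
  exact hp.neg

/-- The zigzag to the left. -/
private lemma StA_left {B : List (ℤ × ℤ)} {hb z : ℤ × ℤ} (hB : UChain (hb :: B)) (h1 : F0 hb < F0 z)
    (h2 : F0 z + 1 < F0 ((hb :: B).getLast (by simp)))
    (hr : ∀ b ∈ hb :: B, (F0 b = F0 z ∨ F0 b = F0 z + 1) → z.2 < b.2) (k : ℕ) :
    Iv (hb :: B) hb ((hb :: B).getLast (by simp)) z =
      Iv (hb :: B) hb ((hb :: B).getLast (by simp)) (z + ((k : ℤ), -(2 * (k : ℤ)))) := by
  induction k with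
  | zero =>
    congr 1
    ext <;> simp
  | succ k ih =>
    rw [ih]
    set u : ℤ × ℤ := z + ((k : ℤ), -(2 * (k : ℤ))) with hu
    have hu1 : u.1 = z.1 + k := by rw [hu]; simp
    have hu2 : u.2 = z.2 - 2 * k := by rw [hu]; simp; ring
    have e3 : z + (((k + 1 : ℕ) : ℤ), -(2 * ((k + 1 : ℕ) : ℤ))) = (u + (1, -1)) + (0, -1) := by
      ext <;> simp <;> omega
    rw [e3]
    have f1 : F0 u = F0 z := by simp only [F0]; omega
    have f2 : F0 (u + (1, -1)) = F0 z + 1 := by simp only [F0, Prod.fst_add, Prod.snd_add] at *; omega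
    have f3 : F0 ((u + (1, -1)) + (0, -1)) = F0 z := by
      simp only [F0, Prod.fst_add, Prod.snd_add] at *; omega
    have n1 : u ∉ hb :: B := fun h => by
      have := hr _ h (Or.inl f1); omega
    have n2 : u + (1, -1) ∉ hb :: B := fun h => by
      have := hr _ h (Or.inr f2); simp only [Prod.snd_add] at this; omega
    have n3 : (u + (1, -1)) + (0, -1) ∉ hb :: B := fun h => by
      have := hr _ h (Or.inl f3); simp only [Prod.snd_add] at this; omega
    rw [Iv_step hB (p := u) (q := u + (1, -1)) (StA_U (1, -1) (by simp [U]) rfl) n1 n2 (by omega) (by omega)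
      (by omega) (by omega)]
    exact Iv_step hB (StA_U (0, -1) (by simp [U]) rfl) n2 n3 (by omega) (by omega) (by omega) (by omega)

/-- The zigzag to the right. -/
private lemma StA_right {B : List (ℤ × ℤ)} {hb z : ℤ × ℤ} (hB : UChain (hb :: B)) (h1 : F0 hb < F0 z)
    (h2 : F0 z + 1 < F0 ((hb :: B).getLast (by simp)))
    (hr : ∀ b ∈ hb :: B, (F0 b = F0 z ∨ F0 b = F0 z + 1) → b.2 < z.2) (k : ℕ) :
    Iv (hb :: B) hb ((hb :: B).getLast (by simp)) z =
      Iv (hb :: B) hb ((hb :: B).getLast (by simp)) (z + (-(k : ℤ), 2 * (k : ℤ))) := by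
  induction k with
  | zero =>
    congr 1
    ext <;> simp
  | succ k ih =>
    rw [ih]
    set u : ℤ × ℤ := z + (-(k : ℤ), 2 * (k : ℤ)) with hu
    have hu1 : u.1 = z.1 - k := by rw [hu]; simp; ring
    have hu2 : u.2 = z.2 + 2 * k := by rw [hu]; simp
    have e3 : z + (-((k + 1 : ℕ) : ℤ), 2 * ((k + 1 : ℕ) : ℤ)) = (u + (0, 1)) + (-1, 1) := by
      ext <;> simp <;> omega
    rw [e3]
    have f1 : F0 u = F0 z := by simp only [F0]; omega
    have f2 : F0 (u + (0, 1)) = F0 z + 1 := by simp only [F0, Prod.fst_add, Prod.snd_add] at *; omega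
    have f3 : F0 ((u + (0, 1)) + (-1, 1)) = F0 z := by
      simp only [F0, Prod.fst_add, Prod.snd_add] at *; omega
    have n1 : u ∉ hb :: B := fun h => by
      have := hr _ h (Or.inl f1); omega
    have n2 : u + (0, 1) ∉ hb :: B := fun h => by
      have := hr _ h (Or.inr f2); simp only [Prod.snd_add] at this; omega
    have n3 : (u + (0, 1)) + (-1, 1) ∉ hb :: B := fun h => by
      have := hr _ h (Or.inl f3); simp only [Prod.snd_add] at this; omega
    rw [Iv_step hB (p := u) (q := u + (0, 1)) (StA_U (0, 1) (by simp [U]) rfl) n1 n2 (by omega) (by omega)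
      (by omega) (by omega)]
    exact Iv_step hB (StA_U (-1, 1) (by simp [U]) rfl) n2 n3 (by omega) (by omega) (by omega) (by omega)

/-- Down at the left of everything. -/
private lemma StA_downL {B : List (ℤ × ℤ)} {hb z : ℤ × ℤ} (hB : UChain (hb :: B))
    (hr : ∀ b ∈ hb :: B, z.2 < b.2) (h2 : F0 z < F0 ((hb :: B).getLast (by simp))) (n : ℕ) (h1 : F0 hb < F0 z - n) :
    Iv (hb :: B) hb ((hb :: B).getLast (by simp)) z =
      Iv (hb :: B) hb ((hb :: B).getLast (by simp)) (z + (0, -(n : ℤ))) := by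
  induction n with
  | zero =>
    congr 1
    ext <;> simp
  | succ n ih =>
    rw [ih (by push_cast at h1; omega)]
    set u : ℤ × ℤ := z + (0, -(n : ℤ)) with hu
    have hu1 : u.1 = z.1 := by rw [hu]; simp
    have hu2 : u.2 = z.2 - n := by rw [hu]; simp; ring
    have e3 : z + (0, -((n + 1 : ℕ) : ℤ)) = u + (0, -1) := by
      ext <;> simp <;> omega
    rw [e3]
    have f1 : F0 u = F0 z - n := by simp only [F0]; omega
    have f2 : F0 (u + (0, -1)) = F0 z - n - 1 := by simp only [F0, Prod.fst_add, Prod.snd_add] at *; omega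
    push_cast at h1
    exact Iv_step hB (StA_U (0, -1) (by simp [U]) rfl) (fun h => by have := hr _ h; omega)
      (fun h => by have := hr _ h; simp only [Prod.snd_add] at this; omega) (by omega) (by omega) (by omega) (by omega)

/-- Down at the right of everything. -/
private lemma StA_downR {B : List (ℤ × ℤ)} {hb z : ℤ × ℤ} (hB : UChain (hb :: B))
    (hr : ∀ b ∈ hb :: B, b.2 < z.2) (h2 : F0 z < F0 ((hb :: B).getLast (by simp))) (n : ℕ) (h1 : F0 hb < F0 z - n) :
    Iv (hb :: B) hb ((hb :: B).getLast (by simp)) z =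
      Iv (hb :: B) hb ((hb :: B).getLast (by simp)) (z + (-(n : ℤ), (n : ℤ))) := by
  induction n with
  | zero =>
    congr 1
    ext <;> simp
  | succ n ih =>
    rw [ih (by push_cast at h1; omega)]
    set u : ℤ × ℤ := z + (-(n : ℤ), (n : ℤ)) with hu
    have hu1 : u.1 = z.1 - n := by rw [hu]; simp; ring
    have hu2 : u.2 = z.2 + n := by rw [hu]; simp
    have e3 : z + (-((n + 1 : ℕ) : ℤ), ((n + 1 : ℕ) : ℤ)) = u + (-1, 1) := by
      ext <;> simp <;> omega
    rw [e3]
    have f1 : F0 u = F0 z - n := by simp only [F0]; omega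
    have f2 : F0 (u + (-1, 1)) = F0 z - n - 1 := by simp only [F0, Prod.fst_add, Prod.snd_add] at *; omega
    push_cast at h1
    exact Iv_step hB (StA_U (-1, 1) (by simp [U]) rfl) (fun h => by have := hr _ h; omega)
      (fun h => by have := hr _ h; simp only [Prod.snd_add] at this; omega) (by omega) (by omega) (by omega) (by omega)

private lemma StA_bdd (L : List (ℤ × ℤ)) : ∃ M : ℕ, ∀ b ∈ L, |b.2| ≤ M := by
  induction L with
  | nil => exact ⟨0, by simp⟩
  | cons a L ih =>
    obtain ⟨M, hM⟩ := ih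
    refine ⟨max M a.2.natAbs, ?_⟩
    intro b hb
    rcases List.mem_cons.1 hb with rfl | hb
    · have : |b.2| = (b.2.natAbs : ℤ) := (Int.natCast_natAbs _).symm
      rw [this]
      exact_mod_cast le_max_right _ _
    · exact (hM b hb).trans (by exact_mod_cast le_max_left _ _)

/-- The value of the invariant at a point which has the points of the barrier in its two rows on one side. `τ = true`: at its left. -/
theorem stage_far {A2 : List (ℤ × ℤ)} {e1 e2 : ℤ × ℤ} {m : ℤ} (τ : Bool)
    (hB : UChain (e1 :: A2)) (he : e1 = e2 + (1, 0)) (he2 : F0 e2 = 3 * m - 2) (hA : ∀ z ∈ A2, 3 * m ≤ F0 z)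
    {z0 : ℤ × ℤ} (hz0 : 3 * m ≤ F0 z0) (hz0' : F0 z0 + 1 < F0 ((e1 :: A2).getLast (by simp)))
    (hr : ∀ b ∈ e1 :: A2, (F0 b = F0 z0 ∨ F0 b = F0 z0 + 1) → if τ then b.2 < z0.2 else z0.2 < b.2) :
    Iv ((e2 + (0, -1)) :: e2 :: e1 :: A2) (e2 + (0, -1)) (((e2 + (0, -1)) :: e2 :: e1 :: A2).getLast (by simp)) z0 =
      if τ then -6 else 0 := by
  set hb : ℤ × ℤ := e2 + (0, -1) with hhb
  have hFb : F0 hb = 3 * m - 3 := by rw [hhb]; simp only [F0, Prod.fst_add, Prod.snd_add] at *; omega
  set B : List (ℤ × ℤ) := e2 :: e1 :: A2 with hBdef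
  have hBc : UChain (hb :: B) := by
    refine List.isChain_cons_cons.2 ⟨?_, List.isChain_cons_cons.2 ⟨?_, hB⟩⟩
    · rw [hhb]; simp [U]
    · rw [he]; exact StA_U (1, 0) (by simp [U]) rfl
  have hlast : (hb :: B).getLast (by simp) = (e1 :: A2).getLast (by simp) := by
    rw [hBdef]
    simp
  have hbar : [hb] ++ e2 :: e1 :: A2 = hb :: B := rfl
  -- the points of the barrier in the two rows
  have hrB : ∀ b ∈ hb :: B, (F0 b = F0 z0 ∨ F0 b = F0 z0 + 1) → if τ then b.2 < z0.2 else z0.2 < b.2 := by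
    intro b hbm hF
    rcases List.mem_cons.1 hbm with hh | hh
    · exfalso; rw [hh, hFb] at hF; omega
    · rcases List.mem_cons.1 hh with hh | hh
      · exfalso; rw [hh, he2] at hF; omega
      · exact hr b hh hF
  obtain ⟨M, hM⟩ := StA_bdd (hb :: B)
  have he2M := hM e2 (by rw [hBdef]; simp)
  rw [← hlast] at hz0'
  cases τ with
  | true =>
    simp only [if_true] at hrB ⊢
    -- to the right
    set k : ℕ := (M + z0.2.natAbs + 1) with hk
    have hkz : |z0.2| = (z0.2.natAbs : ℤ) := (Int.natCast_natAbs _).symm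
    set u : ℤ × ℤ := z0 + (-(k : ℤ), 2 * (k : ℤ)) with hu
    have hu1 : u.1 = z0.1 - k := by rw [hu]; simp; ring
    have hu2 : u.2 = z0.2 + 2 * k := by rw [hu]; simp
    have hku : (M : ℤ) < u.2 := by
      have := neg_abs_le z0.2
      rw [hu2]
      push_cast [hk]
      omega
    have i1 := StA_right hBc (z := z0) (by omega) hz0' hrB k
    have hur : ∀ b ∈ hb :: B, b.2 < u.2 := fun b hbm => by
      have := hM b hbm
      have := le_abs_self b.2
      omega
    have hFu : F0 u = F0 z0 := by simp only [F0]; omega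
    obtain ⟨n, hn⟩ : ∃ n : ℕ, (n : ℤ) = F0 z0 - (3 * m - 2) := ⟨(F0 z0 - (3 * m - 2)).toNat, by omega⟩
    have i2 := StA_downR hBc hur (by rw [hFu]; omega) n (by rw [hFu]; omega)
    set y : ℤ × ℤ := u + (-(n : ℤ), (n : ℤ)) with hy
    have hy1 : y.1 = u.1 - n := by rw [hy]; simp; ring
    have hy2 : y.2 = u.2 + n := by rw [hy]; simp
    have hFy : F0 y = 3 * m - 2 := by simp only [F0] at *; omega
    have r2 := Iv_row hbar hBc he he2 (by intro z hz; rw [List.mem_singleton] at hz; rw [hz, hFb]; omega) hA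
      (z := y) (fun hm => by have := hur y hm; omega) (by rw [hFb, hFy]; omega) hFy
    rw [if_neg (by have := le_abs_self e2.2; omega)] at r2
    rw [← r2, i1]
    exact i2
  | false =>
    simp only [Bool.false_eq_true, if_false] at hrB ⊢
    set k : ℕ := (M + z0.2.natAbs + 1) with hk
    have hkz : |z0.2| = (z0.2.natAbs : ℤ) := (Int.natCast_natAbs _).symm
    set u : ℤ × ℤ := z0 + ((k : ℤ), -(2 * (k : ℤ))) with hu
    have hu1 : u.1 = z0.1 + k := by rw [hu]; simp
    have hu2 : u.2 = z0.2 - 2 * k := by rw [hu]; simp; ring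
    have hku : u.2 < -(M : ℤ) := by
      have := le_abs_self z0.2
      rw [hu2]
      push_cast [hk]
      omega
    have i1 := StA_left hBc (z := z0) (by omega) hz0' hrB k
    have hur : ∀ b ∈ hb :: B, u.2 < b.2 := fun b hbm => by
      have := hM b hbm
      have := neg_abs_le b.2
      omega
    have hFu : F0 u = F0 z0 := by simp only [F0]; omega
    obtain ⟨n, hn⟩ : ∃ n : ℕ, (n : ℤ) = F0 z0 - (3 * m - 2) := ⟨(F0 z0 - (3 * m - 2)).toNat, by omega⟩
    have i2 := StA_downL hBc hur (by rw [hFu]; omega) n (by rw [hFu]; omega)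
    set y : ℤ × ℤ := u + (0, -(n : ℤ)) with hy
    have hy1 : y.1 = u.1 := by rw [hy]; simp
    have hy2 : y.2 = u.2 - n := by rw [hy]; simp; ring
    have hFy : F0 y = 3 * m - 2 := by simp only [F0] at *; omega
    have r2 := Iv_row hbar hBc he he2 (by intro z hz; rw [List.mem_singleton] at hz; rw [hz, hFb]; omega) hA
      (z := y) (fun hm => by have := hur y hm; omega) (by rw [hFb, hFy]; omega) hFy
    rw [if_pos (by have := neg_abs_le e2.2; omega)] at r2
    rw [← r2, i1]
    exact i2

/-- The wall. The path `z0 :: (M ++ [z1])` starts at a point `z0` which has the points of the barrier `y :: A2` in its two rows on one side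
(`τ = true`: at its left), and its last point `z1` is on the other side: below `y`, or all points of the barrier in its two rows are
at its other side. Then the path meets the barrier. -/
theorem stage_wall (τ : Bool) {A2 M : List (ℤ × ℤ)} {y z0 z1 : ℤ × ℤ} {m : ℤ}
    (hB : UChain (y :: A2)) (hy : F0 y = 3 * m) (hA : ∀ z ∈ A2, 3 * m ≤ F0 z)
    (hQ : UChain (z0 :: (M ++ [z1]))) (hav : ∀ z ∈ z0 :: (M ++ [z1]), z ∉ y :: A2)
    (hM : ∀ z ∈ z0 :: M, 3 * m ≤ F0 z ∧ F0 z + 2 < F0 ((y :: A2).getLast (by simp)))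
    (hr : ∀ b ∈ y :: A2, (F0 b = F0 z0 ∨ F0 b = F0 z0 + 1) → if τ then b.2 < z0.2 else z0.2 < b.2)
    (h1 : (F0 z1 < 3 * m ∧ F0 z1 % 3 ≠ 2 ∧ if τ then z1.2 ≤ y.2 else y.2 ≤ z1.2) ∨
      (3 * m ≤ F0 z1 ∧ F0 z1 + 1 < F0 ((y :: A2).getLast (by simp)) ∧
        ∀ b ∈ y :: A2, (F0 b = F0 z1 ∨ F0 b = F0 z1 + 1) → if τ then z1.2 < b.2 else b.2 < z1.2)) : False := by
  set e2 : ℤ × ℤ := y + (-1, 0) with he2d
  have he : y = e2 + (1, 0) := by rw [he2d]; ext <;> simp
  have he2 : F0 e2 = 3 * m - 2 := by rw [he2d]; simp only [F0, Prod.fst_add, Prod.snd_add] at *; omega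
  have he22 : e2.2 = y.2 := by rw [he2d]; simp
  set hb : ℤ × ℤ := e2 + (0, -1) with hhb
  have hFb : F0 hb = 3 * m - 3 := by rw [hhb]; simp only [F0, Prod.fst_add, Prod.snd_add] at *; omega
  have hBc : UChain (hb :: e2 :: y :: A2) := by
    refine List.isChain_cons_cons.2 ⟨?_, List.isChain_cons_cons.2 ⟨?_, hB⟩⟩
    · rw [hhb]; simp [U]
    · rw [he2d]; simp [U]
  have hlast : (hb :: e2 :: y :: A2).getLast (by simp) = (y :: A2).getLast (by simp) := by simp
  have hbar : [hb] ++ e2 :: y :: A2 = hb :: e2 :: y :: A2 := rfl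
  -- the point before `z1`
  have hne : (z0 :: M) ≠ [] := by simp
  set x : ℤ × ℤ := (z0 :: M).getLast hne with hx
  have hxm : x ∈ z0 :: M := List.getLast_mem hne
  have hxl := hM x hxm
  have hU : U (x - z1) := by
    have h2 : UChain ((z0 :: M) ++ [z1]) := by simpa using hQ
    exact (List.isChain_append.1 h2).2.2 x (by rw [hx]; exact List.getLast?_eq_some_getLast hne) z1 (by simp)
  have hxU : (x.1 - z1.1 = 1 ∧ x.2 = z1.2) ∨ (-2 ≤ F0 x - F0 z1 ∧ F0 x - F0 z1 ≤ 1) := by
    simp only [U, F0, Prod.fst_sub, Prod.snd_sub] at *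
    omega
  have hF1 : 3 * m - 2 ≤ F0 z1 ∧ F0 z1 < F0 ((y :: A2).getLast (by simp)) := by
    rcases hxU with ⟨a, b⟩ | ⟨a, b⟩
    · have : F0 x = F0 z1 + 2 := by simp only [F0]; omega
      omega
    · omega
  have hmem : ∀ z ∈ z0 :: (M ++ [z1]), z ∈ z0 :: M ∨ z = z1 := by
    intro z hz
    rcases List.mem_cons.1 hz with rfl | hz
    · left; simp
    · rcases List.mem_append.1 hz with hz | hz
      · left; exact List.mem_cons_of_mem _ hz
      · right; exact List.mem_singleton.1 hz
  have hz1e : z1 ≠ e2 := by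
    intro h
    have hF : F0 z1 = 3 * m - 2 := by rw [h]; exact he2
    rcases hxU with ⟨a, b⟩ | ⟨a, b⟩
    · have : x = y := by
        rw [h, he2d] at a b
        ext
        · simp at a; omega
        · simp at b; exact b
      have hxP : x ∈ z0 :: (M ++ [z1]) := by
        rcases List.mem_cons.1 hxm with h4 | h4
        · rw [h4]; simp
        · exact List.mem_cons_of_mem _ (List.mem_append_left _ h4)
      exact hav x hxP (by rw [this]; simp)
    · omega
  have hd : ∀ z ∈ z0 :: (M ++ [z1]), z ∉ hb :: e2 :: y :: A2 := by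
    intro z hz hzb
    rcases List.mem_cons.1 hzb with h | h
    · have h3 : 3 * m - 2 ≤ F0 z := by
        rcases hmem z hz with h4 | h4
        · have := hM z h4; omega
        · rw [h4]; exact hF1.1
      rw [h, hFb] at h3
      omega
    · rcases List.mem_cons.1 h with h | h
      · rcases hmem z hz with h4 | h4
        · have := hM z h4
          rw [h, he2] at this
          omega
        · exact hz1e (h4 ▸ h)
      · exact hav z hz h
  have hlo : ∀ z ∈ z0 :: (M ++ [z1]), F0 hb < F0 z := by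
    intro z hz
    rcases hmem z hz with h4 | h4
    · have := hM z h4; omega
    · rw [h4]; omega
  have hhi : ∀ z ∈ z0 :: (M ++ [z1]), F0 z < F0 ((hb :: e2 :: y :: A2).getLast (by simp)) := by
    intro z hz
    rw [hlast]
    rcases hmem z hz with h4 | h4
    · have := hM z h4; omega
    · rw [h4]; exact hF1.2
  have c1 := Iv_chain hBc (M ++ [z1]) z0 hQ hd hlo hhi z1 (by simp)
  have c0 := stage_far τ hB he he2 hA (z0 := z0) (hM z0 (by simp)).1 (by have := (hM z0 (by simp)).2; omega) hr
  rw [c0] at c1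
  rcases h1 with ⟨a1, a2, a3⟩ | ⟨a1, a2, a3⟩
  · have hF : F0 z1 = 3 * m - 2 := by omega
    have r1 := Iv_row hbar hBc he he2 (by intro z hz; rw [List.mem_singleton] at hz; rw [hz, hFb]; omega) hA
      (hd z1 (by simp)) (by omega) hF
    rw [r1] at c1
    have hz12 : z1.2 ≠ y.2 := by
      intro h
      apply hz1e
      ext
      · simp only [F0] at hF he2; omega
      · rw [h, he22]
    cases τ with
    | true =>
      simp only [if_true] at c1 a3
      rw [if_pos (by rw [he22]; omega)] at c1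
      omega
    | false =>
      simp only [Bool.false_eq_true, if_false] at c1 a3
      rw [if_neg (by rw [he22]; omega)] at c1
      omega
  · have c2 := stage_far (!τ) hB he he2 hA (z0 := z1) a1 a2 (by
      intro b hb' hF
      have := a3 b hb' hF
      cases τ <;> simpa using this)
    rw [c2] at c1
    cases τ <;> simp at c1

end Pool.Agent.EVN
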