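import Pool.Agent.EVN.Defs
import Pool.Agent.EVN.K.StageA

/-!
Project EVN (MP_8c6f77_pr, note 3192), block K2, GEOMETRY: `stage_G'`. A path `ω` from `o'` with a point `z` in a window in front of `y`: for one
of the two signs `sg`, every word `l` put at `y` which passes beyond `z` on the side `sg` and is later on the other side is met by `ω`.
-/

namespace Pool.Agent.EVN

open Pool.Agent.Hhelper14.SAW Pool.Agent.HHP Pool.Agent.HEP Pool.Agent.PLY.G

lemma StG_head (W : List Bool) : V W = (0, 0) :: (V W).tail := by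
  cases W <;> rfl

lemma StG_last (W : List Bool) : ((((0, 0) : ℤ × ℤ) :: (V W).tail).getLast (by simp)) = E W := by
  have h := vs_getLast? (0, 0) (1, 0) W
  have h1 : (V W).getLast? = some (E W) := h
  rw [StG_head W, List.getLast?_eq_some_getLast (by simp)] at h1
  exact Option.some_injective _ h1

/-- The crossing lemma with free constants. -/
theorem stage_G' {W T a b k : ℤ} (hT : 0 ≤ T) (hbT : b ≤ T) (ha : 0 ≤ a) (hkW : k ≤ W) {ω : List (ℤ × ℤ)}
    {y z : ℤ × ℤ} {m : ℤ} (hc : HChain ω) (hl : ω.getLast? = some o') (hy : F0 y = 3 * m) (hm : 0 ≤ m) (hz : z ∈ ω)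
    (h1 : a ≤ F0 z - F0 y) (h2 : F0 z - F0 y ≤ b) (h3 : |z.2 - y.2| ≤ k) :
    ∃ sg : ℤ, (sg = 1 ∨ sg = -1) ∧ ∀ l : List Blk, T + 6 ≤ 3 * hj l → (∀ v ∈ VL l, |v.2| ≤ W) →
      (∀ v ∈ VL l, a ≤ F0 v → F0 v ≤ b + 1 → k < sg * v.2) → (∀ v ∈ VL l, T < F0 v → sg * v.2 < 0) →
      ∃ w ∈ ω, w - y ∈ VL l := by
  have ho' : F0 o' = -2 := by simp [F0, o']
  obtain ⟨ω1, ω2, hω⟩ := List.append_of_mem hz
  -- the lattice
  have hmod : ∀ v ∈ ω, F0 v % 3 ≠ 2 := by
    intro v hv
    have hon' : hon v := by
      by_cases h : v = o'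
      · rw [h]; decide
      · obtain ⟨A, B, hAB⟩ := List.append_of_mem hv
        cases B with
        | nil =>
          exfalso
          apply h
          rw [hAB, List.getLast?_append_cons] at hl
          simpa using hl
        | cons x B =>
          rw [hAB] at hc
          exact (List.isChain_cons_cons.1 (List.isChain_append.1 hc).2.1).1.1
    simp only [hon, F0] at *
    omega
  have hlast : (z :: ω2).getLast (by simp) = o' := by
    rw [hω, List.getLast?_append_cons] at hl
    rw [List.getLast?_eq_some_getLast (by simp)] at hl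
    exact Option.some_injective _ hl
  have hch2 : UChain (z :: ω2) := by
    have := hc.U
    rw [hω] at this
    exact (List.isChain_append.1 this).2.1
  obtain ⟨M, z1, R', hR, hp1, hp2⟩ := hit_seg (fun v => ¬ (3 * m ≤ F0 v ∧ F0 v ≤ 3 * m + T ∧ |v.2 - y.2| ≤ W)) ω2 z
    (by rw [not_not]; exact ⟨by omega, by omega, by omega⟩) (by rw [hlast, ho']; omega)
  have hsub : z :: ω2 = (z :: (M ++ [z1])) ++ R' := by rw [hR]; simp
  have hQ : UChain (z :: (M ++ [z1])) := by
    rw [hsub] at hch2
    exact (List.isChain_append.1 hch2).1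
  have hmem : ∀ v ∈ z :: (M ++ [z1]), v ∈ ω := fun v hv => by
    rw [hω]
    refine List.mem_append_right _ ?_
    rw [hsub]
    exact List.mem_append_left _ hv
  have hMw : ∀ v ∈ z :: M, 3 * m ≤ F0 v ∧ F0 v ≤ 3 * m + T ∧ |v.2 - y.2| ≤ W := by
    intro v hv
    rcases List.mem_cons.1 hv with rfl | hv
    · exact ⟨by omega, by omega, by omega⟩
    · have := hp2 v hv
      rwa [not_not] at this
  -- the step to `z1`
  have hstep : 3 * m - 2 ≤ F0 z1 ∧ F0 z1 ≤ 3 * m + T + 2 := by
    have hne : (z :: M) ≠ [] := by simp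
    set x : ℤ × ℤ := (z :: M).getLast hne with hx
    have hxm : x ∈ z :: M := List.getLast_mem hne
    have hxl := hMw x hxm
    have hU : U (x - z1) := by
      have h2 : UChain ((z :: M) ++ [z1]) := by simpa using hQ
      exact (List.isChain_append.1 h2).2.2 x (by rw [hx]; exact List.getLast?_eq_some_getLast hne) z1 (by simp)
    simp only [U, F0, Prod.fst_sub, Prod.snd_sub] at *
    omega
  obtain ⟨τ, hτ⟩ : ∃ τ : Bool, if τ then z1.2 < y.2 else y.2 ≤ z1.2 := by
    by_cases h : z1.2 < y.2
    · exact ⟨true, by simpa using h⟩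
    · exact ⟨false, by simp; omega⟩
  refine ⟨if τ then -1 else 1, by cases τ <;> simp, ?_⟩
  intro l hh hA hB hC
  by_contra hcon
  push Not at hcon
  have hl0 : l ≠ [] := by
    rintro rfl
    rw [hj_nil] at hh
    push_cast at hh
    omega
  have hbr := jn_Br hl0
  have hpos := hj_pos hl0
  set A2 : List (ℤ × ℤ) := (V (jn l)).tail.map (fun v => v + y) with hA2
  have hVe : (V (jn l)).map (fun v => v + y) = y :: A2 := by
    conv_lhs => rw [StG_head]
    rw [hA2, List.map_cons]
    congr 1
    ext <;> simp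
  have hbar : ∀ b ∈ y :: A2, b - y ∈ VL l := by
    intro b hb
    rw [← hVe] at hb
    obtain ⟨v, hv, rfl⟩ := List.mem_map.1 hb
    have e : v + y - y = v := by ring
    show v + y - y ∈ VL l
    rw [e]
    exact (mem_jn hl0 v).1 hv
  have hbF : ∀ b ∈ y :: A2, 3 * m ≤ F0 b := by
    intro b hb
    rw [← hVe] at hb
    obtain ⟨v, hv, rfl⟩ := List.mem_map.1 hb
    have h5 := (hbr.1.2 v hv).1
    show 3 * m ≤ F0 (v + y)
    rw [F0_add]
    omega
  have hUB : UChain (y :: A2) := by
    rw [← hVe]
    unfold UChain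
    rw [List.isChain_map]
    refine List.IsChain.imp ?_ (uchain_V (jn l))
    intro u v h
    have : u + y - (v + y) = u - v := by ring
    rw [this]
    exact h
  have hFl : F0 ((y :: A2).getLast (by simp)) = 3 * m + 3 * hj l - 2 := by
    have e1 : (y :: A2).getLast (by simp) = E (jn l) + y := by
      have e2 : y :: A2 = (((0, 0) : ℤ × ℤ) :: (V (jn l)).tail).map (fun v => v + y) := by
        rw [← hVe]; congr 1; exact StG_head _
      rw [List.getLast_congr (by simp) (by simp) e2, List.getLast_map, StG_last]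
    rw [e1, F0_add, hy, hbr.2]
    omega
  have hb2 : ∀ b : ℤ × ℤ, (b - y).2 = b.2 - y.2 := fun b => by simp
  refine stage_wall τ (A2 := A2) (M := M) (y := y) (z0 := z) (z1 := z1) (m := m) hUB hy
    (fun v hv => hbF v (List.mem_cons_of_mem _ hv)) hQ
    (fun v hv hvb => hcon v (hmem v hv) (hbar v hvb)) ?_ ?_ ?_
  · intro v hv
    have := hMw v hv
    rw [hFl]
    omega
  · intro b hb hF
    have h5 := hB _ (hbar b hb) (by rw [F0_sub']; omega) (by rw [F0_sub']; omega)
    rw [hb2] at h5
    rw [abs_le] at h3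
    cases τ with
    | true => simp only [if_true] at h5 ⊢; omega
    | false => simp only [Bool.false_eq_true, if_false] at h5 ⊢; omega
  · by_cases hlow : F0 z1 < 3 * m
    · left
      refine ⟨hlow, hmod z1 (hmem z1 (by simp)), ?_⟩
      cases τ with
      | true => simp only [if_true] at hτ ⊢; omega
      | false => simp only [Bool.false_eq_true, if_false] at hτ ⊢; exact hτ
    · right
      refine ⟨by omega, by rw [hFl]; omega, ?_⟩
      intro b hb hF
      by_cases htop : 3 * m + T < F0 z1
      · have h5 := hC _ (hbar b hb) (by rw [F0_sub']; omega)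
        rw [hb2] at h5
        cases τ with
        | true => simp only [if_true] at h5 hτ ⊢; omega
        | false => simp only [Bool.false_eq_true, if_false] at h5 hτ ⊢; omega
      · have h6 : ¬ |z1.2 - y.2| ≤ W := fun h => hp1 ⟨by omega, by omega, h⟩
        have h5 := hA _ (hbar b hb)
        rw [hb2] at h5
        rw [abs_le] at h5 h6
        cases τ with
        | true => simp only [if_true] at hτ ⊢; omega
        | false => simp only [Bool.false_eq_true, if_false] at hτ ⊢; omega

end Pool.Agent.EVN
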