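import Pool.Agent.EVN.Stmt
import Pool.Agent.EVN.K.StageG0
import Pool.Agent.PLY.G.RunA

/-!
Project EVN (MP_8c6f77_pr, note 3192), block K2, ASSEMBLY: `stage_of`. Two facts about the masses of prefix free sets of words (`poly_words`:
words along the polygons; `zero_words`: words straight on) give the stage lemma `KStage`.
-/

namespace Pool.Agent.EVN

open Pool.Agent.Hhelper14.SAW Pool.Agent.HHP Pool.Agent.HEP Pool.Agent.PLY.G
open scoped ENNReal

/-- The first passage words without prefix in a prefix free set. -/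
lemma stage_compl {X : Set (List Blk)} (hX : hsI.toAlph.PF X) {N : ℕ} (hN : ∀ l ∈ X, hj l ≤ N) {c : ℝ≥0∞}
    (hc : c ≤ ∑' l : List Blk, ind (l ∈ X) * wj l) (hc1 : c ≠ ⊤) (bad : List Blk → Prop) (hb : ∀ l ∈ X, ∀ m, ¬ bad (l ++ m)) :
    ∑' s : List Blk, ind (hsI.toAlph.fpw N s ∧ bad s) * wj s ≤ 1 - c := by
  refine ENNReal.le_sub_of_add_le_right hc1 ?_
  have h1 : ∑' l : List Blk, ind (l ∈ X) * wj l ≤
      ∑' s : List Blk, ind (hsI.toAlph.fpw N s ∧ Alph.hasPre (A := hsI.toAlph) X s) * wj s :=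
    Alph.pref_mass (A := hsI.toAlph) hX hN
  have h2 : ∑' s : List Blk, ind (hsI.toAlph.fpw N s) * wj s = 1 := Alph.tsum_fpw (A := hsI.toAlph) N
  calc ∑' s : List Blk, ind (hsI.toAlph.fpw N s ∧ bad s) * wj s + c
      ≤ ∑' s : List Blk, ind (hsI.toAlph.fpw N s ∧ bad s) * wj s +
          ∑' s : List Blk, ind (hsI.toAlph.fpw N s ∧ Alph.hasPre (A := hsI.toAlph) X s) * wj s := add_le_add le_rfl (hc.trans h1)
    _ = ∑' s : List Blk, (ind (hsI.toAlph.fpw N s ∧ bad s) * wj s +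
          ind (hsI.toAlph.fpw N s ∧ Alph.hasPre (A := hsI.toAlph) X s) * wj s) := ENNReal.tsum_add.symm
    _ ≤ ∑' s : List Blk, ind (hsI.toAlph.fpw N s) * wj s := by
        refine ENNReal.tsum_le_tsum fun s => ?_
        rw [← add_mul]
        refine mul_le_mul' ?_ le_rfl
        by_cases hf : hsI.toAlph.fpw N s
        · rw [ind_true hf]
          by_cases hp : Alph.hasPre (A := hsI.toAlph) X s
          · obtain ⟨l, hl, m, rfl⟩ := hp
            rw [ind_false (p := hsI.toAlph.fpw N (l ++ m) ∧ bad (l ++ m)) (fun h => hb l hl m h.2), zero_add]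
            exact ind_le_one _
          · rw [ind_false (p := hsI.toAlph.fpw N s ∧ Alph.hasPre (A := hsI.toAlph) X s) (fun h => hp h.2), add_zero]
            exact ind_le_one _
        · rw [ind_false (fun h => hf h.1), ind_false (fun h => hf h.1), add_zero]
          exact bot_le
    _ = 1 := h2

/-- Vertices of a concatenation. -/
lemma VL_mid {p l m : List Blk} {v : ℤ × ℤ} (hv : v ∈ VL l) : v + ptz p ∈ VL (p ++ (l ++ m)) := by
  obtain ⟨l1, c, l2, u, rfl, hu, rfl⟩ := hv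
  refine ⟨p ++ l1, c, l2 ++ m, u, by simp, hu, ?_⟩
  have h : ptz (p ++ l1) = ptz p + ptz l1 := by
    unfold ptz
    rw [List.map_append, List.sum_append]
  rw [h]
  ring

/-- The stage lemma from the masses of the words. -/
theorem stage_of
    (hP : ∃ (c : ℝ≥0∞) (t0 : ℕ), 0 < c ∧ ∀ t : ℕ, t0 ≤ t → ∀ sg : ℤ, (sg = 1 ∨ sg = -1) → ∃ X : Set (List Blk),
      hsI.toAlph.PF X ∧ (∀ l ∈ X, 5 * t ≤ hj l ∧ hj l ≤ 6 * t ∧ ∀ z ∈ VL l, |z.2| ≤ (12 : ℤ) * t ∧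
        (15 * (t : ℤ) ≤ 4 * F0 z → 4 * F0 z ≤ 33 * t → 2 * (t : ℤ) ≤ sg * z.2) ∧ (12 * (t : ℤ) ≤ F0 z → sg * z.2 ≤ -(t : ℤ))) ∧
      c ≤ ∑' l : List Blk, ind (l ∈ X) * wj l)
    (hZ : ∃ (c : ℝ≥0∞) (t0 : ℕ), 0 < c ∧ ∀ t : ℕ, t0 ≤ t → ∃ X : Set (List Blk), hsI.toAlph.PF X ∧
      (∀ l ∈ X, 2 * t ≤ hj l ∧ 4 * hj l ≤ 9 * t ∧ 4 * |xj l| ≤ t) ∧ c ≤ ∑' l : List Blk, ind (l ∈ X) * wj l) :
    KStage := by
  obtain ⟨c1, t1, hc1, hP⟩ := hP
  obtain ⟨c0, t0, hc0, hZ⟩ := hZ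
  set d : ℝ≥0∞ := min 1 (min c0 c1) with hd
  have hd0 : 0 < d := lt_min one_pos (lt_min hc0 hc1)
  have hd1 : d ≤ c0 := (min_le_right _ _).trans (min_le_left _ _)
  have hd2 : d ≤ c1 := (min_le_right _ _).trans (min_le_right _ _)
  have hdt : d ≠ ⊤ := ne_top_of_le_ne_top ENNReal.one_ne_top (min_le_left _ _)
  refine ⟨1 - d, 48, t0 + t1 + 2, ENNReal.sub_lt_self ENNReal.one_ne_top one_ne_zero hd0.ne', ?_⟩
  intro r hr p ω hc hl
  set t : ℕ := 8 * r with ht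
  have hFp : F0 (ptz p) = 3 * hj p := F0_ptz p
  by_cases hz : ∃ z ∈ ω, 21 * (t : ℤ) ≤ 4 * (F0 z - F0 (ptz p)) ∧ 4 * (F0 z - F0 (ptz p)) ≤ 30 * t ∧ |z.2 - (ptz p).2| ≤ t
  · -- the path comes in front of the end of the prefix
    obtain ⟨z, hzω, h1, h2, h3⟩ := hz
    obtain ⟨sg, hsg, hG⟩ := stage_G' (W := 12 * (t : ℤ)) (T := 12 * (t : ℤ)) (a := F0 z - F0 (ptz p)) (b := F0 z - F0 (ptz p))
      (k := (t : ℤ)) (by omega) (by omega) (by omega) (by omega) hc hl hFp (by omega) hzω le_rfl le_rfl h3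
    obtain ⟨X, hX1, hX2, hX3⟩ := hP t (by omega) sg hsg
    refine (stage_compl hX1 (N := 48 * r) (fun l hl' => by have := (hX2 l hl').2.1; omega) (hd2.trans hX3) hdt _ ?_)
    rintro l hlX m ⟨hav, -⟩
    obtain ⟨q1, q2, q3⟩ := hX2 l hlX
    obtain ⟨w, hw, hwv⟩ := hG l (by omega) (fun v hv => (q3 v hv).1)
      (fun v hv h5 h6 => by have := (q3 v hv).2.1 (by omega) (by omega); omega)
      (fun v hv h5 => by have := (q3 v hv).2.2 (by omega); omega)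
    refine hav w hw ?_
    have := VL_mid (p := p) (m := m) hwv
    rwa [sub_add_cancel] at this
  · obtain ⟨X, hX1, hX2, hX3⟩ := hZ t (by omega)
    refine (stage_compl hX1 (N := 48 * r) (fun l hl' => by have := (hX2 l hl').2.1; omega) (hd1.trans hX3) hdt _ ?_)
    rintro l hlX m ⟨-, hug⟩
    obtain ⟨q1, q2, q3⟩ := hX2 l hlX
    have hl0 : l ≠ [] := by
      rintro rfl
      rw [hj_nil] at q1
      omega
    obtain ⟨z, hzω, hzB⟩ := hug l m rfl hl0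
    apply hz
    refine ⟨z, hzω, ?_⟩
    have h : ptz (p ++ l) = ptz p + ptz l := by
      unfold ptz
      rw [List.map_append, List.sum_append]
    have h4 : |F0 (z - ptz (p ++ l))| ≤ 3 * ((2 * r : ℕ) : ℤ) ∧ |(z - ptz (p ++ l)).2| ≤ 3 * ((2 * r : ℕ) : ℤ) := hzB
    rw [h, F0_sub', F0_add, F0_ptz l, Prod.snd_sub, Prod.snd_add, snd_ptz l] at h4
    obtain ⟨h4, h5⟩ := h4
    rw [abs_le] at h4 h5
    have q4 : |xj l| ≤ 2 * (r : ℤ) := by omega
    rw [abs_le] at q4 ⊢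
    push_cast at h4 h5
    refine ⟨?_, ?_, ?_, ?_⟩ <;> push_cast [ht] <;> omega

end Pool.Agent.EVN
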