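import Pool.Agent.EVN.K.StageT
import Pool.Agent.EVN.K.StageM

/-!
Project EVN, block K2: THE STAGE LEMMA.
-/

namespace Pool.Agent.EVN

open Pool.Agent.Hhelper14.SAW Pool.Agent.HHP Pool.Agent.HEP Pool.Agent.PLY.G
open scoped ENNReal

theorem kstage_of_quarter (hQ : hsI.Quarter) : KStage := by
  refine stage_of ?_ (zero_words hQ)
  obtain ⟨c, t0, hc, h⟩ := poly_words hQ
  refine ⟨c, t0, hc, fun t ht sg hsg => ?_⟩
  obtain ⟨X, h1, h2, h3⟩ := h t ht sg hsg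
  refine ⟨X, h1, fun l hl => ?_, h3⟩
  obtain ⟨a, b, d⟩ := h2 l hl
  refine ⟨a, b, fun z hz => ?_⟩
  obtain ⟨d1, d2, d3⟩ := d z hz
  refine ⟨?_, ?_, d3⟩
  · push_cast at d1
    linarith
  · intro e1 e2
    have := d2 e1 e2
    push_cast at this
    linarith

end Pool.Agent.EVN
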