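import Pool.Agent.EVN.Defs
import Pool.Agent.PLY.G.StZero
import Pool.Agent.PLY.G.StQ
import Pool.Agent.PLY.G.StWdb
import Pool.Agent.PLY.G.BCon
import Pool.Agent.BEX.Reg
import Pool.Agent.GAP.IAc

/-!
Project EVN (MP_8c6f77_pr, note 3192), block K3 (key lemma), concrete part: THE NARROW WORDS of height `≤ r` have mass of order `U r`.

PROOF. `wide_small` (PLY/G/StZero, with `tail : ∃ C, TailP wdb C` of PLY/G/BCon and `StReg` of `hsI`, see PLY/G/StAll): there is `D` such that the words of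
height `≤ M` and total width `> D M` have mass `≤ U M / 4`. For `r ≥ D` take `M = r / D`: the words `l` with `hj l ≤ M`, `sw wdb l ≤ D M ≤ r` have mass
`≥ (3/4) U M ≥ c U r` (`Quarter.U_ratio`, `BEX.hsI_quarter`, `GAP.IAc.hsI_anti`); for `r < D` the empty word is enough (`U r ≤ r + 1`). For such a word: every
vertex `z ∈ VL l` has `0 ≤ F0 z ≤ 3 r` and `|z.2| ≤ r` (`tub_of_sw`, `mem_jn`, `tube_V`; `z = ptz l1 + u`, `F0_ptz`, `snd_ptz`), `F0 (ptz l) = 3 hj l`,
`|(ptz l).2| = |xj l| ≤ r` (`tube_E`), and `ln l` = number of vertices (`∑ (length + 1)`, `V (jn l)` has no repetition) `≤ (6 r + 1) ^ 2 ≤ 49 r ^ 2`, because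
`z ↦ (F0 z, z.2)` is injective.
-/

namespace Pool.Agent.EVN

open Pool.Agent.Hhelper14.SAW Pool.Agent.HHP Pool.Agent.HEP Pool.Agent.PLY.G Pool.Agent.BEX.F
open scoped ENNReal

/-! ### vertices of a word -/

private lemma KN_ne {l : List Blk} {z : ℤ × ℤ} (h : z ∈ VL l) : l ≠ [] := by
  obtain ⟨l1, c, l2, u, e, -, -⟩ := h
  rw [e]
  simp

private lemma KN_F0 {l : List Blk} {z : ℤ × ℤ} (h : z ∈ VL l) : 0 ≤ F0 z ∧ F0 z + 2 ≤ 3 * hj l := by
  obtain ⟨l1, c, l2, u, e, hu, hz⟩ := h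
  have h1 := c.2.br.1.2 u hu
  have h2 := htw_pos c.1
  rw [hz, F0_add, F0_ptz, e, hj_append, hj_cons]
  push_cast
  omega

private lemma KN_ln {l : List Blk} (hl : l ≠ []) : (jn l).length + 1 = ln l := by
  induction l with
  | nil => exact absurd rfl hl
  | cons c l ih =>
    have e : ln (c :: l) = c.1.length + 1 + ln l := by
      unfold ln
      rw [List.map_cons, List.sum_cons]
    by_cases h : l = []
    · subst h
      rw [jn_single, e]
      rfl
    · rw [jn_cons h, e, ← ih h]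
      simp only [List.length_append, List.length_cons]
      omega

/-- A narrow word lies in the box and is short. -/
private lemma KN_word {l : List Blk} {r : ℕ} (hr : 1 ≤ r) (h1 : hj l ≤ r) (h2 : Alph.sw (A := hsI.toAlph) wdb l ≤ r) :
    VL l ⊆ Bx r ∧ ptz l ∈ Bx r ∧ ln l ≤ 49 * r ^ 2 := by
  have hE : (0 : ℝ) ≤ ((r : ℕ) : ℝ) := Nat.cast_nonneg _
  have ht : hsI.toAlph.tub wdb 0 (r : ℕ) l := Alph.tub_of_sw wdb_dx h2
  have hv : ∀ z ∈ VL l, |F0 z| ≤ 3 * r ∧ |z.2| ≤ r := by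
    intro z hz
    have a1 := KN_F0 hz
    have a2 := tube_V (KN_ne hz) ht ((mem_jn (KN_ne hz) z).2 hz)
    rw [zero_mul, sub_zero] at a2
    refine ⟨?_, by exact_mod_cast a2⟩
    rw [abs_le]
    constructor <;> omega
  refine ⟨fun z hz => ?_, ?_, ?_⟩
  · have a := hv z hz
    refine ⟨a.1, ?_⟩
    have : (0 : ℤ) ≤ r := Nat.cast_nonneg _
    linarith [a.2]
  · have a := tube_E hE ht
    rw [zero_mul, sub_zero] at a
    have a' : |xj l| ≤ (r : ℤ) := by exact_mod_cast a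
    refine ⟨?_, ?_⟩
    · rw [F0_ptz, abs_of_nonneg (by positivity)]
      omega
    · rw [snd_ptz]
      have : (0 : ℤ) ≤ r := Nat.cast_nonneg _
      linarith
  · by_cases hl : l = []
    · subst hl
      exact Nat.zero_le _
    · have e1 : (V (jn l)).length = ln l := by
        unfold V
        rw [vs_length, KN_ln hl]
      have e2 : (V (jn l)).Nodup := (jn_Br hl).1.1
      rw [← e1, ← List.toFinset_card_of_nodup e2]
      have hinj : Function.Injective (fun z : ℤ × ℤ => (F0 z, z.2)) := by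
        intro z w h
        rw [Prod.mk.injEq] at h
        obtain ⟨g1, g2⟩ := h
        have : z.1 = w.1 := by
          simp only [F0] at g1
          omega
        exact Prod.ext this g2
      have hsub : ((V (jn l)).toFinset.image fun z : ℤ × ℤ => (F0 z, z.2)) ⊆
          Finset.Icc (-(3 * r : ℤ)) (3 * r) ×ˢ Finset.Icc (-(3 * r : ℤ)) (3 * r) := by
        intro p hp
        rw [Finset.mem_image] at hp
        obtain ⟨z, hz, rfl⟩ := hp
        rw [List.mem_toFinset] at hz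
        have a := hv z ((mem_jn hl z).1 hz)
        rw [abs_le, abs_le] at a
        rw [Finset.mem_product, Finset.mem_Icc, Finset.mem_Icc]
        refine ⟨⟨a.1.1, a.1.2⟩, ?_, ?_⟩
        · simp only
          omega
        · simp only
          omega
      calc (V (jn l)).toFinset.card = ((V (jn l)).toFinset.image fun z : ℤ × ℤ => (F0 z, z.2)).card :=
            (Finset.card_image_of_injective _ hinj).symm
        _ ≤ (Finset.Icc (-(3 * r : ℤ)) (3 * r) ×ˢ Finset.Icc (-(3 * r : ℤ)) (3 * r)).card := Finset.card_le_card hsub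
        _ = (6 * r + 1) ^ 2 := by
            rw [Finset.card_product, Int.card_Icc, sq]
            have e : (3 * (r : ℤ) + 1 - -(3 * r : ℤ)).toNat = 6 * r + 1 := by omega
            rw [e]
        _ ≤ (7 * r) ^ 2 := Nat.pow_le_pow_left (by omega) 2
        _ = 49 * r ^ 2 := by ring

/-! ### the mass -/

private theorem KN_narrow (hQ : hsI.toAlph.Quarter) : ∃ C : ℕ, 1 ≤ C ∧ ∀ r : ℕ, 1 ≤ r → hsI.U r ≤ C * ∑' l : List Blk,
    ind (hj l ≤ r ∧ VL l ⊆ Bx r ∧ ptz l ∈ Bx r ∧ ln l ≤ C * r ^ 2) * wj l := by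
  obtain ⟨D, hD1, hD⟩ := Alph.wide_small (A := hsI.toAlph) (wd := wdb) Pool.Agent.PLY.G.tailP (hQ.stReg hsI_anti)
  obtain ⟨C1, hC1, hU⟩ := hQ.U_ratio hsI_anti
  obtain ⟨K1, hK1⟩ := ENNReal.exists_nat_gt (hsI.U_ne_top D)
  obtain ⟨K2, hK2⟩ := exists_nat_ge (C1 * D)
  refine ⟨49 + K1 + 2 * K2, by omega, fun r hr => ?_⟩
  obtain ⟨C, hC⟩ : ∃ C, C = 49 + K1 + 2 * K2 := ⟨_, rfl⟩
  rw [← hC]
  have hln : 49 * r ^ 2 ≤ C * r ^ 2 := Nat.mul_le_mul_right _ (by omega)
  rcases lt_or_ge r D with h | h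
  · -- small heights: the empty word
    have e0 : (1 : ℝ≥0∞) ≤ ∑' l : List Blk, ind (hj l ≤ r ∧ VL l ⊆ Bx r ∧ ptz l ∈ Bx r ∧ ln l ≤ C * r ^ 2) * wj l := by
      refine le_trans (le_of_eq ?_) (ENNReal.le_tsum ([] : List Blk))
      have hp : hj ([] : List Blk) ≤ r ∧ VL [] ⊆ Bx r ∧ ptz [] ∈ Bx r ∧ ln [] ≤ C * r ^ 2 := by
        refine ⟨by rw [hj_nil]; exact Nat.zero_le _, fun z hz => absurd rfl (KN_ne hz), ?_, Nat.zero_le _⟩
        rw [ptz_nil]
        refine ⟨?_, ?_⟩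
        · simp [F0]
        · simp
      rw [ind_true hp, wj_nil, one_mul]
    calc hsI.U r ≤ hsI.U D := hsI.toAlph.U_mono h.le
      _ ≤ (K1 : ℝ≥0∞) := hK1.le
      _ ≤ (C : ℝ≥0∞) := by
          have : K1 ≤ C := by omega
          exact_mod_cast this
      _ = C * 1 := (mul_one _).symm
      _ ≤ _ := mul_le_mul' le_rfl e0
  · obtain ⟨M, hM⟩ : ∃ M, M = r / D := ⟨_, rfl⟩
    have hM1 : 1 ≤ M := by
      rw [hM]
      exact Nat.div_pos h (by omega)
    have hM2 : D * M ≤ r := by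
      rw [hM]
      exact Nat.mul_div_le r D
    have hM3 : r < D * (M + 1) := by
      rw [hM]
      exact Nat.lt_mul_div_succ r (by omega)
    have hMr : M ≤ r := le_trans (Nat.le_mul_of_pos_left M (by omega)) hM2
    have hDM := hD M hM1
    obtain ⟨S, hS⟩ : ∃ S, S = ∑' l : List Blk, ind (hj l ≤ r ∧ VL l ⊆ Bx r ∧ ptz l ∈ Bx r ∧ ln l ≤ C * r ^ 2) * wj l :=
      ⟨_, rfl⟩
    rw [← hS]
    have h1 : hsI.U M ≤ S + hsI.U M / 4 := by
      calc hsI.U M = ∑' l : List Blk, ind (hj l ≤ M) * wj l := (hsI.toAlph.tsum_le M).symm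
        _ ≤ ∑' l : List Blk, (ind (hj l ≤ r ∧ VL l ⊆ Bx r ∧ ptz l ∈ Bx r ∧ ln l ≤ C * r ^ 2) * wj l +
              ind (hj l ≤ M ∧ D * M < Alph.sw (A := hsI.toAlph) wdb l) * wj l) := by
            refine ENNReal.tsum_le_tsum fun l => ?_
            rw [← add_mul]
            refine mul_le_mul' ?_ le_rfl
            by_cases g1 : hj l ≤ M
            · by_cases g2 : D * M < Alph.sw (A := hsI.toAlph) wdb l
              · rw [ind_true (p := hj l ≤ M ∧ D * M < Alph.sw (A := hsI.toAlph) wdb l) ⟨g1, g2⟩]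
                exact (ind_le_one _).trans le_add_self
              · have g3 := KN_word hr (g1.trans hMr) ((not_lt.1 g2).trans hM2)
                rw [ind_true (p := hj l ≤ r ∧ VL l ⊆ Bx r ∧ ptz l ∈ Bx r ∧ ln l ≤ C * r ^ 2)
                  ⟨g1.trans hMr, g3.1, g3.2.1, g3.2.2.trans hln⟩]
                exact (ind_le_one _).trans le_self_add
            · rw [ind_false g1]
              exact zero_le
        _ ≤ _ := by
            rw [ENNReal.tsum_add, ← hS]
            exact add_le_add le_rfl hDM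
    have h2 : hsI.U M ≤ 2 * S := by
      have hne : hsI.U M ≠ ⊤ := hsI.toAlph.U_ne_top M
      have h3 : hsI.U M / 2 ≠ ⊤ := (ENNReal.div_lt_top hne (by norm_num)).ne
      have h4 : hsI.U M / 4 ≤ hsI.U M / 2 := ENNReal.div_le_div le_rfl (by norm_num)
      have h5 : hsI.U M / 2 + hsI.U M / 2 ≤ S + hsI.U M / 2 := by
        rw [ENNReal.add_halves]
        exact h1.trans (add_le_add le_rfl h4)
      have h6 : hsI.U M / 2 ≤ S := (ENNReal.add_le_add_iff_right h3).1 h5
      calc hsI.U M = hsI.U M / 2 + hsI.U M / 2 := (ENNReal.add_halves _).symm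
        _ ≤ S + S := add_le_add h6 h6
        _ = 2 * S := (two_mul S).symm
    have h3 : hsI.U r ≤ (K2 : ℝ≥0∞) * hsI.U M := by
      refine (hU r M).trans (mul_le_mul' ?_ le_rfl)
      rw [← ENNReal.ofReal_natCast K2]
      refine ENNReal.ofReal_le_ofReal (le_trans ?_ hK2)
      refine mul_le_mul_of_nonneg_left ?_ hC1.le
      have hDR : (1 : ℝ) ≤ D := by exact_mod_cast hD1
      have hle : ((r : ℝ) + 1) / ((M : ℝ) + 1) ≤ D := by
        rw [div_le_iff₀ (by positivity)]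
        have : r + 1 ≤ D * (M + 1) := hM3
        exact_mod_cast this
      calc (((r : ℝ) + 1) / ((M : ℝ) + 1)) ^ (3 / 4 : ℝ) ≤ (D : ℝ) ^ (3 / 4 : ℝ) :=
            Real.rpow_le_rpow (by positivity) hle (by norm_num)
        _ ≤ (D : ℝ) ^ (1 : ℝ) := Real.rpow_le_rpow_of_exponent_le hDR (by norm_num)
        _ = D := Real.rpow_one _
    calc hsI.U r ≤ (K2 : ℝ≥0∞) * hsI.U M := h3
      _ ≤ (K2 : ℝ≥0∞) * (2 * S) := mul_le_mul' le_rfl h2
      _ = ((2 * K2 : ℕ) : ℝ≥0∞) * S := by push_cast; ring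
      _ ≤ (C : ℝ≥0∞) * S := by
          refine mul_le_mul' ?_ le_rfl
          have : 2 * K2 ≤ C := by omega
          exact_mod_cast this

theorem narrow : ∃ C : ℕ, 1 ≤ C ∧ ∀ r : ℕ, 1 ≤ r → hsI.U r ≤ C * ∑' l : List Blk,
    ind (hj l ≤ r ∧ VL l ⊆ Bx r ∧ ptz l ∈ Bx r ∧ ln l ≤ C * r ^ 2) * wj l :=
  KN_narrow hsI_quarter

end Pool.Agent.EVN
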