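import Pool.Agent.PLY.G.RunA

/-!
Project EVN (MP_8c6f77_pr, note 3192), block K3: stages of first passages (abstract, for an alphabet `A`).

* `KJ_append`: `∑ ind (∃ s t', t = s ++ t' ∧ P s t') F t ≤ ∑ ∑ ind (P s t') F (s ++ t')`.
* `Jst T k M t`: `t` begins with `k` stages (first passages over `T`) of total height at most `M`.
* `KJ_compl`: the first passage words over `M` without `k` stages have mass at most `k δ`.
* `KJ_chain`: `k` stages which survive have mass at most `c ^ k`.
* `KJ_len`: truncated first passage words.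
-/

namespace Pool.Agent.HEP

open scoped ENNReal

/-- union bound over decompositions -/
lemma KJ_append {α : Type*} (P : List α → List α → Prop) (F : List α → ℝ≥0∞) :
    ∑' t, ind (∃ s t', t = s ++ t' ∧ P s t') * F t ≤ ∑' s, ∑' t', ind (P s t') * F (s ++ t') := by
  calc ∑' t, ind (∃ s t', t = s ++ t' ∧ P s t') * F t
      ≤ ∑' t, ∑' s, ∑' t', ind (t = s ++ t' ∧ P s t') * F t := by
        refine ENNReal.tsum_le_tsum fun t => ?_
        by_cases h : ∃ s t', t = s ++ t' ∧ P s t'
        · obtain ⟨s, t', h1⟩ := h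
          rw [ind_true ⟨s, t', h1⟩]
          calc 1 * F t = ind (t = s ++ t' ∧ P s t') * F t := by rw [ind_true h1]
            _ ≤ ∑' t', ind (t = s ++ t' ∧ P s t') * F t :=
              ENNReal.le_tsum (f := fun t' => ind (t = s ++ t' ∧ P s t') * F t) t'
            _ ≤ _ := ENNReal.le_tsum (f := fun s => ∑' t', ind (t = s ++ t' ∧ P s t') * F t) s
        · rw [ind_false h, zero_mul]
          exact bot_le
    _ = ∑' s, ∑' t', ∑' t, ind (t = s ++ t' ∧ P s t') * F t := by
        rw [ENNReal.tsum_comm]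
        exact tsum_congr fun s => ENNReal.tsum_comm
    _ = ∑' s, ∑' t', ind (P s t') * F (s ++ t') := by
        refine tsum_congr fun s => tsum_congr fun t' => ?_
        rw [tsum_eq_single (s ++ t') (fun t ht => by rw [ind_false (fun h => ht h.1), zero_mul]),
          ind_congr (show (s ++ t' = s ++ t' ∧ P s t') ↔ P s t' from ⟨fun h => h.2, fun h => ⟨rfl, h⟩⟩)]

namespace Alph

variable {A : Alph}

/-- `t` begins with `k` stages (first passages over `T`) of total height at most `M`. -/
def Jst (A : Alph) (T : ℕ) : ℕ → ℕ → List A.B → Prop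
  | 0, _, _ => True
  | k + 1, M, t => ∃ s t', t = s ++ t' ∧ A.fpw T s ∧ A.h s ≤ M ∧ Jst A T k (M - A.h s) t'

lemma Jst_zero (T M : ℕ) (t : List A.B) : A.Jst T 0 M t := trivial

lemma Jst_succ {T k M : ℕ} {t : List A.B} : A.Jst T (k + 1) M t ↔
    ∃ s t', t = s ++ t' ∧ A.fpw T s ∧ A.h s ≤ M ∧ A.Jst T k (M - A.h s) t' := Iff.rfl

/-- the words without `k` stages of total height at most `M` -/
lemma KJ_compl {T M0 : ℕ} (hT : T ≤ M0) {δ : ℝ≥0∞}
    (hδ : ∑' s, ind (A.fpw T s ∧ M0 < A.h s) * A.w s ≤ δ) (k M : ℕ) (hM : k * M0 ≤ M) :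
    ∑' t, ind (A.fpw M t ∧ ¬ A.Jst T k M t) * A.w t ≤ k * δ := by
  induction k generalizing M with
  | zero =>
    rw [ENNReal.tsum_eq_zero.2 fun t => by rw [ind_false (fun h => h.2 trivial), zero_mul]]
    exact bot_le
  | succ k ih =>
    have hM' : k * M0 + M0 ≤ M := by rw [← Nat.succ_mul]; exact hM
    have hTM : T ≤ M := by omega
    have h1 : ∀ t, ind (A.fpw M t ∧ ¬ A.Jst T (k + 1) M t) * A.w t =
        ind (A.fpw M t) * (ind (¬ A.Jst T (k + 1) M t) * A.w t) := by
      intro t
      rw [ind_and, mul_assoc]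
    calc ∑' t, ind (A.fpw M t ∧ ¬ A.Jst T (k + 1) M t) * A.w t
        = ∑' t, ind (A.fpw M t) * (ind (¬ A.Jst T (k + 1) M t) * A.w t) := tsum_congr h1
      _ = ∑' s, ind (A.fpw T s) * ∑' t', ind (A.fpw (M - A.h s) t') *
            (ind (¬ A.Jst T (k + 1) M (s ++ t')) * A.w (s ++ t')) :=
          RunA_split hTM (fun t => ind (¬ A.Jst T (k + 1) M t) * A.w t)
      _ ≤ ∑' s, (ind (A.fpw T s ∧ M0 < A.h s) * A.w s + ind (A.fpw T s) * A.w s * (k * δ)) := by
          refine ENNReal.tsum_le_tsum fun s => ?_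
          by_cases hs : A.fpw T s
          · rw [ind_true hs, one_mul, one_mul]
            by_cases hs0 : M0 < A.h s
            · rw [ind_true ⟨hs, hs0⟩, one_mul]
              refine le_trans ?_ le_self_add
              calc ∑' t', ind (A.fpw (M - A.h s) t') * (ind (¬ A.Jst T (k + 1) M (s ++ t')) * A.w (s ++ t'))
                  ≤ ∑' t', A.w s * (ind (A.fpw (M - A.h s) t') * A.w t') := by
                    refine ENNReal.tsum_le_tsum fun t' => ?_
                    rw [A.w_append]
                    calc ind (A.fpw (M - A.h s) t') * (ind (¬ A.Jst T (k + 1) M (s ++ t')) * (A.w s * A.w t'))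
                        ≤ ind (A.fpw (M - A.h s) t') * (1 * (A.w s * A.w t')) := by
                          gcongr
                          exact ind_le_one _
                      _ = A.w s * (ind (A.fpw (M - A.h s) t') * A.w t') := by ring
                _ = A.w s := by rw [ENNReal.tsum_mul_left, tsum_fpw, mul_one]
            · rw [ind_false (fun h => hs0 h.2), zero_mul, zero_add]
              push Not at hs0
              have hMs : k * M0 ≤ M - A.h s := by omega
              calc ∑' t', ind (A.fpw (M - A.h s) t') * (ind (¬ A.Jst T (k + 1) M (s ++ t')) * A.w (s ++ t'))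
                  ≤ ∑' t', A.w s * (ind (A.fpw (M - A.h s) t' ∧ ¬ A.Jst T k (M - A.h s) t') * A.w t') := by
                    refine ENNReal.tsum_le_tsum fun t' => ?_
                    rw [A.w_append, ind_and]
                    have h2 : ind (¬ A.Jst T (k + 1) M (s ++ t')) ≤ ind (¬ A.Jst T k (M - A.h s) t') :=
                      ind_mono fun h h' => h ⟨s, t', rfl, hs, by omega, h'⟩
                    calc ind (A.fpw (M - A.h s) t') * (ind (¬ A.Jst T (k + 1) M (s ++ t')) * (A.w s * A.w t'))
                        ≤ ind (A.fpw (M - A.h s) t') * (ind (¬ A.Jst T k (M - A.h s) t') * (A.w s * A.w t')) := by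
                          gcongr
                      _ = _ := by ring
                _ = A.w s * ∑' t', ind (A.fpw (M - A.h s) t' ∧ ¬ A.Jst T k (M - A.h s) t') * A.w t' :=
                    ENNReal.tsum_mul_left
                _ ≤ A.w s * (k * δ) := by
                    gcongr
                    exact ih _ hMs
          · rw [ind_false hs, zero_mul]
            exact bot_le
      _ = ∑' s, ind (A.fpw T s ∧ M0 < A.h s) * A.w s + (∑' s, ind (A.fpw T s) * A.w s) * (k * δ) := by
          rw [ENNReal.tsum_add, ENNReal.tsum_mul_right]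
      _ ≤ δ + 1 * (k * δ) := by
          rw [tsum_fpw]
          gcongr
      _ = ((k + 1 : ℕ) : ℝ≥0∞) * δ := by
          push_cast
          ring

/-- `k` stages which survive -/
lemma KJ_chain {T : ℕ} {c : ℝ≥0∞} (Q : List A.B → List A.B → Prop)
    (Sv : ℕ → List A.B → List A.B → Prop)
    (hS : ∀ M p s t', A.fpw T s → A.h s ≤ M → Sv M p (s ++ t') → Q p s ∧ Sv (M - A.h s) (p ++ s) t')
    (hc : ∀ p, ∑' s, ind (A.fpw T s ∧ Q p s) * A.w s ≤ c) (k M : ℕ) (p : List A.B) :
    ∑' t, ind (A.fpw M t ∧ A.Jst T k M t ∧ Sv M p t) * A.w t ≤ c ^ k := by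
  induction k generalizing M p with
  | zero =>
    rw [pow_zero, ← A.tsum_fpw M]
    exact ENNReal.tsum_le_tsum fun t => mul_le_mul' (ind_mono fun h => h.1) le_rfl
  | succ k ih =>
    calc ∑' t, ind (A.fpw M t ∧ A.Jst T (k + 1) M t ∧ Sv M p t) * A.w t
        ≤ ∑' t, ind (∃ s t', t = s ++ t' ∧ (A.fpw T s ∧ Q p s) ∧ A.fpw (M - A.h s) t' ∧
            A.Jst T k (M - A.h s) t' ∧ Sv (M - A.h s) (p ++ s) t') * A.w t := by
          refine ENNReal.tsum_le_tsum fun t => mul_le_mul' (ind_mono ?_) le_rfl
          rintro ⟨h1, ⟨s, t', rfl, h2, h3, h4⟩, h5⟩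
          obtain ⟨h6, h7⟩ := hS M p s t' h2 h3 h5
          exact ⟨s, t', rfl, ⟨h2, h6⟩, (fpw_append h3).1 h1, h4, h7⟩
      _ ≤ ∑' s, ∑' t', ind ((A.fpw T s ∧ Q p s) ∧ A.fpw (M - A.h s) t' ∧
            A.Jst T k (M - A.h s) t' ∧ Sv (M - A.h s) (p ++ s) t') * A.w (s ++ t') := KJ_append _ _
      _ = ∑' s, ind (A.fpw T s ∧ Q p s) * A.w s * ∑' t', ind (A.fpw (M - A.h s) t' ∧
            A.Jst T k (M - A.h s) t' ∧ Sv (M - A.h s) (p ++ s) t') * A.w t' := by
          refine tsum_congr fun s => ?_
          rw [← ENNReal.tsum_mul_left]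
          refine tsum_congr fun t' => ?_
          rw [ind_and, A.w_append]
          ring
      _ ≤ ∑' s, ind (A.fpw T s ∧ Q p s) * A.w s * c ^ k := by
          refine ENNReal.tsum_le_tsum fun s => ?_
          gcongr
          exact ih _ _
      _ = (∑' s, ind (A.fpw T s ∧ Q p s) * A.w s) * c ^ k := ENNReal.tsum_mul_right
      _ ≤ c * c ^ k := by
          gcongr
          exact hc p
      _ = c ^ (k + 1) := by rw [pow_succ, mul_comm]

end Alph

end Pool.Agent.HEP
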