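import Pool.Agent.EVN.K.KeyPre
import Pool.Agent.EVN.K.KeyJ

/-!
Project EVN (MP_8c6f77_pr, note 3192), block K3 (key lemma), abstract part 3: THE STAGES FOR A FIXED EXTENSION. `Sv l` (the extension avoids `l`, and
`l` is short; closed under prefixes), `Hg l` (the end of `l` is hugged).

STATEMENT. Let `x ≤ N1`, `N1 + k M ≤ X`, `T ≤ M`, and suppose that for every `p` the words `s` of one stage (first passage over `T`) with `Sv (p ++ s)`
all of whose non empty prefixes are hugged have mass at most `c`. Then the mass of the first passage words over `X` with `Sv` is at most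

  mass {fpw x, Sv, height > N1} + k * mass {fpw x, Sv} * mass {fpw T, height > M} + mass {NH} + c ^ k,

`NH` = the first renewals `≥ x` which are not hugged (height `≤ X`, `Sv`).

PROOF. `KP_dom` (with `Φ = 1`) and a union bound over the following classes; every `l` with `fpw X l`, `Sv l` has a prefix in one of them.
Let `P 0 q := fpw x q ∧ Sv q`, `P (j+1) q := ∃ p s, q = p ++ s ∧ P j p ∧ fpw T s`; `∑ ind (P (j+1) q) w q ≤ ∑ ind (P j q) w q` (union bound over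
`(p, s)`, `tsum_fpw`). `J j q := ∃ p s, q = p ++ s ∧ P j p ∧ fpw T s ∧ M < h s`: mass at most `mass (P 0) * mass {fpw T, > M}`.
`G 0 q := fpw x q ∧ Sv q`, `G (j+1) q := ∃ p s, q = p ++ s ∧ G j p ∧ fpw T s ∧ Sv (p ++ s) ∧ (∀ s1 s2, s = s1 ++ s2 → s1 ≠ [] → Hg (p ++ s1))`: mass
`≤ c ^ j` (mass of `G 0` is `≤ 1`).
Claim by induction on `j ≤ k`: `l` has a prefix in {fpw x, Sv, `N1 < h`}, or in `J i` for some `i < j`, or in `NH`, or a prefix `q` with `G j q`,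
`P j q`, `h q ≤ N1 + j M`. Step: `l = q ++ rest`, `h l ≥ X ≥ N1 + (j+1) M`, so `h rest ≥ M ≥ T`, `rest = s ++ rest'` with `fpw T s` (`KP_fpw_pre`). If
`M < h s`: `J j`. Otherwise `h (q ++ s) ≤ N1 + (j+1) M ≤ X`; if some prefix of `q ++ s` of height `≥ x` is not hugged take the shortest one: `NH`;
otherwise `G (j+1) (q ++ s)` (`h (q ++ s1) ≥ h q ≥ x`).
-/

namespace Pool.Agent.HEP.Alph

open scoped ENNReal

variable {A : Alph}

/-- The first renewal `≥ x` which is not hugged, of height `≤ X`. -/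
def NH (A : Alph) (Sv Hg : List A.B → Prop) (x X : ℕ) (q : List A.B) : Prop :=
  x ≤ A.h q ∧ A.h q ≤ X ∧ Sv q ∧ ¬ Hg q ∧ ∀ q1 q2, q = q1 ++ q2 → q2 ≠ [] → x ≤ A.h q1 → Hg q1

/-- after `j` stages (every stage free) -/
def KCP (A : Alph) (Sv : List A.B → Prop) (x T : ℕ) : ℕ → List A.B → Prop
  | 0, q => A.fpw x q ∧ Sv q
  | j + 1, q => ∃ p s, q = p ++ s ∧ KCP A Sv x T j p ∧ A.fpw T s

/-- after `j` stages which survive and are hugged -/
def KCG (A : Alph) (Sv Hg : List A.B → Prop) (x T : ℕ) : ℕ → List A.B → Prop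
  | 0, q => A.fpw x q ∧ Sv q
  | j + 1, q => ∃ p s, q = p ++ s ∧ KCG A Sv Hg x T j p ∧
      (A.fpw T s ∧ Sv (p ++ s) ∧ ∀ s1 s2, s = s1 ++ s2 → s1 ≠ [] → Hg (p ++ s1))

lemma KCG_KCP {Sv Hg : List A.B → Prop} {x T : ℕ} (j : ℕ) (q : List A.B) (h : A.KCG Sv Hg x T j q) :
    A.KCP Sv x T j q := by
  induction j generalizing q with
  | zero => exact h
  | succ j ih =>
    obtain ⟨p, s, e, h1, h2⟩ := h
    exact ⟨p, s, e, ih p h1, h2.1⟩

lemma KCP_mass {Sv : List A.B → Prop} {x T : ℕ} (j : ℕ) :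
    ∑' q, ind (A.KCP Sv x T j q) * A.w q ≤ ∑' q, ind (A.fpw x q ∧ Sv q) * A.w q := by
  induction j with
  | zero => exact le_rfl
  | succ j ih =>
    refine le_trans ?_ ih
    calc ∑' q, ind (A.KCP Sv x T (j + 1) q) * A.w q
        ≤ ∑' p, ∑' s, ind (A.KCP Sv x T j p ∧ A.fpw T s) * A.w (p ++ s) :=
          KJ_append (fun p s => A.KCP Sv x T j p ∧ A.fpw T s) A.w
      _ = ∑' p, ind (A.KCP Sv x T j p) * A.w p * ∑' s, ind (A.fpw T s) * A.w s := by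
          refine tsum_congr fun p => ?_
          rw [← ENNReal.tsum_mul_left]
          refine tsum_congr fun s => ?_
          rw [ind_and, A.w_append]
          ring
      _ = ∑' q, ind (A.KCP Sv x T j q) * A.w q := by
          refine tsum_congr fun p => ?_
          rw [tsum_fpw, mul_one]

lemma KCJ_mass {Sv : List A.B → Prop} {x T M : ℕ} (j : ℕ) :
    ∑' q, ind (∃ p s, q = p ++ s ∧ (A.KCP Sv x T j p ∧ A.fpw T s ∧ M < A.h s)) * A.w q ≤
      (∑' q, ind (A.fpw x q ∧ Sv q) * A.w q) * ∑' s, ind (A.fpw T s ∧ M < A.h s) * A.w s := by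
  calc ∑' q, ind (∃ p s, q = p ++ s ∧ (A.KCP Sv x T j p ∧ A.fpw T s ∧ M < A.h s)) * A.w q
      ≤ ∑' p, ∑' s, ind (A.KCP Sv x T j p ∧ A.fpw T s ∧ M < A.h s) * A.w (p ++ s) :=
        KJ_append (fun p s => A.KCP Sv x T j p ∧ A.fpw T s ∧ M < A.h s) A.w
    _ = ∑' p, ind (A.KCP Sv x T j p) * A.w p * ∑' s, ind (A.fpw T s ∧ M < A.h s) * A.w s := by
        refine tsum_congr fun p => ?_
        rw [← ENNReal.tsum_mul_left]
        refine tsum_congr fun s => ?_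
        rw [ind_and, A.w_append]
        ring
    _ = (∑' q, ind (A.KCP Sv x T j q) * A.w q) * ∑' s, ind (A.fpw T s ∧ M < A.h s) * A.w s :=
        ENNReal.tsum_mul_right
    _ ≤ _ := mul_le_mul' (KCP_mass j) le_rfl

lemma KCG_mass {Sv Hg : List A.B → Prop} {x T : ℕ} {c : ℝ≥0∞}
    (hst : ∀ p, ∑' s, ind (A.fpw T s ∧ Sv (p ++ s) ∧ ∀ s1 s2, s = s1 ++ s2 → s1 ≠ [] → Hg (p ++ s1)) * A.w s ≤ c)
    (j : ℕ) : ∑' q, ind (A.KCG Sv Hg x T j q) * A.w q ≤ c ^ j := by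
  induction j with
  | zero =>
    rw [pow_zero, ← A.tsum_fpw x]
    exact ENNReal.tsum_le_tsum fun t => mul_le_mul' (ind_mono fun h => h.1) le_rfl
  | succ j ih =>
    calc ∑' q, ind (A.KCG Sv Hg x T (j + 1) q) * A.w q
        ≤ ∑' p, ∑' s, ind (A.KCG Sv Hg x T j p ∧
            (A.fpw T s ∧ Sv (p ++ s) ∧ ∀ s1 s2, s = s1 ++ s2 → s1 ≠ [] → Hg (p ++ s1))) * A.w (p ++ s) :=
          KJ_append (fun p s => A.KCG Sv Hg x T j p ∧
            (A.fpw T s ∧ Sv (p ++ s) ∧ ∀ s1 s2, s = s1 ++ s2 → s1 ≠ [] → Hg (p ++ s1))) A.w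
      _ = ∑' p, ind (A.KCG Sv Hg x T j p) * A.w p *
            ∑' s, ind (A.fpw T s ∧ Sv (p ++ s) ∧ ∀ s1 s2, s = s1 ++ s2 → s1 ≠ [] → Hg (p ++ s1)) * A.w s := by
          refine tsum_congr fun p => ?_
          rw [← ENNReal.tsum_mul_left]
          refine tsum_congr fun s => ?_
          rw [ind_and, A.w_append]
          ring
      _ ≤ ∑' p, ind (A.KCG Sv Hg x T j p) * A.w p * c :=
          ENNReal.tsum_le_tsum fun p => mul_le_mul' le_rfl (hst p)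
      _ = (∑' q, ind (A.KCG Sv Hg x T j q) * A.w q) * c := ENNReal.tsum_mul_right
      _ ≤ c ^ j * c := mul_le_mul' ih le_rfl
      _ = c ^ (j + 1) := (pow_succ c j).symm

/-- the shortest prefix of height `≥ x` which is not hugged -/
lemma exists_NH {Sv Hg : List A.B → Prop} {x X : ℕ} (hSv : ∀ l m, Sv (l ++ m) → Sv l) {q : List A.B}
    (hq : Sv q) (hX : A.h q ≤ X) (h : ∃ q1 q2, q = q1 ++ q2 ∧ x ≤ A.h q1 ∧ ¬ Hg q1) :
    ∃ q1 q2, q = q1 ++ q2 ∧ A.NH Sv Hg x X q1 := by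
  classical
  have hex : ∃ n, ∃ q1 q2, q = q1 ++ q2 ∧ q1.length = n ∧ x ≤ A.h q1 ∧ ¬ Hg q1 := by
    obtain ⟨q1, q2, h1, h2, h3⟩ := h
    exact ⟨_, q1, q2, h1, rfl, h2, h3⟩
  obtain ⟨q1, q2, h1, h2, h3, h4⟩ := Nat.find_spec hex
  refine ⟨q1, q2, h1, h3, ?_, hSv q1 q2 (h1 ▸ hq), h4, ?_⟩
  · rw [h1, A.h_append] at hX
    omega
  · intro r1 r2 h5 h6 h7
    by_contra h8
    have h9 : r1.length < Nat.find hex := by
      rw [← h2, h5, List.length_append]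
      have : 0 < r2.length := List.length_pos_iff.2 h6
      omega
    exact Nat.find_min hex h9 ⟨r1, r2 ++ q2, by rw [h1, h5, List.append_assoc], rfl, h7, h8⟩

/-- the classes cover -/
lemma cover {Sv Hg : List A.B → Prop} {x T M X N1 : ℕ} (hSv : ∀ l m, Sv (l ++ m) → Sv l) (hT : T ≤ M)
    (hx : x ≤ N1) {l : List A.B} (hl : A.fpw X l) (hs : Sv l) (j : ℕ) (hX : N1 + j * M ≤ X) :
    (∃ q m, l = q ++ m ∧ ((A.fpw x q ∧ N1 < A.h q) ∧ Sv q)) ∨
    (∃ i < j, ∃ q m, l = q ++ m ∧ ∃ p s, q = p ++ s ∧ (A.KCP Sv x T i p ∧ A.fpw T s ∧ M < A.h s)) ∨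
    (∃ q m, l = q ++ m ∧ A.NH Sv Hg x X q) ∨
    (∃ q m, l = q ++ m ∧ A.KCG Sv Hg x T j q ∧ x ≤ A.h q ∧ A.h q ≤ N1 + j * M) := by
  induction j with
  | zero =>
    rw [Nat.zero_mul, Nat.add_zero] at hX
    obtain ⟨q, m, h1, h2⟩ := KP_fpw_pre (A := A) (N := x) (l := l) (by have := hl.1; omega)
    have h3 : Sv q := hSv q m (h1 ▸ hs)
    by_cases h4 : N1 < A.h q
    · exact Or.inl ⟨q, m, h1, ⟨h2, h4⟩, h3⟩
    · exact Or.inr (Or.inr (Or.inr ⟨q, m, h1, ⟨h2, h3⟩, h2.1, by omega⟩))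
  | succ j ih =>
    have hj : (j + 1) * M = j * M + M := Nat.succ_mul j M
    rcases ih (by omega) with h | ⟨i, hi, h⟩ | h | ⟨q, m, h1, h2, h3, h4⟩
    · exact Or.inl h
    · exact Or.inr (Or.inl ⟨i, by omega, h⟩)
    · exact Or.inr (Or.inr (Or.inl h))
    · have h5 : T ≤ A.h m := by
        have := hl.1
        rw [h1, A.h_append] at this
        omega
      obtain ⟨s, m', h6, h7⟩ := KP_fpw_pre (A := A) (N := T) (l := m) h5
      have h8 : l = (q ++ s) ++ m' := by rw [h1, h6, List.append_assoc]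
      by_cases h9 : M < A.h s
      · exact Or.inr (Or.inl ⟨j, by omega, q ++ s, m', h8, q, s, rfl, KCG_KCP j q h2, h7, h9⟩)
      · have h10 : A.h (q ++ s) ≤ N1 + (j + 1) * M := by
          rw [A.h_append]
          omega
        have h11 : Sv (q ++ s) := hSv _ m' (h8 ▸ hs)
        by_cases h12 : ∃ q1 q2, q ++ s = q1 ++ q2 ∧ x ≤ A.h q1 ∧ ¬ Hg q1
        · obtain ⟨q1, q2, h13, h14⟩ := exists_NH hSv h11 (h10.trans hX) h12
          exact Or.inr (Or.inr (Or.inl ⟨q1, q2 ++ m', by rw [h8, h13, List.append_assoc], h14⟩))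
        · push Not at h12
          refine Or.inr (Or.inr (Or.inr ⟨q ++ s, m', h8, ⟨q, s, rfl, h2, h7, h11, ?_⟩, ?_, h10⟩))
          · intro s1 s2 h13 _
            refine h12 (q ++ s1) s2 (by rw [h13, List.append_assoc]) ?_
            rw [A.h_append]
            omega
          · rw [A.h_append]
            omega

theorem stages {Sv Hg : List A.B → Prop} {x T M k X N1 : ℕ} {c : ℝ≥0∞} (hSv : ∀ l m, Sv (l ++ m) → Sv l) (hT : T ≤ M)
    (hx : x ≤ N1) (hX : N1 + k * M ≤ X)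
    (hst : ∀ p, ∑' s, ind (A.fpw T s ∧ Sv (p ++ s) ∧ ∀ s1 s2, s = s1 ++ s2 → s1 ≠ [] → Hg (p ++ s1)) * A.w s ≤ c) :
    ∑' l, ind (A.fpw X l ∧ Sv l) * A.w l ≤
      ∑' p, ind ((A.fpw x p ∧ N1 < A.h p) ∧ Sv p) * A.w p +
      k * ((∑' p, ind (A.fpw x p ∧ Sv p) * A.w p) * ∑' s, ind (A.fpw T s ∧ M < A.h s) * A.w s) +
      ∑' q, ind (A.NH Sv Hg x X q) * A.w q + c ^ k := by
  classical
  have hPF : A.PF {l | A.fpw X l ∧ Sv l} := fun l hl m hm => KP_fpw_PF X l hl.1 m hm.1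
  have h1 : ∑' l, ind (A.fpw X l ∧ Sv l) * A.w l ≤
      ∑' q, ind (((A.fpw x q ∧ N1 < A.h q) ∧ Sv q) ∨
        (∃ i ∈ Finset.range k, ∃ p s, q = p ++ s ∧ (A.KCP Sv x T i p ∧ A.fpw T s ∧ M < A.h s)) ∨
        A.NH Sv Hg x X q ∨ A.KCG Sv Hg x T k q) * A.w q := by
    have h2 := KP_dom (A := A) (S := fun l => A.fpw X l ∧ Sv l)
      (Q := fun q => ((A.fpw x q ∧ N1 < A.h q) ∧ Sv q) ∨
        (∃ i ∈ Finset.range k, ∃ p s, q = p ++ s ∧ (A.KCP Sv x T i p ∧ A.fpw T s ∧ M < A.h s)) ∨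
        A.NH Sv Hg x X q ∨ A.KCG Sv Hg x T k q) hPF (Φ := fun _ => 1) (fun _ _ => le_rfl) (by
        intro l hl
        rcases cover (A := A) (Hg := Hg) hSv hT hx hl.1 hl.2 k hX with ⟨q, m, e, h⟩ | ⟨i, hi, q, m, e, h⟩ |
          ⟨q, m, e, h⟩ | ⟨q, m, e, h, -⟩
        · exact ⟨q, m, e, Or.inl h⟩
        · exact ⟨q, m, e, Or.inr (Or.inl ⟨i, Finset.mem_range.2 hi, h⟩)⟩
        · exact ⟨q, m, e, Or.inr (Or.inr (Or.inl h))⟩
        · exact ⟨q, m, e, Or.inr (Or.inr (Or.inr h))⟩)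
    simpa only [mul_one] using h2
  refine h1.trans ?_
  have h3 : ∀ q, ind (((A.fpw x q ∧ N1 < A.h q) ∧ Sv q) ∨
        (∃ i ∈ Finset.range k, ∃ p s, q = p ++ s ∧ (A.KCP Sv x T i p ∧ A.fpw T s ∧ M < A.h s)) ∨
        A.NH Sv Hg x X q ∨ A.KCG Sv Hg x T k q) * A.w q ≤
      ind ((A.fpw x q ∧ N1 < A.h q) ∧ Sv q) * A.w q +
      (∑ i ∈ Finset.range k, ind (∃ p s, q = p ++ s ∧ (A.KCP Sv x T i p ∧ A.fpw T s ∧ M < A.h s)) * A.w q) +
      ind (A.NH Sv Hg x X q) * A.w q + ind (A.KCG Sv Hg x T k q) * A.w q := by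
    intro q
    rw [← Finset.sum_mul, ← add_mul, ← add_mul, ← add_mul]
    refine mul_le_mul' ?_ le_rfl
    refine (ind_or_le _ _).trans ?_
    rw [add_assoc, add_assoc]
    refine add_le_add le_rfl ((ind_or_le _ _).trans (add_le_add ?_ (ind_or_le _ _)))
    by_cases h4 : ∃ i ∈ Finset.range k, ∃ p s, q = p ++ s ∧ (A.KCP Sv x T i p ∧ A.fpw T s ∧ M < A.h s)
    · rw [ind_true h4]
      obtain ⟨i, hi, h5⟩ := h4
      calc (1 : ℝ≥0∞) = ind (∃ p s, q = p ++ s ∧ (A.KCP Sv x T i p ∧ A.fpw T s ∧ M < A.h s)) := (ind_true h5).symm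
        _ ≤ _ := Finset.single_le_sum
            (f := fun i => ind (∃ p s, q = p ++ s ∧ (A.KCP Sv x T i p ∧ A.fpw T s ∧ M < A.h s)))
            (fun _ _ => bot_le) hi
    · rw [ind_false h4]
      exact bot_le
  refine (ENNReal.tsum_le_tsum h3).trans ?_
  rw [ENNReal.tsum_add, ENNReal.tsum_add, ENNReal.tsum_add]
  refine add_le_add (add_le_add (add_le_add le_rfl ?_) le_rfl) (KCG_mass hst k)
  calc ∑' q, ∑ i ∈ Finset.range k, ind (∃ p s, q = p ++ s ∧ (A.KCP Sv x T i p ∧ A.fpw T s ∧ M < A.h s)) * A.w q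
      = ∑ i ∈ Finset.range k, ∑' q, ind (∃ p s, q = p ++ s ∧ (A.KCP Sv x T i p ∧ A.fpw T s ∧ M < A.h s)) * A.w q :=
        Summable.tsum_finsetSum fun _ _ => ENNReal.summable
    _ ≤ ∑ i ∈ Finset.range k,
          ((∑' p, ind (A.fpw x p ∧ Sv p) * A.w p) * ∑' s, ind (A.fpw T s ∧ M < A.h s) * A.w s) :=
        Finset.sum_le_sum fun i _ => KCJ_mass i
    _ = _ := by
        rw [Finset.sum_const, Finset.card_range, nsmul_eq_mul]

end Pool.Agent.HEP.Alph
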