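import Pool.Agent.EVN.K.KeyPre
import Pool.Agent.HEP.RnWord

/-!
Project EVN (MP_8c6f77_pr, note 3192), block K3 (key lemma), abstract part 2: THE FUNCTIONAL `E(X)` = sum over the first passage words over `X` of
the mass times a functional `Φ` which decreases along extensions; `af k` = the same over the words of height `k`.

* `EX_low`: `∑_(X ≤ k ≤ H) af k ≤ E(X) U(H)`. A word `l` of height in `[X, H]` is `s ++ m` with `s` its first passage prefix (`KP_fpw_pre`),
  `Φ l ≤ Φ s`, `h m ≤ H`, and `∑_(h m ≤ H) w m = U H` (`tsum_le`).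
* `EX_jump`: the first passage words over `x` of height `> N` (`x ≤ N`): `l = l1 ++ [c]`, `h l1 < x`, `ht c > N - h l1 ≥ N - x`
  (`Lam_anti`): at most `(∑_(k < x) af k) Lam (N - x)`.
* `EX_up`: `U x * E(x) ≤ 6 ∑_(k ≤ x) α k` for `x ≥ 1`, `α` antitone, `af ≤ α`. As in `EX_jump`, `E(x) ≤ ∑_(k < x) α k Lam (x - 1 - k)`. With
  `y = (x + 1) / 2`: for `k < y`, `x - 1 - k ≥ x / 2`: at most `(∑_(k < y) α k) Lam (x / 2)`; for `k ≥ y`, `α k ≤ α y` and
  `∑_(j ≤ x / 2) Lam j ≤ (2 (x / 2) + 1) / U (x / 2)` (`U_mul_sum_Lam`), `(y + 1) α y ≤ ∑_(k ≤ y) α k`, `2 (x / 2) + 1 ≤ x + 1 ≤ 2 (y + 1)`. So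
  `U (x / 2) E(x) ≤ 3 ∑_(k ≤ x) α k`, and `U x ≤ 2 U (x / 2)` (`U_half`, `b` antitone).
* `stage_jump`: `EX_jump` for `Φ = 1`.
-/

namespace Pool.Agent.HEP.Alph

open scoped ENNReal
open Finset

variable {A : Alph}

/-- Sum over the words of height `k`. -/
noncomputable def af (A : Alph) (Φ : List A.B → ℝ≥0∞) (k : ℕ) : ℝ≥0∞ := ∑' l, ind (A.h l = k) * (A.w l * Φ l)

/-- Sum over the first passage words. -/
noncomputable def EX (A : Alph) (Φ : List A.B → ℝ≥0∞) (X : ℕ) : ℝ≥0∞ := ∑' l, ind (A.fpw X l) * (A.w l * Φ l)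

private lemma KeyEX_sum (Φ : List A.B → ℝ≥0∞) (S : Finset ℕ) (g : ℕ → ℝ≥0∞) :
    ∑ k ∈ S, A.af Φ k * g k = ∑' l, ind (A.h l ∈ S) * (A.w l * Φ l * g (A.h l)) := by
  classical
  unfold af
  simp_rw [← ENNReal.tsum_mul_right]
  rw [← Summable.tsum_finsetSum (fun _ _ => ENNReal.summable)]
  refine tsum_congr fun l => ?_
  by_cases hl : A.h l ∈ S
  · rw [ind_true hl, one_mul, Finset.sum_eq_single_of_mem _ hl]
    · rw [ind_true rfl, one_mul]
    · intro k _ hk
      rw [ind_false (Ne.symm hk), zero_mul, zero_mul]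
  · rw [ind_false hl, zero_mul]
    refine Finset.sum_eq_zero fun k hk => ?_
    rw [ind_false (show ¬ A.h l = k from fun h => hl (by rw [h]; exact hk)), zero_mul, zero_mul]

lemma EX_low {Φ : List A.B → ℝ≥0∞} (hΦ : ∀ l m, Φ (l ++ m) ≤ Φ l) (X H : ℕ) :
    ∑ k ∈ Icc X H, A.af Φ k ≤ A.EX Φ X * A.U H := by
  classical
  have h0 := KeyEX_sum Φ (Icc X H) (fun _ => 1)
  simp only [mul_one] at h0
  rw [h0]
  have h2 : ∀ l, ind (A.h l ∈ Icc X H) * (A.w l * Φ l) ≤
      ∑' s, ∑' r, ind (l = s ++ r) * ((ind (A.fpw X s) * (A.w s * Φ s)) * (ind (A.h r ≤ H) * A.w r)) := by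
    intro l
    by_cases hl : A.h l ∈ Icc X H
    · rw [mem_Icc] at hl
      obtain ⟨s, r, e, hs⟩ := KP_fpw_pre hl.1
      have h5 : A.h l = A.h s + A.h r := by rw [e, A.h_append]
      refine le_trans ?_ (ENNReal.le_tsum s)
      refine le_trans ?_ (ENNReal.le_tsum r)
      rw [ind_true (mem_Icc.2 hl), ind_true e, ind_true hs, ind_true (by omega), one_mul, one_mul, one_mul,
        one_mul, e, A.w_append]
      calc A.w s * A.w r * Φ (s ++ r) ≤ A.w s * A.w r * Φ s := mul_le_mul' le_rfl (hΦ s r)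
        _ = _ := by ring
    · rw [ind_false hl, zero_mul]
      exact zero_le
  refine (ENNReal.tsum_le_tsum h2).trans (le_of_eq ?_)
  unfold EX
  rw [ENNReal.tsum_comm, ← ENNReal.tsum_mul_right]
  refine tsum_congr fun s => ?_
  rw [ENNReal.tsum_comm, ← A.tsum_le H, ← ENNReal.tsum_mul_left]
  refine tsum_congr fun r => ?_
  rw [tsum_eq_single (s ++ r)]
  · rw [ind_true rfl, one_mul]
  · intro l hl
    rw [ind_false hl, zero_mul]

/-- Sums over the first passage words by their last block. -/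
private lemma KeyEX_last {Φ : List A.B → ℝ≥0∞} (hΦ : ∀ l m, Φ (l ++ m) ≤ Φ l) {x : ℕ} (P : List A.B → Prop) (g : ℕ → ℕ)
    (hP : ∀ l1 c, A.h l1 < x → A.fpw x (l1 ++ [c]) → P (l1 ++ [c]) → g (A.h l1) < A.ht c)
    (h0 : ∀ l, A.fpw x l → P l → l ≠ []) :
    ∑' l, ind (A.fpw x l ∧ P l) * (A.w l * Φ l) ≤ ∑ k ∈ range x, A.af Φ k * A.Lam (g k) := by
  classical
  rw [KeyEX_sum Φ (range x) (fun k => A.Lam (g k))]
  have h2 : ∀ l, ind (A.fpw x l ∧ P l) * (A.w l * Φ l) ≤
      ∑' s, ∑' c, ind (l = s ++ [c]) * ((ind (A.h s ∈ range x) * (A.w s * Φ s)) * (ind (g (A.h s) < A.ht c) * A.wt c)) := by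
    intro l
    by_cases hl : A.fpw x l ∧ P l
    · obtain ⟨s, c, e⟩ : ∃ s c, l = s ++ [c] := by
        rcases List.eq_nil_or_concat l with h | ⟨s, c, h⟩
        · exact absurd h (h0 l hl.1 hl.2)
        · exact ⟨s, c, by rw [h, List.concat_eq_append]⟩
      have h5 : A.h s < x := hl.1.2 s c [] e
      refine le_trans ?_ (ENNReal.le_tsum s)
      refine le_trans ?_ (ENNReal.le_tsum c)
      rw [ind_true hl, ind_true e, ind_true (mem_range.2 h5), ind_true (hP s c h5 (e ▸ hl.1) (e ▸ hl.2)), one_mul, one_mul,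
        one_mul, one_mul, e, A.w_append, A.w_cons, A.w_nil, mul_one]
      calc A.w s * A.wt c * Φ (s ++ [c]) ≤ A.w s * A.wt c * Φ s := mul_le_mul' le_rfl (hΦ s [c])
        _ = _ := by ring
    · rw [ind_false hl, zero_mul]
      exact zero_le
  refine (ENNReal.tsum_le_tsum h2).trans (le_of_eq ?_)
  rw [ENNReal.tsum_comm]
  refine tsum_congr fun s => ?_
  rw [ENNReal.tsum_comm]
  calc ∑' c, ∑' l, ind (l = s ++ [c]) * ((ind (A.h s ∈ range x) * (A.w s * Φ s)) * (ind (g (A.h s) < A.ht c) * A.wt c))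
      = ∑' c, (ind (A.h s ∈ range x) * (A.w s * Φ s)) * (ind (g (A.h s) < A.ht c) * A.wt c) := by
        refine tsum_congr fun c => ?_
        rw [tsum_eq_single (s ++ [c])]
        · rw [ind_true rfl, one_mul]
        · intro l hl
          rw [ind_false hl, zero_mul]
    _ = _ := by
        rw [ENNReal.tsum_mul_left]
        unfold Lam
        ring

lemma EX_jump {Φ : List A.B → ℝ≥0∞} (hΦ : ∀ l m, Φ (l ++ m) ≤ Φ l) {x N : ℕ} (hx : x ≤ N) :
    ∑' l, ind (A.fpw x l ∧ N < A.h l) * (A.w l * Φ l) ≤ (∑ k ∈ range x, A.af Φ k) * A.Lam (N - x) := by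
  rw [Finset.sum_mul]
  refine KeyEX_last hΦ (fun l => N < A.h l) (fun _ => N - x) ?_ ?_
  · intro l1 c h1 _ h3
    rw [A.h_append, A.h_cons, A.h_nil] at h3
    omega
  · intro l _ h2 h3
    rw [h3, A.h_nil] at h2
    omega

lemma U_half (hb : Antitone A.b) (x : ℕ) : A.U x ≤ 2 * A.U (x / 2) := by
  have e : x + 1 = (x / 2 + 1) + (x - x / 2) := by omega
  have h1 : A.U x = A.U (x / 2) + ∑ j ∈ range (x - x / 2), A.b (x / 2 + 1 + j) := by
    unfold U
    rw [e, Finset.sum_range_add]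
  rw [h1, two_mul]
  refine add_le_add le_rfl ?_
  calc ∑ j ∈ range (x - x / 2), A.b (x / 2 + 1 + j) ≤ ∑ j ∈ range (x - x / 2), A.b j :=
        Finset.sum_le_sum fun j _ => hb (by omega)
    _ ≤ A.U (x / 2) := by
        unfold U
        exact Finset.sum_le_sum_of_subset (Finset.range_subset_range.2 (by omega))

lemma EX_up (hb : Antitone A.b) {Φ : List A.B → ℝ≥0∞} (hΦ : ∀ l m, Φ (l ++ m) ≤ Φ l) {α : ℕ → ℝ≥0∞} (hα : Antitone α)
    (h : ∀ k, A.af Φ k ≤ α k) {x : ℕ} (hx : 1 ≤ x) : A.U x * A.EX Φ x ≤ 6 * ∑ k ∈ range (x + 1), α k := by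
  have h1 : A.EX Φ x ≤ ∑ k ∈ range x, α k * A.Lam (x - 1 - k) := by
    have h2 := KeyEX_last (A := A) hΦ (x := x) (fun _ => True) (fun k => x - 1 - k) (by
      intro l1 c h1 h2 _
      have h3 : x ≤ A.h (l1 ++ [c]) := h2.1
      rw [A.h_append, A.h_cons, A.h_nil] at h3
      omega) (by
      intro l h1 _ h2
      have h3 : x ≤ A.h l := h1.1
      rw [h2, A.h_nil] at h3
      omega)
    simp only [and_true] at h2
    exact h2.trans (Finset.sum_le_sum fun k _ => mul_le_mul' (h k) le_rfl)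
  set y := (x + 1) / 2 with hy
  have e : x = y + x / 2 := by omega
  have h2 : ∑ k ∈ range x, α k * A.Lam (x - 1 - k) ≤
      (∑ k ∈ range y, α k) * A.Lam (x / 2) + α y * ∑ j ∈ range (x / 2), A.Lam j := by
    conv_lhs => rw [show range x = range (y + x / 2) by rw [← e]]
    rw [Finset.sum_range_add, Finset.sum_mul, Finset.mul_sum, ← Finset.sum_range_reflect (fun j => α y * A.Lam j)]
    refine add_le_add (Finset.sum_le_sum fun k hk => ?_) (Finset.sum_le_sum fun k hk => ?_)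
    · rw [mem_range] at hk
      exact mul_le_mul' le_rfl (A.Lam_anti (by omega))
    · rw [mem_range] at hk
      exact mul_le_mul' (hα (by omega)) (A.Lam_anti (by omega))
  have h3 : A.U (x / 2) * A.EX Φ x ≤ 3 * ∑ k ∈ range (x + 1), α k := by
    calc A.U (x / 2) * A.EX Φ x
        ≤ A.U (x / 2) * ((∑ k ∈ range y, α k) * A.Lam (x / 2) + α y * ∑ j ∈ range (x / 2 + 1), A.Lam j) := by
          refine mul_le_mul' le_rfl (h1.trans (h2.trans (add_le_add le_rfl (mul_le_mul' le_rfl ?_))))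
          exact Finset.sum_le_sum_of_subset (Finset.range_subset_range.2 (by omega))
      _ = (A.U (x / 2) * A.Lam (x / 2)) * (∑ k ∈ range y, α k) + α y * (A.U (x / 2) * ∑ j ∈ range (x / 2 + 1), A.Lam j) := by
          ring
      _ ≤ 1 * (∑ k ∈ range y, α k) + α y * (2 * (x / 2 : ℕ) + 1) :=
          add_le_add (mul_le_mul' (A.U_mul_Lam _) le_rfl) (mul_le_mul' le_rfl (A.U_mul_sum_Lam _))
      _ ≤ (∑ k ∈ range (x + 1), α k) + 2 * ∑ k ∈ range (x + 1), α k := by
          rw [one_mul]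
          refine add_le_add (Finset.sum_le_sum_of_subset (Finset.range_subset_range.2 (by omega))) ?_
          have h5 : ((y + 1 : ℕ) : ℝ≥0∞) * α y ≤ ∑ k ∈ range (x + 1), α k := by
            calc ((y + 1 : ℕ) : ℝ≥0∞) * α y = ∑ k ∈ range (y + 1), α y := by
                  rw [Finset.sum_const, Finset.card_range, nsmul_eq_mul]
              _ ≤ ∑ k ∈ range (y + 1), α k := Finset.sum_le_sum fun k hk => hα (by rw [mem_range] at hk; omega)
              _ ≤ _ := Finset.sum_le_sum_of_subset (Finset.range_subset_range.2 (by omega))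
          refine le_trans ?_ (mul_le_mul' (le_refl (2 : ℝ≥0∞)) h5)
          rw [mul_comm (α y), ← mul_assoc]
          refine mul_le_mul' ?_ le_rfl
          have h6 : (2 * (x / 2) + 1 : ℕ) ≤ 2 * (y + 1) := by omega
          calc (2 * ((x / 2 : ℕ) : ℝ≥0∞) + 1) = ((2 * (x / 2) + 1 : ℕ) : ℝ≥0∞) := by push_cast; rfl
            _ ≤ ((2 * (y + 1) : ℕ) : ℝ≥0∞) := by exact_mod_cast h6
            _ = _ := by push_cast; ring
      _ = _ := by ring
  calc A.U x * A.EX Φ x ≤ 2 * A.U (x / 2) * A.EX Φ x := mul_le_mul' (U_half hb x) le_rfl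
    _ = 2 * (A.U (x / 2) * A.EX Φ x) := by ring
    _ ≤ 2 * (3 * ∑ k ∈ range (x + 1), α k) := mul_le_mul' le_rfl h3
    _ = _ := by ring

lemma stage_jump {T M : ℕ} (hT : T ≤ M) : ∑' s, ind (A.fpw T s ∧ M < A.h s) * A.w s ≤ A.U T * A.Lam (M - T) := by
  have h1 := EX_jump (A := A) (Φ := fun _ => 1) (fun _ _ => le_rfl) hT
  simp only [mul_one] at h1
  refine h1.trans (mul_le_mul' ?_ le_rfl)
  unfold U
  refine (Finset.sum_le_sum_of_subset (Finset.range_subset_range.2 (Nat.le_succ T))).trans (Finset.sum_le_sum fun k _ => ?_)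
  unfold af b
  simp only [mul_one]
  exact le_rfl

end Pool.Agent.HEP.Alph
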