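import Pool.Agent.EVN.K.KeyCov
import Pool.Agent.EVN.K.KeyNar

/-!
Project EVN (MP_8c6f77_pr, note 3192), block K3 (key lemma), concrete part: THE FIRST RENEWAL WHICH IS NOT HUGGED, extended by narrow words.

`SvO ω L l`: the extension `ω` avoids `l` and `l` has at most `L` steps. `HgO ω r l`: `ω` meets the box of size `2 r` around the end of `l`.

STATEMENT: `(∑_ω p(ω) mass {NH}) * U r ≤ C ∑_(h ≤ H) ph (2L) r h`, if `1 ≤ r`, `C r² ≤ L`, `X + r ≤ H`.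

PROOF. By `narrow`: `U r ≤ C mass {t narrow}`. For fixed `ω` the map `(q, t) ↦ q ++ t` (`q` in `NH`, `t` narrow) is injective: the first prefix
of `q ++ t` of height `≥ x` which is not hugged is `q` (two prefixes of the same word are comparable; `NH` says that all shorter prefixes of height
`≥ x` are hugged). `hj (q ++ t) ≤ X + r ≤ H`, `ln (q ++ t) ≤ L + C r² ≤ 2 L`, `ω` avoids `VL (q ++ t) = VL q ∪ (ptz q + VL t)` and the box of size `r` around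
`ptz (q ++ t) = ptz q + ptz t`, since both `ptz q + VL t` and this box are inside `Bl (ptz q) (2 r)` (`Bx` is additive: `F0` is linear), and `¬ HgO`.
So `∑_q ind (NH) w q * ∑_t ind (narrow) w t ≤ ∑_l ind (hj l ≤ H ∧ ln l ≤ 2 L ∧ ω avoids ..) w l`; multiply by `p ω` and sum: `∑_(h ≤ H) ph`.
-/

namespace Pool.Agent.EVN

open Pool.Agent.Hhelper14.SAW Pool.Agent.HHP Pool.Agent.HEP Pool.Agent.PLY.G Pool.Agent.BEX.F
open scoped ENNReal

/-- The extension `ω` avoids `l`, which has at most `L` steps. -/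
def SvO (ω : List (ℤ × ℤ)) (L : ℕ) (l : List Blk) : Prop := (∀ z ∈ ω, z ∉ VL l) ∧ ln l ≤ L

/-- The extension `ω` meets the box of size `2 r` around the end of `l`. -/
def HgO (ω : List (ℤ × ℤ)) (r : ℕ) (l : List Blk) : Prop := ∃ z ∈ ω, z ∈ Bl (ptz l) (2 * r)

private lemma ln_app (l m : List Blk) : ln (l ++ m) = ln l + ln m := by
  unfold ln
  rw [List.map_append, List.sum_append]

private lemma ptz_app (l m : List Blk) : ptz (l ++ m) = ptz l + ptz m := by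
  unfold ptz
  rw [List.map_append, List.sum_append]

private lemma VL_app {q t : List Blk} {z : ℤ × ℤ} (hz : z ∈ VL (q ++ t)) : z ∈ VL q ∨ z - ptz q ∈ VL t := by
  obtain ⟨l1, c, l2, u, e, hu, rfl⟩ := hz
  rcases List.append_eq_append_iff.1 e with ⟨a, ha, hb⟩ | ⟨a, ha, hb⟩
  · right
    refine ⟨a, c, l2, u, hb, hu, ?_⟩
    rw [ha, ptz_app]
    ring
  · cases a with
    | nil =>
      right
      rw [List.nil_append] at hb
      rw [List.append_nil] at ha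
      refine ⟨[], c, l2, u, hb.symm, hu, ?_⟩
      rw [ha, ptz_nil]
      ring
    | cons d a =>
      left
      rw [List.cons_append, List.cons.injEq] at hb
      refine ⟨l1, c, a, u, ?_, hu, rfl⟩
      rw [ha, hb.1]

private lemma Bx_mono {D D' : ℕ} (h : D ≤ D') : Bx D ⊆ Bx D' := by
  intro z hz
  have h1 := hz.1
  have h2 := hz.2
  have h3 : (D : ℤ) ≤ D' := by exact_mod_cast h
  exact ⟨by linarith, by linarith⟩

private lemma Bx_add {r : ℕ} {a b : ℤ × ℤ} (ha : a ∈ Bx r) (hb : b ∈ Bx r) : a + b ∈ Bx (2 * r) := by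
  have h1 := ha.1
  have h2 := ha.2
  have h3 := hb.1
  have h4 := hb.2
  refine ⟨?_, ?_⟩
  · rw [F0_add]
    have h5 := abs_add_le (F0 a) (F0 b)
    push_cast
    linarith
  · rw [Prod.snd_add]
    have h5 := abs_add_le a.2 b.2
    push_cast
    linarith

/-- The set `NH` is prefix free. -/
private lemma NH_PF {A : Alph} {Sv Hg : List A.B → Prop} {x X : ℕ} : A.PF {q | A.NH Sv Hg x X q} := by
  intro l hl m hm
  by_contra h
  exact hl.2.2.2.1 (hm.2.2.2.2 l m rfl h hl.1)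

private lemma step_pt {C H r L X : ℕ} (hL : C * r ^ 2 ≤ L) (hX : X + r ≤ H) {ω : List (ℤ × ℤ)} {q t : List Blk}
    (q1 : hj q ≤ X) (q2 : SvO ω L q) (q3 : ¬ HgO ω r q) :
    wj q * (ind (hj t ≤ r ∧ VL t ⊆ Bx r ∧ ptz t ∈ Bx r ∧ ln t ≤ C * r ^ 2) * wj t) ≤
      ind (hj (q ++ t) ≤ H ∧ ln (q ++ t) ≤ 2 * L ∧ ∀ z ∈ ω, z ∉ VL (q ++ t) ∪ Bl (ptz (q ++ t)) r) * wj (q ++ t) := by
  by_cases ht : hj t ≤ r ∧ VL t ⊆ Bx r ∧ ptz t ∈ Bx r ∧ ln t ≤ C * r ^ 2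
  · obtain ⟨t1, t2, t3, t4⟩ := ht
    have hF : hj (q ++ t) ≤ H ∧ ln (q ++ t) ≤ 2 * L ∧ ∀ z ∈ ω, z ∉ VL (q ++ t) ∪ Bl (ptz (q ++ t)) r := by
      refine ⟨?_, ?_, ?_⟩
      · have h2 : hj (q ++ t) = hj q + hj t := hj_append q t
        omega
      · have h2 := q2.2
        rw [ln_app]
        omega
      · intro z hz hz'
        rcases hz' with hz' | hz'
        · rcases VL_app hz' with h2 | h2
          · exact q2.1 z hz h2
          · exact q3 ⟨z, hz, Bx_mono (by omega) (t2 h2)⟩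
        · refine q3 ⟨z, hz, ?_⟩
          have h2 : z - ptz (q ++ t) ∈ Bx r := hz'
          have h3 := Bx_add h2 t3
          rw [ptz_app] at h3
          have h4 : z - (ptz q + ptz t) + ptz t = z - ptz q := by ring
          rw [h4] at h3
          exact h3
    rw [ind_true hF, wj_append, one_mul]
    exact mul_le_mul' le_rfl (mul_le_of_le_one_left' (ind_le_one _))
  · rw [ind_false ht, zero_mul, mul_zero]
    exact zero_le

/-- For a fixed extension. -/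
private lemma fix_om {C H r L x X : ℕ} (hL : C * r ^ 2 ≤ L) (hX : X + r ≤ H) (ω : List (ℤ × ℤ)) :
    (∑' q : List Blk, ind (hsI.toAlph.NH (SvO ω L) (HgO ω r) x X q) * wj q) *
      (∑' l : List Blk, ind (hj l ≤ r ∧ VL l ⊆ Bx r ∧ ptz l ∈ Bx r ∧ ln l ≤ C * r ^ 2) * wj l) ≤
    ∑' l : List Blk, ind (hj l ≤ H ∧ ln l ≤ 2 * L ∧ ∀ z ∈ ω, z ∉ VL l ∪ Bl (ptz l) r) * wj l := by
  have h1 := (NH_PF (A := hsI.toAlph) (Sv := SvO ω L) (Hg := HgO ω r) (x := x) (X := X)).tsum_le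
    (fun q t => wj q * (ind (hj t ≤ r ∧ VL t ⊆ Bx r ∧ ptz t ∈ Bx r ∧ ln t ≤ C * r ^ 2) * wj t))
    (fun l => ind (hj l ≤ H ∧ ln l ≤ 2 * L ∧ ∀ z ∈ ω, z ∉ VL l ∪ Bl (ptz l) r) * wj l)
    (fun q t hq => step_pt hL hX hq.2.1 hq.2.2.1 hq.2.2.2.1)
  refine le_trans (le_of_eq ?_) h1
  rw [← ENNReal.tsum_mul_right]
  refine tsum_congr fun q => ?_
  rw [← ENNReal.tsum_mul_left]
  refine tsum_congr fun t => ?_
  exact mul_assoc _ _ _

private lemma sum_ph (𝓛 : Law) (L r H : ℕ) :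
    ∑ ω ∈ 𝓛.Om, 𝓛.p ω * ∑' l : List Blk, ind (hj l ≤ H ∧ ln l ≤ L ∧ ∀ z ∈ ω, z ∉ VL l ∪ Bl (ptz l) r) * wj l =
      ∑ h ∈ Finset.range (H + 1), ph 𝓛 L r h := by
  unfold ph Law.av
  rw [← Summable.tsum_finsetSum (fun _ _ => ENNReal.summable)]
  simp_rw [← ENNReal.tsum_mul_left]
  rw [← Summable.tsum_finsetSum (fun _ _ => ENNReal.summable)]
  refine tsum_congr fun l => ?_
  by_cases hl : hj l ≤ H ∧ ln l ≤ L
  · rw [Finset.sum_eq_single_of_mem (hj l) (Finset.mem_range.2 (by omega))]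
    · rw [ind_true (show hj l = hj l ∧ ln l ≤ L from ⟨rfl, hl.2⟩), one_mul, Finset.mul_sum]
      refine Finset.sum_congr rfl fun ω _ => ?_
      have h1 : ind (hj l ≤ H ∧ ln l ≤ L ∧ ∀ z ∈ ω, z ∉ VL l ∪ Bl (ptz l) r) = ind (∀ z ∈ ω, z ∉ VL l ∪ Bl (ptz l) r) :=
        ind_congr ⟨fun h => h.2.2, fun h => ⟨hl.1, hl.2, h⟩⟩
      rw [h1]
      ring
    · intro h _ hne
      rw [ind_false (fun h2 => hne h2.1.symm), zero_mul]
  · rw [Finset.sum_eq_zero fun ω _ => ?_, Finset.sum_eq_zero fun h hh => ?_]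
    · rw [ind_false (fun h2 => hl ⟨?_, h2.2⟩), zero_mul]
      have := Finset.mem_range.1 hh
      omega
    · rw [ind_false (fun h2 => hl ⟨h2.1, h2.2.1⟩), zero_mul, mul_zero]

theorem nonhug : ∃ C : ℕ, 1 ≤ C ∧ ∀ (H r L x X : ℕ) (𝓛 : Law), 1 ≤ r → C * r ^ 2 ≤ L → X + r ≤ H →
    (∑ ω ∈ 𝓛.Om, 𝓛.p ω * ∑' q : List Blk, ind (hsI.toAlph.NH (SvO ω L) (HgO ω r) x X q) * wj q) * hsI.U r ≤
      C * ∑ h ∈ Finset.range (H + 1), ph 𝓛 (2 * L) r h := by
  obtain ⟨C, hC, hN⟩ := narrow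
  refine ⟨C, hC, fun H r L x X 𝓛 hr hL hX => ?_⟩
  rw [← sum_ph]
  calc (∑ ω ∈ 𝓛.Om, 𝓛.p ω * ∑' q : List Blk, ind (hsI.toAlph.NH (SvO ω L) (HgO ω r) x X q) * wj q) * hsI.U r
      ≤ (∑ ω ∈ 𝓛.Om, 𝓛.p ω * ∑' q : List Blk, ind (hsI.toAlph.NH (SvO ω L) (HgO ω r) x X q) * wj q) *
        (C * ∑' l : List Blk, ind (hj l ≤ r ∧ VL l ⊆ Bx r ∧ ptz l ∈ Bx r ∧ ln l ≤ C * r ^ 2) * wj l) :=
        mul_le_mul' le_rfl (hN r hr)
    _ = C * ∑ ω ∈ 𝓛.Om, 𝓛.p ω * ((∑' q : List Blk, ind (hsI.toAlph.NH (SvO ω L) (HgO ω r) x X q) * wj q) *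
        ∑' l : List Blk, ind (hj l ≤ r ∧ VL l ⊆ Bx r ∧ ptz l ∈ Bx r ∧ ln l ≤ C * r ^ 2) * wj l) := by
        rw [mul_left_comm, Finset.sum_mul]
        congr 1
        exact Finset.sum_congr rfl fun ω _ => mul_assoc _ _ _
    _ ≤ _ := by
        refine mul_le_mul' le_rfl (Finset.sum_le_sum fun ω _ => mul_le_mul' le_rfl ?_)
        exact fix_om hL hX ω

end Pool.Agent.EVN
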