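import Pool.Agent.EVN.K.KeyEX
import Pool.Agent.EVN.K.KeyHug
import Pool.Agent.EVN.Stmt

/-!
Project EVN (MP_8c6f77_pr, note 3192), block K3 (key lemma): the functional `PhiL`, and the decomposition `E(X) ≤ I + II + III + IV`.
-/

namespace Pool.Agent.EVN

open Pool.Agent.Hhelper14.SAW Pool.Agent.HHP Pool.Agent.HEP Pool.Agent.PLY.G Pool.Agent.BEX.F
open scoped ENNReal

/-- The functional of a word: at most `L` steps, avoided by the extension. -/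
noncomputable def PhiL (𝓛 : Law) (L : ℕ) (l : List Blk) : ℝ≥0∞ := ind (ln l ≤ L) * 𝓛.av (VL l)

lemma KeyPhi_VL (l m : List Blk) : VL l ⊆ VL (l ++ m) := by
  rintro z ⟨l1, c, l2, u, h1, h2, h3⟩
  exact ⟨l1, c, l2 ++ m, u, by rw [h1]; simp, h2, h3⟩

lemma KeyPhi_ln (l m : List Blk) : ln l ≤ ln (l ++ m) := by
  unfold ln
  rw [List.map_append, List.sum_append]
  exact Nat.le_add_right _ _

lemma SvO_pre {ω : List (ℤ × ℤ)} {L : ℕ} (l m : List Blk) (h : SvO ω L (l ++ m)) : SvO ω L l :=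
  ⟨fun z hz hz' => h.1 z hz (KeyPhi_VL l m hz'), (KeyPhi_ln l m).trans h.2⟩

lemma KeyPhi_av_anti (𝓛 : Law) {S S' : Set (ℤ × ℤ)} (h : S ⊆ S') : 𝓛.av S' ≤ 𝓛.av S := by
  unfold Law.av
  exact Finset.sum_le_sum fun ω _ => mul_le_mul' le_rfl (ind_mono fun h1 z hz hz' => h1 z hz (h hz'))

lemma KeyPhi_av_le (𝓛 : Law) (S : Set (ℤ × ℤ)) : 𝓛.av S ≤ 1 := by
  rw [← 𝓛.tot]
  unfold Law.av
  exact Finset.sum_le_sum fun ω _ => mul_le_of_le_one_right' (ind_le_one _)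

lemma PhiL_anti (𝓛 : Law) (L : ℕ) (l m : List Blk) : PhiL 𝓛 L (l ++ m) ≤ PhiL 𝓛 L l :=
  mul_le_mul' (ind_mono fun h => (KeyPhi_ln l m).trans h) (KeyPhi_av_anti 𝓛 (KeyPhi_VL l m))

lemma PhiL_le (𝓛 : Law) (L : ℕ) (l : List Blk) : PhiL 𝓛 L l ≤ 1 := by
  unfold PhiL
  exact (mul_le_mul' (ind_le_one _) (KeyPhi_av_le 𝓛 _)).trans (by rw [one_mul])

lemma af_PhiL (𝓛 : Law) (L k : ℕ) : hsI.toAlph.af (PhiL 𝓛 L) k = ak 𝓛 L k := by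
  unfold Alph.af ak PhiL
  refine tsum_congr fun l => ?_
  have e : ind (hj l = k ∧ ln l ≤ L) = ind (hj l = k) * ind (ln l ≤ L) := ind_and _ _
  rw [e]
  show ind (hj l = k) * (wj l * (ind (ln l ≤ L) * 𝓛.av (VL l))) = _
  ring

/-- Sum over the extensions. -/
lemma KeyPhi_sum (𝓛 : Law) (L : ℕ) (R : List Blk → Prop) :
    ∑ ω ∈ 𝓛.Om, 𝓛.p ω * ∑' l : List Blk, ind (R l ∧ SvO ω L l) * wj l =
      ∑' l : List Blk, ind (R l) * (wj l * PhiL 𝓛 L l) := by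
  have h1 : ∀ ω, 𝓛.p ω * ∑' l : List Blk, ind (R l ∧ SvO ω L l) * wj l =
      ∑' l : List Blk, 𝓛.p ω * (ind (R l ∧ SvO ω L l) * wj l) := fun ω => ENNReal.tsum_mul_left.symm
  simp_rw [h1]
  rw [← Summable.tsum_finsetSum (fun _ _ => ENNReal.summable)]
  refine tsum_congr fun l => ?_
  unfold PhiL Law.av
  rw [Finset.mul_sum, Finset.mul_sum, Finset.mul_sum]
  refine Finset.sum_congr rfl fun ω _ => ?_
  have e : ind (R l ∧ SvO ω L l) = ind (R l) * (ind (∀ z ∈ ω, z ∉ VL l) * ind (ln l ≤ L)) := by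
    rw [ind_and, SvO, ind_and]
  rw [e]
  ring

/-- The decomposition. -/
theorem KeyPhi_main {c : ℝ≥0∞} {T0 r0 : ℕ} (hc : ∀ r : ℕ, r0 ≤ r → ∀ (p : List Blk) (ω : List (ℤ × ℤ)), HChain ω →
    ω.getLast? = some o' →
    ∑' s : List Blk, ind (hsI.toAlph.fpw (T0 * r) s ∧ (∀ z ∈ ω, z ∉ VL (p ++ s)) ∧
      ∀ s1 s2, s = s1 ++ s2 → s1 ≠ [] → ∃ z ∈ ω, z ∈ Bl (ptz (p ++ s1)) (2 * r)) * wj s ≤ c)
    {r : ℕ} (hr : r0 ≤ r) (𝓛 : Law) (L : ℕ) {x M k X N1 : ℕ} (hT : T0 * r ≤ M) (hx : x ≤ N1) (hX : N1 + k * M ≤ X) :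
    hsI.toAlph.EX (PhiL 𝓛 L) X ≤
      (∑ j ∈ Finset.range x, ak 𝓛 L j) * hsI.Lam (N1 - x) +
      k * (hsI.toAlph.EX (PhiL 𝓛 L) x * (hsI.U (T0 * r) * hsI.Lam (M - T0 * r))) +
      (∑ ω ∈ 𝓛.Om, 𝓛.p ω * ∑' q : List Blk, ind (hsI.toAlph.NH (SvO ω L) (HgO ω r) x X q) * wj q) + c ^ k := by
  have key : ∀ ω ∈ 𝓛.Om, ∑' l : List Blk, ind (hsI.toAlph.fpw X l ∧ SvO ω L l) * wj l ≤
      ∑' p : List Blk, ind ((hsI.toAlph.fpw x p ∧ N1 < hj p) ∧ SvO ω L p) * wj p +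
      k * ((∑' p : List Blk, ind (hsI.toAlph.fpw x p ∧ SvO ω L p) * wj p) *
        (hsI.U (T0 * r) * hsI.Lam (M - T0 * r))) +
      ∑' q : List Blk, ind (hsI.toAlph.NH (SvO ω L) (HgO ω r) x X q) * wj q + c ^ k := by
    intro ω hω
    have h1 := Alph.stages (A := hsI.toAlph) (Sv := SvO ω L) (Hg := HgO ω r) (x := x) (T := T0 * r) (M := M) (k := k)
      (X := X) (N1 := N1) (c := c) (fun l m => SvO_pre l m) hT hx hX (fun p => ?_)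
    · refine h1.trans ?_
      refine add_le_add (add_le_add (add_le_add le_rfl (mul_le_mul' le_rfl (mul_le_mul' le_rfl ?_))) le_rfl) le_rfl
      exact Alph.stage_jump hT
    · refine le_trans (ENNReal.tsum_le_tsum fun s => ?_) (hc r hr p ω (𝓛.ch ω hω) (𝓛.st ω hω))
      refine mul_le_mul' (ind_mono ?_) (le_refl (wj s))
      rintro ⟨a1, a2, a3⟩
      exact ⟨a1, a2.1, a3⟩
  have hE : hsI.toAlph.EX (PhiL 𝓛 L) X = ∑ ω ∈ 𝓛.Om, 𝓛.p ω * ∑' l : List Blk,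
      ind (hsI.toAlph.fpw X l ∧ SvO ω L l) * wj l := (KeyPhi_sum 𝓛 L (hsI.toAlph.fpw X)).symm
  rw [hE]
  refine (Finset.sum_le_sum fun ω hω => mul_le_mul' le_rfl (key ω hω)).trans ?_
  have e : ∀ ω, 𝓛.p ω * (∑' p : List Blk, ind ((hsI.toAlph.fpw x p ∧ N1 < hj p) ∧ SvO ω L p) * wj p +
      k * ((∑' p : List Blk, ind (hsI.toAlph.fpw x p ∧ SvO ω L p) * wj p) *
        (hsI.U (T0 * r) * hsI.Lam (M - T0 * r))) +
      ∑' q : List Blk, ind (hsI.toAlph.NH (SvO ω L) (HgO ω r) x X q) * wj q + c ^ k) =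
      𝓛.p ω * (∑' p : List Blk, ind ((hsI.toAlph.fpw x p ∧ N1 < hj p) ∧ SvO ω L p) * wj p) +
      (k * (hsI.U (T0 * r) * hsI.Lam (M - T0 * r))) * (𝓛.p ω * (∑' p : List Blk, ind (hsI.toAlph.fpw x p ∧ SvO ω L p) * wj p)) +
      𝓛.p ω * (∑' q : List Blk, ind (hsI.toAlph.NH (SvO ω L) (HgO ω r) x X q) * wj q) + 𝓛.p ω * c ^ k := by
    intro ω; ring
  simp_rw [e]
  rw [Finset.sum_add_distrib, Finset.sum_add_distrib, Finset.sum_add_distrib, ← Finset.mul_sum, ← Finset.sum_mul,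
    𝓛.tot, one_mul, KeyPhi_sum 𝓛 L (fun p => hsI.toAlph.fpw x p ∧ N1 < hj p), KeyPhi_sum 𝓛 L (hsI.toAlph.fpw x)]
  refine add_le_add (add_le_add (add_le_add ?_ (le_of_eq ?_)) le_rfl) le_rfl
  · have h2 := Alph.EX_jump (A := hsI.toAlph) (Φ := PhiL 𝓛 L) (PhiL_anti 𝓛 L) hx
    simp_rw [af_PhiL] at h2
    exact h2
  · show _ = (k : ℝ≥0∞) * ((∑' l : List Blk, ind (hsI.toAlph.fpw x l) * (wj l * PhiL 𝓛 L l)) * _)
    ring

end Pool.Agent.EVN
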