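import Pool.Agent.PLY.G.RunA
import Pool.Agent.PLY.G.StFst

/-!
Project EVN (MP_8c6f77_pr, note 3192), block K3 (key lemma), abstract part 1: prefix free sets and domination by prefixes.

* `KP_pf_mass`: a prefix free set of words has mass at most `1` (restrict to the words of height `≤ N`, `pref_mass`, and let `N → ∞`: every
  finite partial sum has bounded heights).
* `KP_fpw_PF`: the first passage words over `N` are prefix free. `KP_fpw_pre`: a word of height `≥ N` has a prefix which is a first passage word.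
* `KP_dom`: if every word `l` of the prefix free set `S` has a prefix in `Q`, then the mass of `S`, weighted with a functional which decreases
  along extensions, is at most the weighted mass of `Q`: `ind (S l) ≤ ∑ q, ∑ m, ind (l = q ++ m) ind (Q q) ind (S (q ++ m))`, and for fixed
  `q` the words `m` with `S (q ++ m)` are prefix free, so their mass is at most `1`.
-/

namespace Pool.Agent.HEP.Alph

open scoped ENNReal

variable {A : Alph}

/-- A prefix free set of words has mass at most `1`. -/
lemma KP_pf_mass {X : Set (List A.B)} (hX : A.PF X) : ∑' l, ind (l ∈ X) * A.w l ≤ 1 := by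
  classical
  rw [ENNReal.tsum_eq_iSup_sum]
  refine iSup_le fun s => ?_
  set N : ℕ := s.sup A.h with hN
  have hsub : A.PF (X ∩ {l | A.h l ≤ N}) := by
    intro l hl m hm
    exact hX l hl.1 m hm.1
  have h1 := pref_mass (N := N) hsub (fun l hl => hl.2)
  have h2 : ∑' t, ind (A.fpw N t ∧ hasPre (X ∩ {l | A.h l ≤ N}) t) * A.w t ≤ 1 := by
    rw [← tsum_fpw (A := A) N]
    exact ENNReal.tsum_le_tsum fun t => mul_le_mul' (ind_mono fun h => h.1) le_rfl
  refine le_trans ?_ (h1.trans h2)
  refine le_trans ?_ (ENNReal.sum_le_tsum s)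
  refine Finset.sum_le_sum fun l hl => mul_le_mul' (ind_mono fun h => ⟨h, ?_⟩) le_rfl
  exact Finset.le_sup (f := A.h) hl

/-- The first passage words are prefix free. -/
lemma KP_fpw_PF (N : ℕ) : A.PF {l | A.fpw N l} := by
  intro l hl m hm
  cases m with
  | nil => rfl
  | cons c m =>
    have h1 : N ≤ A.h l := hl.1
    have h2 := hm.2 l c m rfl
    omega

/-- A word of height `≥ N` has a prefix which is a first passage word over `N`. -/
lemma KP_fpw_pre {N : ℕ} {l : List A.B} (h : N ≤ A.h l) : ∃ s m, l = s ++ m ∧ A.fpw N s := by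
  induction l generalizing N with
  | nil =>
    rw [A.h_nil] at h
    exact ⟨[], [], rfl, fpw_nil.2 (by omega)⟩
  | cons c l ih =>
    rcases Nat.eq_zero_or_pos N with h0 | h0
    · exact ⟨[], c :: l, rfl, fpw_nil.2 h0⟩
    · rw [A.h_cons] at h
      obtain ⟨s, m, h1, h2⟩ := ih (N := N - A.ht c) (by omega)
      exact ⟨c :: s, m, by rw [h1]; rfl, fpw_cons.2 ⟨h0, h2⟩⟩

/-- Domination by prefixes. -/
lemma KP_dom {S Q : List A.B → Prop} (hS : A.PF {l | S l}) {Φ : List A.B → ℝ≥0∞} (hΦ : ∀ l m, Φ (l ++ m) ≤ Φ l)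
    (h : ∀ l, S l → ∃ q m, l = q ++ m ∧ Q q) :
    ∑' l, ind (S l) * (A.w l * Φ l) ≤ ∑' q, ind (Q q) * (A.w q * Φ q) := by
  calc ∑' l, ind (S l) * (A.w l * Φ l)
      ≤ ∑' l, ∑' q, ∑' m, ind (l = q ++ m) * (ind (Q q) * (A.w q * Φ q) * (ind (S (q ++ m)) * A.w m)) := by
        refine ENNReal.tsum_le_tsum fun l => ?_
        by_cases hl : S l
        · obtain ⟨q, m, e, hq⟩ := h l hl
          refine le_trans ?_ ((ENNReal.le_tsum m).trans (ENNReal.le_tsum q))
          rw [ind_true hl, ind_true e, ind_true hq, ← e, ind_true hl, one_mul, one_mul, one_mul, one_mul]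
          calc A.w l * Φ l = A.w q * A.w m * Φ (q ++ m) := by rw [← A.w_append, ← e]
            _ ≤ A.w q * A.w m * Φ q := mul_le_mul' le_rfl (hΦ q m)
            _ = _ := by ring
        · rw [ind_false hl, zero_mul]
          exact zero_le
    _ = ∑' q, ∑' m, ∑' l, ind (l = q ++ m) * (ind (Q q) * (A.w q * Φ q) * (ind (S (q ++ m)) * A.w m)) := by
        rw [ENNReal.tsum_comm]
        exact tsum_congr fun q => ENNReal.tsum_comm
    _ = ∑' q, ∑' m, ind (Q q) * (A.w q * Φ q) * (ind (S (q ++ m)) * A.w m) := by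
        refine tsum_congr fun q => tsum_congr fun m => ?_
        rw [tsum_eq_single (q ++ m) (fun l hl => by rw [ind_false hl, zero_mul]), ind_true rfl, one_mul]
    _ ≤ ∑' q, ind (Q q) * (A.w q * Φ q) := by
        refine ENNReal.tsum_le_tsum fun q => ?_
        rw [ENNReal.tsum_mul_left]
        refine mul_le_of_le_one_right' ?_
        refine KP_pf_mass (X := {m | S (q ++ m)}) fun m hm m' hm' => ?_
        have := hS (q ++ m) hm m' (by rw [List.append_assoc]; exact hm')
        exact this

end Pool.Agent.HEP.Alph
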