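import Pool.Agent.EVN.K.OneC

/-!
EVN, block K, contract `KOne`, part A: gluing an arm and a word. `WPath bw`: the facts about the path `bw l` of a word `l` with the next vertex
(latest vertex first). `Gl bw η l` = the arm `η` followed by the word `l` (first vertex of the word = last vertex of the arm).
-/

namespace Pool.Agent.EVN.KO

open Pool.Agent.Hhelper14.SAW Pool.Agent.HHP Pool.Agent.HEP Pool.Agent.PLY.G Pool.Agent.BEX.F
open scoped ENNReal

/-- The facts about the paths of the words. -/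
structure WPath (bw : List Blk → List (ℤ × ℤ)) : Prop where
  nodup : ∀ l, (bw l).Nodup
  chain : ∀ l, HChain (bw l)
  last : ∀ l, (bw l).getLast? = some o
  head : ∀ l, (bw l).head? = some (ptz l)
  mem_tail : ∀ l z, z ∈ (bw l).tail ↔ z ∈ VL l
  tail_F0 : ∀ l z, z ∈ (bw l).tail → 0 ≤ F0 z ∧ F0 z < 3 * hj l
  len : ∀ l, (bw l).length = ln l + 1
  inj : Function.Injective bw

/-- The arm `η` followed by the word `l`. -/
def Gl (bw : List Blk → List (ℤ × ℤ)) (η : List (ℤ × ℤ)) (l : List Blk) : List (ℤ × ℤ) :=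
  (bw l).map (fun z => η.headI + z) ++ η.tail

variable {bw : List Blk → List (ℤ × ℤ)} {v : ℤ × ℤ} {D q : ℕ} {η : List (ℤ × ℤ)} {l : List Blk}

lemma WPath.eq_cons (h : WPath bw) (l : List Blk) : bw l = ptz l :: (bw l).tail := by
  have := h.head l
  cases hb : bw l with
  | nil => rw [hb] at this; simp at this
  | cons a t => rw [hb] at this; simp at this; simp [this]

lemma WPath.F0_nonneg (h : WPath bw) {z : ℤ × ℤ} (hz : z ∈ bw l) : 0 ≤ F0 z := by
  rw [h.eq_cons l, List.mem_cons] at hz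
  rcases hz with rfl | hz
  · rw [F0_ptz]; positivity
  · exact (h.tail_F0 l z hz).1

/-- The data of an arm. -/
lemma FA_spec (h : η ∈ FA v D q) : η = η.headI :: η.tail ∧ η.tail ≠ [] ∧ η.getLast? = some v ∧ η.tail.getLast? = some v ∧ η.Nodup ∧ HChain η ∧
    F0 η.headI = 3 * q ∧ (∀ z ∈ η.tail, F0 z < 3 * q ∧ z ∈ Bx D) ∧ F0 v < 3 * q ∧
    (∀ k : ℕ, k < q → F0 v < 3 * k → ¬ Cut k η) ∧ |F0 η.headI| ≤ 3 * D + 2 ∧ |η.headI.2| ≤ 3 * D + 1 := by
  obtain ⟨y, η', rfl, h1, h2, h3, h4, h5, h6, h7⟩ := h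
  obtain ⟨x, η'', rfl⟩ := List.exists_cons_of_ne_nil h5
  have h8 : (x :: η'').getLast? = some v := by
    rw [List.getLast?_cons_cons] at h1
    exact h1
  have h9 : v ∈ x :: η'' := List.mem_of_getLast? h8
  have hu := (List.isChain_cons_cons.1 h3).1.2.2
  obtain ⟨h10, h11⟩ := (h6 x (by simp)).2
  refine ⟨rfl, h5, h1, h8, h2, h3, h4, h6, (h6 v h9).1, h7, ?_, ?_⟩
  · simp only [List.headI_cons]
    obtain ⟨a, b⟩ := y
    obtain ⟨c, d⟩ := x
    simp only [F0, U, Prod.mk_sub_mk, abs_le] at *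
    omega
  · simp only [List.headI_cons]
    obtain ⟨a, b⟩ := y
    obtain ⟨c, d⟩ := x
    simp only [F0, U, Prod.mk_sub_mk, abs_le] at *
    omega

lemma hon_add_iff {y z : ℤ × ℤ} (hy : (y.1 - y.2) % 3 = 0) : hon (y + z) ↔ hon z := by
  obtain ⟨a, b⟩ := y
  obtain ⟨c, d⟩ := z
  simp only [hon, Prod.mk_add_mk] at *
  omega

lemma adj_add {y x z : ℤ × ℤ} (hy : (y.1 - y.2) % 3 = 0) (h : Adj x z) : Adj (y + x) (y + z) := by
  refine ⟨(hon_add_iff hy).2 h.1, (hon_add_iff hy).2 h.2.1, ?_⟩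
  rw [add_sub_add_left_eq_sub]
  exact h.2.2

lemma mod3_of_F0 {y : ℤ × ℤ} {k : ℕ} (hy : F0 y = 3 * k) : (y.1 - y.2) % 3 = 0 := by
  obtain ⟨a, b⟩ := y
  simp only [F0] at hy
  simp only
  omega

lemma hchain_add {y : ℤ × ℤ} (hy : (y.1 - y.2) % 3 = 0) {P : List (ℤ × ℤ)} (h : HChain P) : HChain (P.map fun z => y + z) := by
  unfold HChain
  rw [List.isChain_map]
  exact List.IsChain.imp (fun _ _ h => adj_add hy h) h

lemma Gl_len (hb : WPath bw) (h : η ∈ FA v D q) : (Gl bw η l).length - 1 = ln l + (η.length - 1) := by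
  obtain ⟨h1, -⟩ := FA_spec h
  unfold Gl
  rw [List.length_append, List.length_map, hb.len, List.length_tail]
  have : 1 ≤ η.length := by rw [h1]; simp
  omega

lemma Gl_eq_cons (hb : WPath bw) : Gl bw η l = (η.headI + ptz l) :: ((bw l).tail.map (fun z => η.headI + z) ++ η.tail) := by
  unfold Gl
  conv_lhs => rw [hb.eq_cons l]
  rfl

lemma Gl_headI (hb : WPath bw) : (Gl bw η l).headI = η.headI + ptz l := by rw [Gl_eq_cons hb]; rfl

lemma Gl_tail (hb : WPath bw) : (Gl bw η l).tail = (bw l).tail.map (fun z => η.headI + z) ++ η.tail := by rw [Gl_eq_cons hb]; rfl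

lemma Gl_head_F0 (hb : WPath bw) (h : η ∈ FA v D q) : F0 (Gl bw η l).headI = 3 * ((q + hj l : ℕ) : ℤ) := by
  rw [Gl_headI hb, F0_add, (FA_spec h).2.2.2.2.2.2.1, F0_ptz]
  push_cast
  ring

lemma Gl_tail_F0 (hb : WPath bw) (h : η ∈ FA v D q) {z : ℤ × ℤ} (hz : z ∈ (Gl bw η l).tail) :
    F0 z < 3 * ((q + hj l : ℕ) : ℤ) := by
  obtain ⟨-, -, -, -, -, -, h1, h2, -⟩ := FA_spec h
  rw [Gl_tail hb, List.mem_append, List.mem_map] at hz
  push_cast
  rcases hz with ⟨u, hu, rfl⟩ | hz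
  · have := (hb.tail_F0 l u hu).2
    rw [F0_add, h1]
    linarith
  · have := (h2 z hz).1
    have h3 : (0 : ℤ) ≤ hj l := by positivity
    linarith

lemma Gl_beg (hb : WPath bw) (h : η ∈ FA v D q) {L : ℕ} (hl : ln l ≤ L) (hD : 1 ≤ D) (hL : D ^ 2 ≤ L) :
    Beg v (50 * L) (Gl bw η l) := by
  obtain ⟨h1, h2, h3, h3', h4, h5, h6, h7, -⟩ := FA_spec h
  have hlen := Gl_len (l := l) hb h
  have hη := FA_wk h
  have h8 : 1 ≤ (Gl bw η l).length := by rw [Gl_eq_cons hb]; simp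
  have hy := mod3_of_F0 h6
  refine ⟨by omega, ?_, ?_, ?_, ?_⟩
  · have h9 : (6 * D + 1) ^ 2 ≤ 49 * D ^ 2 := by nlinarith
    have := hη.2.2.1
    omega
  · unfold Gl
    rw [List.nodup_append]
    refine ⟨(hb.nodup l).map (add_right_injective _), (List.nodup_cons.1 (h1 ▸ h4)).2, ?_⟩
    intro a ha b hb' hab
    obtain ⟨u, hu, rfl⟩ := List.mem_map.1 ha
    have h9 := (h7 b hb').1
    have h10 := hb.F0_nonneg hu
    rw [← hab, F0_add, h6] at h9
    linarith
  · unfold Gl HChain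
    rw [List.isChain_append]
    refine ⟨hchain_add hy (hb.chain l), ?_, ?_⟩
    · rw [h1] at h5
      exact h5.tail
    · intro x hx z hz
      rw [List.getLast?_map, hb.last] at hx
      have hx' : η.headI + o = x := by simpa using hx
      rw [← hx']
      obtain ⟨w, t, ht⟩ := List.exists_cons_of_ne_nil h2
      rw [ht] at hz
      have hz' : w = z := by simpa using hz
      rw [h1, ht] at h5
      have h9 := (List.isChain_cons_cons.1 h5).1
      rw [← hz']
      have e : η.headI + o = η.headI := by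
        have : o = 0 := rfl
        rw [this, add_zero]
      rw [e]
      simpa using h9
  · unfold Gl
    rw [List.getLast?_append_of_ne_nil _ h2]
    exact h3'

lemma Gl_pfr (hb : WPath bw) {q' : ℕ} {η' : List (ℤ × ℤ)} {l' : List Blk} (h : η ∈ FA v D q) (h' : η' ∈ FA v D q')
    (e : q + hj l = q' + hj l') {t : List (ℤ × ℤ)} (ht : t ++ Gl bw η l = Gl bw η' l') : t = [] := by
  by_contra hne
  obtain ⟨a, t, rfl⟩ := List.exists_cons_of_ne_nil hne
  have h1 : (Gl bw η l).headI ∈ (Gl bw η' l').tail := by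
    rw [← ht]
    simp only [List.cons_append, List.tail_cons, List.mem_append]
    right
    rw [Gl_eq_cons hb]
    simp
  have h2 := Gl_tail_F0 hb h' h1
  rw [Gl_head_F0 hb h, e] at h2
  exact lt_irrefl _ h2

/-- Unique decomposition of a list into a part with `F0 ≥ c` and a part with `F0 < c`. -/
lemma app_unique {c : ℤ} {A A' B B' : List (ℤ × ℤ)} (hA : ∀ z ∈ A, c ≤ F0 z) (hA' : ∀ z ∈ A', c ≤ F0 z)
    (hB : ∀ z ∈ B, F0 z < c) (hB' : ∀ z ∈ B', F0 z < c) (h : A ++ B = A' ++ B') : A = A' ∧ B = B' := by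
  rw [List.append_eq_append_iff] at h
  rcases h with ⟨a, h1, h2⟩ | ⟨a, h1, h2⟩
  · rcases a with _ | ⟨x, a⟩
    · simp at h1 h2
      exact ⟨h1.symm, h2⟩
    · exfalso
      have := hA' x (by rw [h1]; simp)
      have := hB x (by rw [h2]; simp)
      linarith
  · rcases a with _ | ⟨x, a⟩
    · simp at h1 h2
      exact ⟨h1, h2.symm⟩
    · exfalso
      have := hA x (by rw [h1]; simp)
      have := hB' x (by rw [h2]; simp)
      linarith

lemma Gl_A_ge (hb : WPath bw) (h : η ∈ FA v D q) : ∀ z ∈ (bw l).map (fun z => η.headI + z), 3 * (q : ℤ) ≤ F0 z := by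
  intro z hz
  obtain ⟨u, hu, rfl⟩ := List.mem_map.1 hz
  have h10 := hb.F0_nonneg hu
  rw [F0_add, (FA_spec h).2.2.2.2.2.2.1]
  linarith

lemma Gl_q_le (hb : WPath bw) {q' : ℕ} {η' : List (ℤ × ℤ)} {l' : List Blk} (h : η ∈ FA v D q) (h' : η' ∈ FA v D q')
    (e : Gl bw η l = Gl bw η' l') : q' ≤ q := by
  by_contra hlt
  rw [not_le] at hlt
  obtain ⟨h1, h2, h3, h3', h4, h5, h6, h7, h8, -⟩ := FA_spec h
  obtain ⟨g1, g2, g3, g3', g4, g5, g6, g7, g8, g9, -⟩ := FA_spec h'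
  refine g9 q hlt h8 ?_
  have hA := Gl_A_ge (l := l) hb h
  have hA' := Gl_A_ge (l := l') hb h'
  have hq : 3 * (q : ℤ) < 3 * q' := by exact_mod_cast (by omega : 3 * q < 3 * q')
  unfold Gl at e
  rw [List.append_eq_append_iff] at e
  rcases e with ⟨a, e1, e2⟩ | ⟨a, e1, e2⟩
  · -- `A' = A ++ a`, `η.tail = a ++ η'.tail`
    rcases a with _ | ⟨x, a⟩
    · rw [List.nil_append] at e2
      refine ⟨[η'.headI], η'.tail, ?_, by simp, ?_, ?_⟩
      · conv_lhs => rw [g1]
        rfl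
      · intro z hz
        rw [List.mem_singleton] at hz
        rw [hz, g6]
        linarith
      · rw [← e2]
        exact fun z hz => (h7 z hz).1
    · exfalso
      have := hA' x (by rw [e1]; simp)
      have := (h7 x (by rw [e2]; simp)).1
      linarith
  · -- `A = A' ++ a`, `η'.tail = a ++ η.tail`
    refine ⟨η'.headI :: a, η.tail, ?_, by simp, ?_, fun z hz => (h7 z hz).1⟩
    · conv_lhs => rw [g1, e2]
      rfl
    · intro z hz
      rw [List.mem_cons] at hz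
      rcases hz with rfl | hz
      · rw [g6]
        linarith
      · exact hA z (by rw [e1]; simp [hz])

/-- The decomposition is unique. -/
lemma Gl_inj (hb : WPath bw) {q' : ℕ} {η' : List (ℤ × ℤ)} {l' : List Blk} (h : η ∈ FA v D q) (h' : η' ∈ FA v D q')
    (e : Gl bw η l = Gl bw η' l') : q = q' ∧ η = η' ∧ l = l' := by
  have hq : q = q' := le_antisymm (Gl_q_le hb h' h e.symm) (Gl_q_le hb h h' e)
  subst hq
  obtain ⟨h1, h2, h3, h3', h4, h5, h6, h7, -⟩ := FA_spec h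
  obtain ⟨g1, g2, g3, g3', g4, g5, g6, g7, -⟩ := FA_spec h'
  obtain ⟨e1, e2⟩ := app_unique (Gl_A_ge hb h) (Gl_A_ge hb h') (fun z hz => (h7 z hz).1) (fun z hz => (g7 z hz).1) e
  have e3 : η.headI = η'.headI := by
    have h8 := congrArg List.getLast? e1
    rw [List.getLast?_map, List.getLast?_map, hb.last, hb.last] at h8
    simpa using h8
  have e4 : η = η' := by rw [h1, g1, e3, e2]
  subst e4
  refine ⟨rfl, rfl, hb.inj ?_⟩
  exact List.map_injective_iff.2 (add_right_injective η.headI) e1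

/-! ### the functional -/

lemma ev_anti {n J : ℕ} {S S' : Set (ℤ × ℤ)} (h : S ⊆ S') : ev n J o' S' ≤ ev n J o' S := by
  unfold ev
  refine ENNReal.div_le_div_right (Finset.sum_le_sum fun j _ => mul_le_mul_right ?_ _) _
  have h1 : Wa o' (n - j) S' ⊆ Wa o' (n - j) S := fun P hP => ⟨hP.1, fun z hz hz' => hP.2 z hz (h hz')⟩
  have h2 : (Wa o' (n - j) S).Finite := (wk_finite (Or.inr rfl) (n - j)).subset fun P hP => hP.1
  exact_mod_cast Set.ncard_le_ncard h1 h2

/-- The functional seen from the end of the word. -/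
lemma ev_turn (hS : ASym) (n J : ℕ) {w : ℤ × ℤ} (hw : (w.1 - w.2) % 3 = 0) (S : Set (ℤ × ℤ)) :
    ev n J w S = ev n J o' ((fun z => w + (-1, 0) - z) '' S) := by
  have h1 := hS n J _ Sy.ro o' ((fun z => w + (-1, 0) - z) '' S) hon_o'
  have h2 := hS n J _ (Sy.tr w.1 w.2 hw) ((-1, 0) - o') ((fun z => (-1, 0) - z) '' ((fun z => w + (-1, 0) - z) '' S)) (by decide)
  rw [← h1, ← h2]
  congr 1
  · have : ((-1, 0) : ℤ × ℤ) - o' = 0 := by decide
    rw [this, zero_add]
  · rw [Set.image_image, Set.image_image]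
    have : (fun z : ℤ × ℤ => ((-1, 0) : ℤ × ℤ) - (w + (-1, 0) - z) + (w.1, w.2)) = id := by
      funext z
      show ((-1, 0) : ℤ × ℤ) - (w + (-1, 0) - z) + w = z
      ring
    rw [this, Set.image_id]

/-- The facts about the reversed words. -/
structure RPath : Prop where
  inv : ∀ l, rvl (rvl l) = l
  hj : ∀ l, HEP.hj (rvl l) = HEP.hj l
  ln : ∀ l, EVN.ln (rvl l) = EVN.ln l
  wj : ∀ l, HEP.wj (rvl l) = HEP.wj l
  ptz : ∀ l, PLY.G.ptz (rvl l) = PLY.G.ptz l
  VL : ∀ l, EVN.VL (rvl l) = (fun z => PLY.G.ptz l + (-1, 0) - z) '' EVN.VL l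

lemma ev_Gl (hS : ASym) (hb : WPath bw) (hr : RPath) (h : η ∈ FA v D q) (n J : ℕ) :
    ev n J o' (VL (rvl l) ∪ Bl (ptz (rvl l)) (2 * D + 2)) ≤ ev n J (Gl bw η l).headI {z | z ∈ (Gl bw η l).tail} := by
  obtain ⟨h1, h2, h3, h3', h4, h5, h6, h7, h8, -, h9, h10⟩ := FA_spec h
  have hw := mod3_of_F0 (Gl_head_F0 (l := l) hb h)
  rw [ev_turn hS n J hw]
  refine ev_anti ?_
  rintro _ ⟨z, hz, rfl⟩
  rw [Set.mem_setOf_eq, Gl_tail hb, List.mem_append] at hz
  rw [Gl_headI hb]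
  rcases hz with hz | hz
  · left
    obtain ⟨u, hu, rfl⟩ := List.mem_map.1 hz
    rw [hr.VL]
    refine ⟨u, (hb.mem_tail l u).1 hu, ?_⟩
    ring
  · right
    rw [hr.ptz]
    show (fun z => η.headI + ptz l + (-1, 0) - z) z - ptz l ∈ Bx (2 * D + 2)
    obtain ⟨h11, h12⟩ := (h7 z hz).2
    have e : (fun z => η.headI + ptz l + (-1, 0) - z) z - ptz l = η.headI + (-1, 0) - z := by
      show η.headI + ptz l + (-1, 0) - z - ptz l = η.headI + (-1, 0) - z
      ring
    rw [e]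
    generalize η.headI = y at *
    obtain ⟨a, b⟩ := y
    obtain ⟨c, d⟩ := z
    simp only [Bx, Set.mem_setOf_eq, F0, Prod.mk_add_mk, Prod.mk_sub_mk, abs_le] at *
    push_cast
    omega

end Pool.Agent.EVN.KO
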