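import Pool.Agent.EVN.K.OneA

/-!
EVN, block K, contract `KOne`, part B: the sums. `kone_of`: the contract from `AEq`, `ASym`, the polynomial bound, the facts about the paths of words.
-/

namespace Pool.Agent.EVN.KO

open Pool.Agent.Hhelper14.SAW Pool.Agent.HHP Pool.Agent.HEP Pool.Agent.PLY.G Pool.Agent.BEX.F
open scoped ENNReal

lemma wj_eq_ln (l : List Blk) : wj l = xE ^ ln l := by
  induction l with
  | nil => rfl
  | cons c l ih =>
    have h1 : wj (c :: l) = xE ^ (c.1.length + 1) * wj l := by simp [wj]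
    have h2 : ln (c :: l) = (c.1.length + 1) + ln l := by simp [ln]
    rw [h1, ih, h2, ← pow_add]

/-- The sum `ph` for one mixture. -/
noncomputable def phE (n J L r h : ℕ) : ℝ≥0∞ :=
  ∑' l : List Blk, ind (hj l = h ∧ ln l ≤ L) * (wj l * ev n J o' (VL l ∪ Bl (ptz l) r))

lemma two_ph {n n' J : ℕ} {𝓛 : Law} (h : IsEv n n' J 𝓛) (L r k : ℕ) :
    2 * ph 𝓛 L r k = phE n J L r k + phE n' J L r k := by
  unfold ph phE
  rw [← ENNReal.tsum_mul_left, ← ENNReal.tsum_add]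
  refine tsum_congr fun l => ?_
  have h1 := h (VL l ∪ Bl (ptz l) r)
  calc 2 * (ind (hj l = k ∧ ln l ≤ L) * (wj l * 𝓛.av (VL l ∪ Bl (ptz l) r)))
      = ind (hj l = k ∧ ln l ≤ L) * (wj l * (2 * 𝓛.av (VL l ∪ Bl (ptz l) r))) := by ring
    _ = _ := by rw [h1]; ring

lemma tsum_sub_ind {α : Type*} (p : α → Prop) (f : α → ℝ≥0∞) : ∑' x : {x // p x}, f x.1 = ∑' x, ind (p x) * f x := by
  classical
  have h := tsum_subtype {x | p x} f
  have h1 : ∑' x : {x // p x}, f x.1 = ∑' x : ({x | p x} : Set α), f x := rfl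
  rw [h1, h]
  refine tsum_congr fun x => ?_
  by_cases hx : p x
  · rw [ind_true hx, one_mul, Set.indicator_of_mem (by exact hx)]
  · rw [ind_false hx, zero_mul, Set.indicator_of_notMem (by exact hx)]

/-- The turned sum over words. -/
noncomputable def Tq (n J L r q k : ℕ) : ℝ≥0∞ :=
  ∑' l : {l : List Blk // q + hj l = k ∧ ln l ≤ L}, wj l.1 * ev n J o' (VL (rvl l.1) ∪ Bl (ptz (rvl l.1)) r)

lemma Tq_eq (hr : RPath) (n J L r q h : ℕ) : Tq n J L r q (q + h) = phE n J L r h := by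
  unfold Tq phE
  rw [tsum_sub_ind (fun l => q + hj l = q + h ∧ ln l ≤ L) fun l => wj l * ev n J o' (VL (rvl l) ∪ Bl (ptz (rvl l)) r)]
  let e : List Blk ≃ List Blk := ⟨rvl, rvl, hr.inv, hr.inv⟩
  rw [← e.tsum_eq]
  refine tsum_congr fun l => ?_
  show ind (q + hj (rvl l) = q + h ∧ ln (rvl l) ≤ L) * (wj (rvl l) * ev n J o' (VL (rvl (rvl l)) ∪ Bl (ptz (rvl (rvl l))) r)) = _
  rw [hr.inv, hr.hj, hr.ln, hr.wj]
  congr 1
  exact ind_congr ⟨fun h => ⟨by omega, h.2⟩, fun h => ⟨by omega, h.2⟩⟩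

variable {bw : List Blk → List (ℤ × ℤ)} {v : ℤ × ℤ} {D N L k : ℕ}

/-- The index set of the glued paths with end in the column `k`. -/
abbrev Ix (v : ℤ × ℤ) (D N L k : ℕ) : Type :=
  Σ q : Fin (N + 1), (FA v D q) × {l : List Blk // (q : ℕ) + hj l = k ∧ ln l ≤ L}

/-- The glued path. -/
def Gm (bw : List Blk → List (ℤ × ℤ)) (i : Ix v D N L k) : List (ℤ × ℤ) := Gl bw i.2.1.1 i.2.2.1

lemma Gm_inj (hb : WPath bw) : Function.Injective (Gm (v := v) (D := D) (N := N) (L := L) (k := k) bw) := by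
  rintro ⟨⟨q, hq⟩, ⟨η, hη⟩, ⟨l, hl⟩⟩ ⟨⟨q', hq'⟩, ⟨η', hη'⟩, ⟨l', hl'⟩⟩ h
  obtain ⟨h1, h2, h3⟩ := Gl_inj hb hη hη' h
  simp only at h1
  subst h1 h2 h3
  rfl

/-- The family. -/
def Xk (bw : List Blk → List (ℤ × ℤ)) (v : ℤ × ℤ) (D N L k : ℕ) : Set (List (ℤ × ℤ)) :=
  Set.range (Gm (v := v) (D := D) (N := N) (L := L) (k := k) bw)

lemma Xk_pfr (hb : WPath bw) : PFr (Xk bw v D N L k) := by
  rintro _ ⟨⟨q, ⟨η, hη⟩, ⟨l, hl⟩⟩, rfl⟩ t ⟨⟨q', ⟨η', hη'⟩, ⟨l', hl'⟩⟩, ht⟩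
  exact Gl_pfr hb hη hη' (hl.1.trans hl'.1.symm) ht.symm

lemma Xk_beg (hb : WPath bw) (hD : 1 ≤ D) (hL : D ^ 2 ≤ L) : ∀ η ∈ Xk bw v D N L k, Beg v (50 * L) η := by
  rintro _ ⟨⟨q, ⟨η, hη⟩, ⟨l, hl⟩⟩, rfl⟩
  exact Gl_beg hb hη hl.2 hD hL

lemma Xk_tsum (hb : WPath bw) (g : List (ℤ × ℤ) → ℝ≥0∞) :
    ∑' P : Xk bw v D N L k, g P.1 = ∑' i : Ix v D N L k, g (Gm bw i) :=
  ((Equiv.ofInjective _ (Gm_inj hb)).tsum_eq fun P : Xk bw v D N L k => g P.1).symm

lemma Ix_tsum (f : ∀ q : Fin (N + 1), FA v D q → ℝ≥0∞) (g : List Blk → ℝ≥0∞) :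
    ∑' i : Ix v D N L k, f i.1 i.2.1 * g i.2.2.1 =
      ∑ q : Fin (N + 1), (∑' η : FA v D q, f q η) * ∑' l : {l : List Blk // (q : ℕ) + hj l = k ∧ ln l ≤ L}, g l.1 := by
  rw [ENNReal.tsum_sigma', tsum_fintype]
  refine Finset.sum_congr rfl fun q _ => ?_
  rw [ENNReal.tsum_prod', ← ENNReal.tsum_mul_right]
  refine tsum_congr fun η => ?_
  rw [← ENNReal.tsum_mul_left]

lemma Sv_ge (hS : ASym) (hb : WPath bw) (hr : RPath) (n J : ℕ) :
    ∑ q ∈ Finset.range (N + 1), Fm v D q * Tq n J L (2 * D + 2) q k ≤ Sv n J (Xk bw v D N L k) := by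
  have e := Ix_tsum (v := v) (D := D) (N := N) (L := L) (k := k) (fun q η => xE ^ (η.1.length - 1))
    (fun l => wj l * ev n J o' (VL (rvl l) ∪ Bl (ptz (rvl l)) (2 * D + 2)))
  have e1 : ∑ q ∈ Finset.range (N + 1), Fm v D q * Tq n J L (2 * D + 2) q k =
      ∑' i : Ix v D N L k, xE ^ (i.2.1.1.length - 1) *
        (wj i.2.2.1 * ev n J o' (VL (rvl i.2.2.1) ∪ Bl (ptz (rvl i.2.2.1)) (2 * D + 2))) := by
    rw [e, Finset.sum_range]
    rfl
  have e2 : Sv n J (Xk bw v D N L k) = ∑' i : Ix v D N L k,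
      xE ^ ((Gm bw i).length - 1) * ev n J (Gm bw i).headI {z | z ∈ (Gm bw i).tail} :=
    Xk_tsum hb fun P => xE ^ (P.length - 1) * ev n J P.headI {z | z ∈ P.tail}
  rw [e1, e2]
  refine ENNReal.tsum_le_tsum fun i => ?_
  have h1 : (Gm bw i).length - 1 = ln i.2.2.1 + (i.2.1.1.length - 1) := Gl_len hb i.2.1.2
  rw [h1, pow_add, wj_eq_ln]
  have h2 : ev n J o' (VL (rvl i.2.2.1) ∪ Bl (ptz (rvl i.2.2.1)) (2 * D + 2)) ≤
      ev n J (Gm bw i).headI {z | z ∈ (Gm bw i).tail} := ev_Gl hS hb hr i.2.1.2 n J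
  calc _ = xE ^ ln i.2.2.1 * xE ^ (i.2.1.1.length - 1) *
        ev n J o' (VL (rvl i.2.2.1) ∪ Bl (ptz (rvl i.2.2.1)) (2 * D + 2)) := by ring
    _ ≤ _ := mul_le_mul_right h2 _

lemma words_le_one (q k L : ℕ) : ∑' l : {l : List Blk // q + hj l = k ∧ ln l ≤ L}, wj l.1 ≤ 1 := by
  rw [tsum_sub_ind (fun l => q + hj l = k ∧ ln l ≤ L) fun l => wj l]
  refine le_trans ?_ (hsI.b_le_one (k - q))
  exact ENNReal.tsum_le_tsum fun l => mul_le_mul_left (ind_mono fun h => by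
    show hj l = k - q
    omega) _

lemma mass0_le (hb : WPath bw) : mass0 (Xk bw v D N L k) ≤ FM v D N := by
  have e := Ix_tsum (v := v) (D := D) (N := N) (L := L) (k := k) (fun q η => xE ^ (η.1.length - 1)) (fun l => wj l)
  have e1 : mass0 (Xk bw v D N L k) = ∑' i : Ix v D N L k, xE ^ (i.2.1.1.length - 1) * wj i.2.2.1 := by
    unfold mass0
    rw [Xk_tsum hb fun P => xE ^ (P.length - 1)]
    refine tsum_congr fun i => ?_
    have h1 : (Gm bw i).length - 1 = ln i.2.2.1 + (i.2.1.1.length - 1) := Gl_len hb i.2.1.2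
    rw [h1, pow_add, wj_eq_ln, mul_comm]
  rw [e1, e, FM_eq, Finset.sum_range]
  refine Finset.sum_le_sum fun q _ => ?_
  calc _ ≤ (∑' η : FA v D q, xE ^ (η.1.length - 1)) * 1 := mul_le_mul_right (words_le_one _ _ _) _
    _ = _ := mul_one _

/-- One mixture. -/
theorem kone_one (hb : WPath bw) (hr : RPath) (hS : ASym) {n J C : ℕ} (hv : v = o ∨ v = o')
    (hA : ∀ X : Set (List (ℤ × ℤ)), PFr X → (∀ η ∈ X, Beg v (50 * L) η) →
      Sv n J X ≤ Vm n J v X + C * ((50 * L : ℕ) / J) * mass0 X) (hD : 1 ≤ D) (hL : D ^ 2 ≤ L) (M : ℕ) :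
    FM v D N * ∑ h ∈ Finset.range M, phE n J L (2 * D + 2) h ≤
      (M + N : ℕ) * (1 + C * ((50 * L : ℕ) / J) * FM v D N) := by
  have h1 : ∀ k : ℕ, ∑ q ∈ Finset.range (N + 1), Fm v D q * Tq n J L (2 * D + 2) q k ≤
      1 + C * ((50 * L : ℕ) / J) * FM v D N := by
    intro k
    refine (Sv_ge hS hb hr n J).trans ((hA _ (Xk_pfr hb) (Xk_beg hb hD hL)).trans ?_)
    exact add_le_add (vm_le_one hv _ _ _) (mul_le_mul_right (mass0_le hb) _)
  calc FM v D N * ∑ h ∈ Finset.range M, phE n J L (2 * D + 2) h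
      = ∑ q ∈ Finset.range (N + 1), ∑ h ∈ Finset.range M, Fm v D q * Tq n J L (2 * D + 2) q (q + h) := by
        rw [FM_eq, Finset.sum_mul]
        refine Finset.sum_congr rfl fun q _ => ?_
        rw [Finset.mul_sum]
        exact Finset.sum_congr rfl fun h _ => by rw [Tq_eq hr]
    _ ≤ ∑ q ∈ Finset.range (N + 1), ∑ k ∈ Finset.range (M + N), Fm v D q * Tq n J L (2 * D + 2) q k := by
        refine Finset.sum_le_sum fun q hq => ?_
        rw [Finset.mem_range] at hq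
        have h2 : ∑ h ∈ Finset.range M, Fm v D q * Tq n J L (2 * D + 2) q (q + h) =
            ∑ k ∈ (Finset.range M).map (addLeftEmbedding q), Fm v D q * Tq n J L (2 * D + 2) q k := by
          rw [Finset.sum_map]
          rfl
        rw [h2]
        refine Finset.sum_le_sum_of_subset fun k hk => ?_
        rw [Finset.mem_map] at hk
        obtain ⟨h, hh, rfl⟩ := hk
        rw [Finset.mem_range] at hh ⊢
        show q + h < M + N
        omega
    _ = ∑ k ∈ Finset.range (M + N), ∑ q ∈ Finset.range (N + 1), Fm v D q * Tq n J L (2 * D + 2) q k := Finset.sum_comm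
    _ ≤ ∑ k ∈ Finset.range (M + N), (1 + C * ((50 * L : ℕ) / J) * FM v D N) := Finset.sum_le_sum fun k _ => h1 k
    _ = _ := by rw [Finset.sum_const, Finset.card_range, nsmul_eq_mul]

/-- THE CONTRACT `KOne`. -/
theorem kone_of (hb : WPath bw) (hr : RPath) (hA : AEq) (hS : ASym) (hP : PolyA) : KOne := by
  obtain ⟨C, n0, hA⟩ := hA
  obtain ⟨C1, K1, hF⟩ := FM_poly hP
  refine ⟨C * 50 * C1, max 50 K1, n0, fun n n' J D N M L 𝓛 v hv hadm hnn hE hD hN hL hJ => ?_⟩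
  have hK : 50 * L ≤ J := le_trans (Nat.mul_le_mul_right _ (le_max_left _ _)) hJ
  have hadm' : Adm n0 n' J := ⟨hadm.1.trans hnn, hadm.2.1, hadm.2.2.trans hnn⟩
  have h1 := kone_one (D := D) (N := N) (L := L) hb hr hS hv (fun X hX hX' => (hA n J (50 * L) hadm hK v hv X hX hX').1) hD hL M
  have h2 := kone_one (D := D) (N := N) (L := L) hb hr hS hv (fun X hX hX' => (hA n' J (50 * L) hadm' hK v hv X hX hX').1) hD hL M
  have h3 : C * ((50 * L : ℕ) / J) * FM v D N ≤ ((C * 50 * C1 : ℕ) : ℝ≥0∞) * ((D : ℝ≥0∞) ^ (max 50 K1) * (L / J)) := by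
    calc (C : ℝ≥0∞) * ((50 * L : ℕ) / J) * FM v D N ≤ C * ((50 * L : ℕ) / J) * (C1 * (D : ℝ≥0∞) ^ K1) := by
          gcongr
          exact hF v hv D N hD
      _ ≤ C * ((50 * L : ℕ) / J) * (C1 * (D : ℝ≥0∞) ^ (max 50 K1)) := by
          gcongr
          · exact_mod_cast hD
          · exact le_max_right _ _
      _ = _ := by
          push_cast
          rw [ENNReal.div_eq_inv_mul, ENNReal.div_eq_inv_mul]
          ring
  refine (ENNReal.mul_le_mul_iff_right two_ne_zero ENNReal.ofNat_ne_top).1 ?_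
  calc 2 * (FM v D N * ∑ h ∈ Finset.range M, ph 𝓛 L (2 * D + 2) h)
      = FM v D N * ∑ h ∈ Finset.range M, phE n J L (2 * D + 2) h + FM v D N * ∑ h ∈ Finset.range M, phE n' J L (2 * D + 2) h := by
        rw [← mul_add, ← Finset.sum_add_distrib, mul_left_comm, Finset.mul_sum]
        congr 1
        exact Finset.sum_congr rfl fun h _ => two_ph hE _ _ _
    _ ≤ (M + N : ℕ) * (1 + C * ((50 * L : ℕ) / J) * FM v D N) + (M + N : ℕ) * (1 + C * ((50 * L : ℕ) / J) * FM v D N) := add_le_add h1 h2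
    _ = 2 * ((M + N : ℕ) * (1 + C * ((50 * L : ℕ) / J) * FM v D N)) := by ring
    _ ≤ _ := by
        refine mul_le_mul_right (mul_le_mul' ?_ (add_le_add le_rfl h3)) _
        exact_mod_cast Nat.le_succ _

end Pool.Agent.EVN.KO
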