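import Pool.Agent.EVN.Stmt
import Pool.Agent.Hhelper14.SAW.TnLow

/-!
EVN, block K, contract `KOne`, part C: the number of walks from `o` and `o'`, `Vm ≤ 1`, the mass of the arms.
-/

namespace Pool.Agent.EVN.KO

open Pool.Agent.Hhelper14.SAW Pool.Agent.HHP Pool.Agent.HEP Pool.Agent.PLY.G Pool.Agent.BEX.F
open scoped ENNReal

/-- The polynomial bound, as an input. -/
def PolyA : Prop := ∃ K : ℕ, ∀ m : ℕ, xE ^ m * (an m : ℝ≥0∞) ≤ (K : ℝ≥0∞) * ((m + 1 : ℕ) : ℝ≥0∞) ^ K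

/-- The rotation by 180 degrees which exchanges `o` and `o'`. -/
def rt2 (z : ℤ × ℤ) : ℤ × ℤ := (-1, 0) - z

@[simp] lemma rt2_rt2 (z : ℤ × ℤ) : rt2 (rt2 z) = z := by unfold rt2; rw [sub_sub_cancel]

lemma rt2_inj : Function.Injective rt2 := fun x y h => by rw [← rt2_rt2 x, h, rt2_rt2]

lemma rt2_o : rt2 o = o' := by decide

lemma rt2_o' : rt2 o' = o := by decide

lemma hon_rt2 {z : ℤ × ℤ} : hon (rt2 z) ↔ hon z := by
  obtain ⟨a, b⟩ := z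
  simp only [hon, rt2, Prod.mk_sub_mk]
  omega

lemma adj_rt2 {x y : ℤ × ℤ} : Adj (rt2 x) (rt2 y) ↔ Adj x y := by
  have h : ∀ {x y : ℤ × ℤ}, Adj x y → Adj (rt2 x) (rt2 y) := by
    intro x y h
    refine ⟨hon_rt2.2 h.1, hon_rt2.2 h.2.1, ?_⟩
    have e : rt2 x - rt2 y = y - x := by unfold rt2; ring
    rw [e]
    exact h.2.2.symm
  exact ⟨fun h' => by simpa using h h', h⟩

lemma hchain_rt2 {P : List (ℤ × ℤ)} : HChain (P.map rt2) ↔ HChain P := by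
  unfold HChain
  rw [List.isChain_map]
  constructor
  · exact List.IsChain.imp fun _ _ h => adj_rt2.1 h
  · exact List.IsChain.imp fun _ _ h => adj_rt2.2 h

lemma wk_rt2 {v : ℤ × ℤ} {m : ℕ} {P : List (ℤ × ℤ)} : P.map rt2 ∈ Wk (rt2 v) m ↔ P ∈ Wk v m := by
  unfold Wk
  simp only [Set.mem_ofPred_eq, List.length_map, List.nodup_map_iff rt2_inj, hchain_rt2, List.getLast?_map,
    Option.map_eq_some_iff]
  constructor
  · rintro ⟨h1, h2, h3, a, h4, h5⟩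
    exact ⟨h1, h2, h3, by rw [h4, rt2_inj h5]⟩
  · rintro ⟨h1, h2, h3, h4⟩
    exact ⟨h1, h2, h3, v, h4, rfl⟩

lemma map_rt2_rt2 (P : List (ℤ × ℤ)) : (P.map rt2).map rt2 = P := by
  rw [List.map_map]
  have : (rt2 ∘ rt2) = id := funext fun z => rt2_rt2 z
  rw [this, List.map_id]

lemma wk_image (m : ℕ) : Wk o' m = (List.map rt2) '' (Wk o m) := by
  ext P
  constructor
  · intro h
    refine ⟨P.map rt2, ?_, map_rt2_rt2 P⟩
    rw [← rt2_o', wk_rt2]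
    exact h
  · rintro ⟨Q, h, rfl⟩
    rw [← rt2_o, wk_rt2]
    exact h

lemma wk_o_finite (m : ℕ) : (Wk o m).Finite := walk_finite m

lemma wk_finite {v : ℤ × ℤ} (hv : v = o ∨ v = o') (m : ℕ) : (Wk v m).Finite := by
  rcases hv with rfl | rfl
  · exact wk_o_finite m
  · rw [wk_image]
    exact (wk_o_finite m).image _

lemma wk_ncard {v : ℤ × ℤ} (hv : v = o ∨ v = o') (m : ℕ) : (Wk v m).ncard = (Wk o m).ncard := by
  rcases hv with rfl | rfl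
  · rfl
  · rw [wk_image, Set.ncard_image_of_injective _ (List.map_injective_iff.2 rt2_inj)]

lemma wk_ncard_an {v : ℤ × ℤ} (hv : v = o ∨ v = o') (m : ℕ) : (Wk v m).ncard = an m := wk_ncard hv m

lemma vm_le_one {v : ℤ × ℤ} (hv : v = o ∨ v = o') (n J : ℕ) (X : Set (List (ℤ × ℤ))) : Vm n J v X ≤ 1 := by
  unfold Vm
  refine ENNReal.div_le_of_le_mul ?_
  rw [one_mul]
  unfold Az
  refine Finset.sum_le_sum fun j _ => mul_le_mul_right ?_ _
  rw [← wk_ncard hv]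
  have h1 : ({w | w ∈ Wk v (n - j) ∧ ∃ t, ∃ η ∈ X, w = t ++ η} : Set (List (ℤ × ℤ))) ⊆ Wk v (n - j) := fun w h => h.1
  exact_mod_cast Set.ncard_le_ncard h1 (wk_finite hv _)

/-! ### the mass of the arms -/

/-- Mass of the arms to the column `q`. -/
noncomputable def Fm (v : ℤ × ℤ) (D q : ℕ) : ℝ≥0∞ := ∑' η : FA v D q, xE ^ (η.1.length - 1)

lemma FM_eq (v : ℤ × ℤ) (D N : ℕ) : FM v D N = ∑ q ∈ Finset.range (N + 1), Fm v D q := rfl

lemma length_le_of_Bx {D : ℕ} {P : List (ℤ × ℤ)} (hn : P.Nodup) (h : ∀ z ∈ P, z ∈ Bx D) : P.length ≤ (6 * D + 1) ^ 2 := by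
  have h1 : P.toFinset ⊆ Finset.Icc (-(3 * (D : ℤ))) (3 * D) ×ˢ Finset.Icc (-(3 * (D : ℤ))) (3 * D) := by
    intro z hz
    rw [List.mem_toFinset] at hz
    obtain ⟨h2, h3⟩ := h z hz
    rw [Finset.mem_product, Finset.mem_Icc, Finset.mem_Icc]
    obtain ⟨a, b⟩ := z
    simp only [F0] at h2 h3
    rw [abs_le] at h2 h3
    simp only
    omega
  have h2 := Finset.card_le_card h1
  rw [List.toFinset_card_of_nodup hn, Finset.card_product, Int.card_Icc] at h2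
  refine h2.trans (le_of_eq ?_)
  have : (3 * (D : ℤ) + 1 - -(3 * (D : ℤ))).toNat = 6 * D + 1 := by omega
  rw [this, sq]

lemma FA_wk {v : ℤ × ℤ} {D q : ℕ} {η : List (ℤ × ℤ)} (h : η ∈ FA v D q) :
    η ∈ Wk v (η.length - 1) ∧ 2 ≤ η.length ∧ η.length ≤ (6 * D + 1) ^ 2 + 1 ∧ F0 η.headI = 3 * q := by
  obtain ⟨y, η', rfl, h1, h2, h3, h4, h5, h6, -⟩ := h
  have h7 : 1 ≤ η'.length := List.length_pos_of_ne_nil h5
  refine ⟨⟨?_, h2, h3, h1⟩, ?_, ?_, h4⟩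
  · simp
  · simp only [List.length_cons]; omega
  · rw [List.length_cons]
    exact Nat.succ_le_succ (length_le_of_Bx (List.nodup_cons.1 h2).2 fun z hz => (h6 z hz).2)

lemma tsum_const_set {α : Type*} {s : Set α} (hs : s.Finite) (c : ℝ≥0∞) : ∑' _ : s, c = c * (s.ncard : ℝ≥0∞) := by
  have := hs.fintype
  rw [tsum_fintype, Finset.sum_const, Finset.card_univ, nsmul_eq_mul, mul_comm, ← Nat.card_eq_fintype_card]
  rfl

/-- The mass of the arms is at most the mass of the walks of at most `(6 D + 1)^2` steps. -/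
lemma FM_le {v : ℤ × ℤ} (hv : v = o ∨ v = o') (D N : ℕ) :
    FM v D N ≤ ∑ m ∈ Finset.range ((6 * D + 1) ^ 2 + 1), xE ^ m * (an m : ℝ≥0∞) := by
  have e1 : FM v D N = ∑' p : (Σ q : Fin (N + 1), FA v D q), xE ^ (p.2.1.length - 1) := by
    rw [ENNReal.tsum_sigma', tsum_fintype, FM_eq, Finset.sum_range]
    rfl
  have e2 : ∑ m ∈ Finset.range ((6 * D + 1) ^ 2 + 1), xE ^ m * (an m : ℝ≥0∞) =
      ∑' p : (Σ m : Fin ((6 * D + 1) ^ 2 + 1), Wk v m), xE ^ (p.2.1.length - 1) := by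
    rw [ENNReal.tsum_sigma', tsum_fintype, Finset.sum_range]
    refine Finset.sum_congr rfl fun m _ => ?_
    rw [← wk_ncard_an hv, ← tsum_const_set (wk_finite hv m)]
    refine tsum_congr fun P => ?_
    rw [P.2.1, Nat.add_sub_cancel]
  rw [e1, e2]
  let f : (Σ q : Fin (N + 1), FA v D q) → (Σ m : Fin ((6 * D + 1) ^ 2 + 1), Wk v m) := fun p =>
    ⟨⟨p.2.1.length - 1, by have := (FA_wk p.2.2).2.2.1; omega⟩, ⟨p.2.1, (FA_wk p.2.2).1⟩⟩
  have hf : Function.Injective f := by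
    rintro ⟨⟨q, hq⟩, ⟨η, hη⟩⟩ ⟨⟨q', hq'⟩, ⟨η', hη'⟩⟩ h
    have h1 : η = η' := by
      have h2 := congrArg (fun p : (Σ m : Fin ((6 * D + 1) ^ 2 + 1), Wk v m) => (p.2.1 : List (ℤ × ℤ))) h
      exact h2
    subst h1
    have h3 : q = q' := by
      have h4 := (FA_wk hη).2.2.2
      have h5 := (FA_wk hη').2.2.2
      simp only at h4 h5
      omega
    subst h3
    rfl
  exact ENNReal.tsum_comp_le_tsum_of_injective hf fun p => xE ^ (p.2.1.length - 1)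

/-- Polynomial bound of the mass of the arms. -/
lemma FM_poly (hP : PolyA) : ∃ C K : ℕ, ∀ v : ℤ × ℤ, (v = o ∨ v = o') → ∀ D N : ℕ, 1 ≤ D →
    FM v D N ≤ (C : ℝ≥0∞) * (D : ℝ≥0∞) ^ K := by
  obtain ⟨K, hK⟩ := hP
  refine ⟨50 * (K * 50 ^ K), 2 + 2 * K, fun v hv D N hD => (FM_le hv D N).trans ?_⟩
  have hM : (6 * D + 1) ^ 2 + 1 ≤ 50 * D ^ 2 := by nlinarith
  calc ∑ m ∈ Finset.range ((6 * D + 1) ^ 2 + 1), xE ^ m * (an m : ℝ≥0∞)
      ≤ ∑ m ∈ Finset.range ((6 * D + 1) ^ 2 + 1), (K : ℝ≥0∞) * ((50 * D ^ 2 : ℕ) : ℝ≥0∞) ^ K := by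
        refine Finset.sum_le_sum fun m hm => (hK m).trans ?_
        rw [Finset.mem_range] at hm
        gcongr
        omega
    _ = (((6 * D + 1) ^ 2 + 1 : ℕ) : ℝ≥0∞) * ((K : ℝ≥0∞) * ((50 * D ^ 2 : ℕ) : ℝ≥0∞) ^ K) := by
        rw [Finset.sum_const, Finset.card_range, nsmul_eq_mul]
    _ ≤ ((50 * D ^ 2 : ℕ) : ℝ≥0∞) * ((K : ℝ≥0∞) * ((50 * D ^ 2 : ℕ) : ℝ≥0∞) ^ K) := by
        gcongr
    _ = _ := by
        push_cast
        rw [mul_pow, ← pow_mul, pow_add]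
        ring

end Pool.Agent.EVN.KO
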