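import Pool.Agent.EVN.Stmt

/-!
Project EVN, block K1 (helper63): words as paths. `pw l` = the path of the word (latest vertex first, `ln l` vertices), `bw l` = the same with the
next vertex `ptz l` at the head (`ln l + 1` vertices, last vertex `o`); paths in the columns `≥ 0` which arrive in the column `k` are `bw l`;
the word turned by 180 degrees; symmetries and monotonicity of `ev`.
-/

namespace Pool.Agent.EVN.KW

open Pool.Agent.Hhelper14.SAW Pool.Agent.HHP Pool.Agent.HEP Pool.Agent.PLY.G Pool.Agent.BEX.F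
open scoped ENNReal

/-- The path of the word, latest vertex first. -/
def pw : List Blk → List (ℤ × ℤ)
  | [] => []
  | c :: l => (V (jn (c :: l))).reverse

/-- The path of the word with the next vertex. -/
def bw (l : List Blk) : List (ℤ × ℤ) := ptz l :: pw l

/-! ### paths of words -/

theorem ln_append (l m : List Blk) : ln (l ++ m) = ln l + ln m := by
  unfold ln
  rw [List.map_append, List.sum_append]

lemma ln_nil : ln [] = 0 := rfl

lemma ln_cons (c : Blk) (l : List Blk) : ln (c :: l) = c.1.length + 1 + ln l := by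
  unfold ln
  rw [List.map_cons, List.sum_cons]

theorem wj_ln (l : List Blk) : wj l = xE ^ ln l := by
  induction l with
  | nil => rw [wj_nil, ln_nil, pow_zero]
  | cons c l ih => rw [wj_cons, ln_cons, ih, ← pow_add]

theorem ln_pos {l : List Blk} (hl : l ≠ []) : 1 ≤ ln l := by
  cases l with
  | nil => exact absurd rfl hl
  | cons c l => rw [ln_cons]; omega

private lemma pw_ne {l : List Blk} (hl : l ≠ []) : pw l = (V (jn l)).reverse := by
  cases l with
  | nil => exact absurd rfl hl
  | cons c l => rfl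

theorem mem_pw {l : List Blk} {z : ℤ × ℤ} : z ∈ pw l ↔ z ∈ VL l := by
  by_cases hl : l = []
  · subst hl
    constructor
    · intro h
      exact absurd h (by simp [pw])
    · rintro ⟨l1, c, l2, u, h, -⟩
      simp at h
  · rw [pw_ne hl, List.mem_reverse, mem_jn hl]
    rfl

theorem pw_nodup (l : List Blk) : (pw l).Nodup := by
  by_cases hl : l = []
  · subst hl
    exact List.nodup_nil
  · rw [pw_ne hl, List.nodup_reverse]
    exact (jn_Br hl).1.1

private lemma OneW_dom : Dom (fun z : ℤ × ℤ => hon z ∧ 0 ≤ F0 z) := by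
  refine ⟨⟨by decide, by decide⟩, fun x h => h.1, fun x h => ?_⟩
  have := h.2
  simp only [slit, F0] at *
  omega

theorem pw_F0 {l : List Blk} {z : ℤ × ℤ} (hz : z ∈ pw l) : 0 ≤ F0 z ∧ F0 z < 3 * (hj l : ℤ) := by
  by_cases hl : l = []
  · subst hl
    exact absurd hz (by simp [pw])
  · rw [pw_ne hl, List.mem_reverse] at hz
    have h1 := (jn_Br hl).1.2 z hz
    have h2 := hj_pos hl
    constructor
    · exact h1.1
    · have := h1.2
      omega

private lemma OneW_honF {z : ℤ × ℤ} : hon z ↔ F0 z % 3 ≠ 2 := by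
  unfold hon F0
  omega

theorem pw_chain (l : List Blk) : HChain (pw l) := by
  by_cases hl : l = []
  · subst hl
    exact List.isChain_nil
  · rw [pw_ne hl]
    have hs := isSaw_toL OneW_dom (jn_Br hl).1.1 fun z hz => ⟨V_hon hz, ((jn_Br hl).1.2 z hz).1⟩
    have h4 := hs.2.2.1
    unfold toL at h4
    exact (List.isChain_append.1 h4).1

private lemma jn_ln {l : List Blk} (hl : l ≠ []) : (jn l).length + 1 = ln l := by
  induction l with
  | nil => exact absurd rfl hl
  | cons c l ih =>
    by_cases h : l = []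
    · subst h
      rw [jn_single, ln_cons, ln_nil, add_zero]
    · rw [jn_cons h, ln_cons, ← ih h]
      simp only [List.length_append, List.length_cons]
      omega

theorem pw_length (l : List Blk) : (pw l).length = ln l := by
  by_cases hl : l = []
  · subst hl
    rfl
  · rw [pw_ne hl, List.length_reverse]
    unfold V
    rw [vs_length, jn_ln hl]

theorem pw_last {l : List Blk} (hl : l ≠ []) : (pw l).getLast? = some o := by
  rw [pw_ne hl, List.getLast?_reverse]
  unfold V
  rw [vs_head?]
  rfl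

private lemma jn_E' {l : List Blk} (hl : l ≠ []) : E (jn l) + (1, 0) = ptz l := by
  induction l with
  | nil => exact absurd rfl hl
  | cons c l ih =>
    by_cases h : l = []
    · subst h
      rw [jn_single, ptz_cons, ptz_nil, add_zero]
    · rw [jn_cons h, ptz_cons, (app_right c.2.br.tn_rt).2.1, ← ih h]
      ring

theorem pw_head {l : List Blk} (hl : l ≠ []) : ∃ t, pw l = (ptz l - (1, 0)) :: t := by
  obtain ⟨r, hr⟩ := toL_cases (jn l)
  have h1 : (toL (jn l)).head? = some (E (jn l)) := by rw [hr]; rfl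
  unfold toL at h1
  have h2 : (V (jn l)).reverse ≠ [] := by
    unfold V
    intro h
    have := congrArg List.length h
    rw [List.length_reverse, vs_length] at this
    simp at this
  rw [pw_ne hl, ← jn_E' hl, add_sub_cancel_right]
  cases hV : (V (jn l)).reverse with
  | nil => exact absurd hV h2
  | cons a t =>
    rw [hV] at h1
    simp only [List.cons_append, List.head?_cons, Option.some.injEq] at h1
    rw [h1]
    exact ⟨t, rfl⟩

theorem VL_F0 {l : List Blk} {z : ℤ × ℤ} (hz : z ∈ VL l) : 0 ≤ F0 z ∧ F0 z < 3 * (hj l : ℤ) := pw_F0 (mem_pw.2 hz)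

theorem hon_ptz (l : List Blk) : hon (ptz l) := by
  rw [OneW_honF, F0_ptz]
  omega

theorem bw_nodup (l : List Blk) : (bw l).Nodup := by
  unfold bw
  refine List.nodup_cons.2 ⟨fun h => ?_, pw_nodup l⟩
  have := (pw_F0 h).2
  rw [F0_ptz] at this
  exact lt_irrefl _ this

theorem bw_chain (l : List Blk) : HChain (bw l) := by
  by_cases hl : l = []
  · subst hl
    exact List.isChain_singleton _
  · obtain ⟨t, ht⟩ := pw_head hl
    have h1 := pw_chain l
    unfold bw
    rw [ht] at h1 ⊢
    refine List.isChain_cons_cons.2 ⟨⟨hon_ptz l, ?_, ?_⟩, h1⟩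
    · rw [OneW_honF, F0_sub, F0_ptz]
      have : F0 ((1 : ℤ), (0 : ℤ)) = 2 := by decide
      rw [this]
      omega
    · rw [sub_sub_cancel]
      decide

theorem bw_length (l : List Blk) : (bw l).length = ln l + 1 := by
  unfold bw
  rw [List.length_cons, pw_length]

theorem bw_last (l : List Blk) : (bw l).getLast? = some o := by
  by_cases hl : l = []
  · subst hl
    rfl
  · obtain ⟨t, ht⟩ := pw_head hl
    have h1 := pw_last hl
    unfold bw
    rw [ht] at h1 ⊢
    rw [List.getLast?_cons_cons]
    exact h1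

theorem bw_inj {l l' : List Blk} (h : bw l = bw l') : l = l' := by
  unfold bw at h
  rw [List.cons.injEq] at h
  obtain ⟨-, h⟩ := h
  by_cases hl : l = []
  · by_cases hl' : l' = []
    · rw [hl, hl']
    · exfalso
      have h1 := congrArg List.length h
      rw [pw_length, pw_length, hl, ln_nil] at h1
      have := ln_pos hl'
      omega
  · by_cases hl' : l' = []
    · exfalso
      have h1 := congrArg List.length h
      rw [pw_length, pw_length, hl', ln_nil] at h1
      have := ln_pos hl
      omega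
    · rw [pw_ne hl, pw_ne hl'] at h
      refine jn_inj hl hl' (toL_inj ?_)
      unfold toL
      rw [h]

private lemma chain_hon {P : List (ℤ × ℤ)} (h : HChain P) (hl : P.getLast? = some o) : ∀ z ∈ P, hon z := by
  induction P with
  | nil => intro z hz; exact absurd hz (by simp)
  | cons a P ih =>
    intro z hz
    cases P with
    | nil =>
      simp only [List.getLast?_singleton, Option.some.injEq] at hl
      rw [List.mem_singleton] at hz
      rw [hz, hl]
      exact hon_o
    | cons b P =>
      rw [List.getLast?_cons_cons] at hl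
      rcases List.mem_cons.1 hz with rfl | hz
      · exact (List.isChain_cons_cons.1 h).1.1
      · exact ih (List.isChain_cons_cons.1 h).2 hl z hz

/-- A path from `o` in the columns `≥ 0` is a word of turns. -/
theorem path_word {P : List (ℤ × ℤ)} (hn : P.Nodup) (hc : HChain P) (hl : P.getLast? = some o) (hp' : ∀ z ∈ P, 0 ≤ F0 z) :
    ∃ X, (V X).Nodup ∧ (V X).reverse = P := by
  have hp : ∀ x ∈ P, hon x ∧ 0 ≤ F0 x := fun x hx => ⟨chain_hon hc hl x hx, hp' x hx⟩
  have hne : P ≠ [] := by
    rintro rfl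
    simp at hl
  have hs : IsSaw (fun z => hon z ∧ 0 ≤ F0 z) (P.length - 1) (P ++ [o']) := by
    have hlen : 1 ≤ P.length := List.length_pos_iff.2 hne
    refine ⟨by simp only [List.length_append, List.length_cons, List.length_nil]; omega, ?_, ?_, P.dropLast, ?_, ?_⟩
    · rw [List.nodup_append]
      refine ⟨hn, by simp, ?_⟩
      intro x hx y hy hxy
      rw [List.mem_singleton] at hy
      have h3 := (hp x hx).2
      rw [hxy, hy] at h3
      revert h3
      decide
    · refine List.isChain_append.2 ⟨hc, by simp, ?_⟩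
      intro x hx y hy
      rw [hl, Option.mem_def, Option.some.injEq] at hx
      simp only [List.head?_cons, Option.mem_def, Option.some.injEq] at hy
      rw [← hx, ← hy]
      exact adj_o
    · have h4 : P = P.dropLast ++ [o] := by
        have h5 := List.dropLast_append_getLast hne
        have h6 : P.getLast hne = o := by
          have := List.getLast?_eq_getLast_of_ne_nil hne
          rw [hl, Option.some.injEq] at this
          exact this.symm
        rw [h6] at h5
        exact h5.symm
      conv_lhs => rw [h4]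
      simp
    · intro x hx
      apply hp
      rcases List.mem_append.1 hx with hx | hx
      · exact List.mem_of_mem_dropLast hx
      · rw [List.mem_singleton] at hx
        rw [hx]
        exact List.mem_of_getLast? hl
  obtain ⟨X, h5, h6, h7, h8⟩ := toL_surj OneW_dom hs
  refine ⟨X, h6, ?_⟩
  unfold toL at h8
  exact List.append_cancel_right h8

private lemma U_F0 {d : ℤ × ℤ} (h : U d) : -2 ≤ F0 d ∧ F0 d ≤ 2 := by
  unfold U at h
  unfold F0
  omega

/-- A step to the right across the line in front of the column `k`. -/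
private lemma adj_cross {a b : ℤ × ℤ} {k : ℤ} (h : Adj a b) (ha : 3 * k ≤ F0 a) (hb : F0 b < 3 * k) :
    F0 a = 3 * k ∧ F0 b = 3 * k - 2 ∧ a = b + (1, 0) := by
  obtain ⟨h1, h2, h3⟩ := h
  rw [OneW_honF] at h1 h2
  have h4 := U_F0 h3
  rw [F0_sub] at h4
  have h5 : F0 a = 3 * k ∧ F0 b = 3 * k - 2 := by omega
  refine ⟨h5.1, h5.2, ?_⟩
  obtain ⟨x, y⟩ := a
  obtain ⟨z, w⟩ := b
  simp only [U, F0, Prod.mk_sub_mk, Prod.mk_add_mk, Prod.mk.injEq] at *
  omega

/-- A path from `o` in the columns `≥ 0` which ends with its first arrival in the column `k` is the path of a word. -/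
theorem bw_of {y : ℤ × ℤ} {t : List (ℤ × ℤ)} {k : ℕ} (h1 : (y :: t).Nodup) (h2 : HChain (y :: t)) (h3 : (y :: t).getLast? = some o)
    (h4 : F0 y = 3 * (k : ℤ)) (h5 : ∀ z ∈ t, 0 ≤ F0 z ∧ F0 z < 3 * (k : ℤ)) : ∃ l, bw l = y :: t ∧ hj l = k := by
  cases t with
  | nil =>
    simp only [List.getLast?_singleton, Option.some.injEq] at h3
    refine ⟨[], ?_, ?_⟩
    · rw [h3]
      rfl
    · rw [h3] at h4
      have : F0 o = 0 := by decide
      rw [this] at h4
      rw [hj_nil]
      omega
  | cons b t =>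
    have h6 := List.isChain_cons_cons.1 h2
    have hb := h5 b (by simp)
    obtain ⟨-, h7, h8⟩ := adj_cross (k := (k : ℤ)) h6.1 h4.ge hb.2
    have hk : 1 ≤ k := by omega
    rw [List.getLast?_cons_cons] at h3
    obtain ⟨X, h9, h10⟩ := path_word (List.nodup_cons.1 h1).2 h6.2 h3 fun z hz => (h5 z hz).1
    have hE : E X = b := by
      obtain ⟨r, hr⟩ := toL_cases X
      unfold toL at hr
      rw [h10] at hr
      simp only [List.cons_append, List.cons.injEq] at hr
      exact hr.1.symm
    have hX : Br (k - 1) X := by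
      refine ⟨⟨h9, fun z hz => ?_⟩, ?_⟩
      · have hz' : z ∈ b :: t := by rw [← h10, List.mem_reverse]; exact hz
        have h11 := h5 z hz'
        have h12 := res_std hz
        refine ⟨h11.1, ?_⟩
        have := h11.2
        omega
      · rw [hE, h7]
        omega
    obtain ⟨l, hl, h11, h12⟩ := jn_surj hX
    refine ⟨l, ?_, by omega⟩
    unfold bw
    rw [pw_ne hl, h11, h10, ← jn_E' hl, h11, hE, h8]

/-- The first arrival in the column `k` of a path (any region): the path is `t ++ y :: r`, `F0 y = 3 k`, `F0 < 3 k` on `r`. -/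
theorem first_arr {η : List (ℤ × ℤ)} {k : ℤ} (h2 : HChain η) {v : ℤ × ℤ} (h3 : η.getLast? = some v) (hv : F0 v < 3 * k)
    (h5 : ∃ z ∈ η, 3 * k ≤ F0 z) : ∃ t y r, η = t ++ y :: r ∧ F0 y = 3 * k ∧ (∀ z ∈ r, F0 z < 3 * k) ∧ r ≠ [] := by
  induction η with
  | nil => simp at h3
  | cons a P ih =>
    cases P with
    | nil =>
      exfalso
      simp only [List.getLast?_singleton, Option.some.injEq] at h3
      obtain ⟨z, hz, hz'⟩ := h5
      rw [List.mem_singleton] at hz
      rw [hz, h3] at hz'
      omega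
    | cons b P =>
      rw [List.getLast?_cons_cons] at h3
      have h6 := List.isChain_cons_cons.1 h2
      by_cases h : ∃ z ∈ b :: P, 3 * k ≤ F0 z
      · obtain ⟨t, y, r, h7, h8, h9, h10⟩ := ih h6.2 h3 h
        exact ⟨a :: t, y, r, by rw [h7]; rfl, h8, h9, h10⟩
      · push Not at h
        have ha : 3 * k ≤ F0 a := by
          obtain ⟨z, hz, hz'⟩ := h5
          rcases List.mem_cons.1 hz with rfl | hz
          · exact hz'
          · have := h z hz
            omega
        exact ⟨[], a, b :: P, rfl, (adj_cross h6.1 ha (h b (by simp))).1, h, by simp⟩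

/-- The first arrival in the column `k` of a path from `o` in the columns `≥ 0`. -/
theorem bw_first {η : List (ℤ × ℤ)} {k : ℕ} (h1 : η.Nodup) (h2 : HChain η) (h3 : η.getLast? = some o) (h4 : ∀ z ∈ η, 0 ≤ F0 z)
    (h5 : ∃ z ∈ η, 3 * (k : ℤ) ≤ F0 z) : ∃ t l, η = t ++ bw l ∧ hj l = k := by
  rcases Nat.eq_zero_or_pos k with rfl | hk
  · refine ⟨η.dropLast, [], ?_, hj_nil⟩
    have hne : η ≠ [] := by
      rintro rfl
      simp at h3
    have h5 := List.dropLast_append_getLast hne
    have h6 : η.getLast hne = o := by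
      have := List.getLast?_eq_getLast_of_ne_nil hne
      rw [h3, Option.some.injEq] at this
      exact this.symm
    rw [h6] at h5
    exact h5.symm
  · have h6 : F0 o < 3 * (k : ℤ) := by
      have : F0 o = 0 := by decide
      rw [this]
      omega
    obtain ⟨t, y, r, rfl, h7, h8, h9⟩ := first_arr h2 h3 h6 h5
    have e : (y :: r).getLast? = some o := by
      rw [List.getLast?_append] at h3
      have : (y :: r).getLast? ≠ none := by simp
      cases h : (y :: r).getLast? with
      | none => exact absurd h this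
      | some w =>
        rw [h] at h3
        simpa using h3
    obtain ⟨l, h10, h11⟩ := bw_of (List.nodup_append.1 h1).2.1 (List.isChain_append.1 h2).2.1 e h7 fun z hz =>
      ⟨h4 z (by simp [hz]), h8 z hz⟩
    exact ⟨t, l, by rw [h10], h11⟩

theorem bw_F0 {l : List Blk} {z : ℤ × ℤ} (hz : z ∈ bw l) : 0 ≤ F0 z ∧ F0 z ≤ 3 * (hj l : ℤ) := by
  unfold bw at hz
  rcases List.mem_cons.1 hz with rfl | hz
  · rw [F0_ptz]
    omega
  · have := pw_F0 hz
    omega

/-- The beginning of height `k` of a word of height at least `k`. -/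
theorem bw_beg {l : List Blk} {k : ℕ} (h : k ≤ hj l) : ∃ t l1, bw l = t ++ bw l1 ∧ hj l1 = k ∧ ln l1 ≤ ln l := by
  obtain ⟨t, l1, h1, h2⟩ := bw_first (k := k) (bw_nodup l) (bw_chain l) (bw_last l) (fun z hz => (bw_F0 hz).1)
    ⟨ptz l, by simp [bw], by rw [F0_ptz]; omega⟩
  refine ⟨t, l1, h1, h2, ?_⟩
  have h3 := congrArg List.length h1
  rw [List.length_append, bw_length, bw_length] at h3
  omega

/-- No word of height `k` is a proper beginning of another one. -/
theorem bw_pf {l l' : List Blk} {t : List (ℤ × ℤ)} (h : t ++ bw l = bw l') (hh : hj l' ≤ hj l) : t = [] := by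
  cases t with
  | nil => rfl
  | cons a t =>
    exfalso
    unfold bw at h
    rw [List.cons_append, List.cons.injEq] at h
    have h1 : ptz l ∈ pw l' := by rw [← h.2]; simp
    have h2 := (pw_F0 h1).2
    rw [F0_ptz] at h2
    omega

/-! ### the word turned by 180 degrees -/

theorem rvl_rvl (l : List Blk) : rvl (rvl l) = l := by
  unfold rvl
  rw [List.map_reverse, List.reverse_reverse, List.map_map]
  have : rvB ∘ rvB = id := by
    funext c
    exact rvB_rvB c
  rw [this, List.map_id]

theorem hj_rvl (l : List Blk) : hj (rvl l) = hj l := by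
  unfold hj rvl
  rw [List.map_reverse, List.sum_reverse, List.map_map]
  congr 1
  refine List.map_congr_left fun c _ => ?_
  exact htw_rvB c

theorem ln_rvl (l : List Blk) : ln (rvl l) = ln l := by
  unfold ln rvl
  rw [List.map_reverse, List.sum_reverse, List.map_map]
  congr 1
  refine List.map_congr_left fun c _ => ?_
  show (rvB c).1.length + 1 = c.1.length + 1
  rw [len_rvB]

theorem wj_rvl (l : List Blk) : wj (rvl l) = wj l := by
  rw [wj_ln, wj_ln, ln_rvl]

theorem ptz_rvl (l : List Blk) : ptz (rvl l) = ptz l := by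
  unfold ptz rvl
  rw [List.map_reverse, List.sum_reverse, List.map_map]
  congr 1
  refine List.map_congr_left fun c _ => ?_
  show E (rvb c.1) + (1, 0) = E c.1 + (1, 0)
  rw [(rvb_br c.2.br).2.1]

theorem mem_VL_rvl {l : List Blk} {z : ℤ × ℤ} : z ∈ VL (rvl l) ↔ ptz l + (-1, 0) - z ∈ VL l := by
  by_cases hl : l = []
  · subst hl
    constructor
    · rintro ⟨l1, c, l2, u, h, -⟩
      simp [rvl] at h
    · rintro ⟨l1, c, l2, u, h, -⟩
      simp at h
  · have hr : rvl l ≠ [] := by
      unfold rvl
      simpa using hl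
    rw [← mem_pw, ← mem_pw, pw_ne hl, pw_ne hr, List.mem_reverse, List.mem_reverse, rvl, jn_rv hl,
      (rvb_br (jn_Br hl)).2.2.2.2, ← jn_E' hl]
    have : E (jn l) + (1, 0) + (-1, 0) = E (jn l) := by
      ext <;> simp
    rw [this]

/-! ### the functional -/

theorem Wk_finite (v : ℤ × ℤ) (n : ℕ) : (Wk v n).Finite := by
  induction n with
  | zero =>
    refine (Set.finite_singleton [v]).subset fun P hP => ?_
    obtain ⟨h1, -, -, h4⟩ := hP
    obtain ⟨a, rfl⟩ := List.length_eq_one_iff.1 h1
    simp only [List.getLast?_singleton, Option.some.injEq] at h4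
    rw [h4]
    rfl
  | succ n ih =>
    have hU : {d : ℤ × ℤ | U d}.Finite := by
      refine (Set.finite_Icc ((-1, -1) : ℤ × ℤ) (1, 1)).subset fun d hd => ?_
      have hd' : U d := hd
      unfold U at hd'
      rw [Set.mem_Icc, Prod.le_def, Prod.le_def]
      dsimp only
      omega
    refine (hU.image2 (fun d P => (P.headI + d) :: P) ih).subset fun P hP => ?_
    obtain ⟨h1, h2, h3, h4⟩ := hP
    match P, h1, h2, h3, h4 with
    | a :: b :: Q, h1, h2, h3, h4 =>
      refine ⟨a - b, (List.isChain_cons_cons.1 h3).1.2.2, b :: Q, ⟨?_, (List.nodup_cons.1 h2).2, (List.isChain_cons_cons.1 h3).2, ?_⟩, ?_⟩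
      · simpa using h1
      · rwa [List.getLast?_cons_cons] at h4
      · show (b + (a - b)) :: b :: Q = a :: b :: Q
        rw [add_sub_cancel]

theorem Wa_finite (v : ℤ × ℤ) (n : ℕ) (S : Set (ℤ × ℤ)) : (Wa v n S).Finite := (Wk_finite v n).subset fun _ h => h.1

theorem ev_anti {n J : ℕ} {v : ℤ × ℤ} {S T : Set (ℤ × ℤ)} (h : S ⊆ T) : ev n J v T ≤ ev n J v S := by
  unfold ev
  refine ENNReal.div_le_div_right (Finset.sum_le_sum fun j _ => mul_le_mul' le_rfl ?_) _
  have h1 : Wa v (n - j) T ⊆ Wa v (n - j) S := fun P hP => ⟨hP.1, fun z hz hS => hP.2 z hz (h hS)⟩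
  exact_mod_cast Set.ncard_le_ncard h1 (Wa_finite v (n - j) S)

private lemma Wa_empty (v : ℤ × ℤ) (n : ℕ) : Wa v n ∅ = Wk v n := by
  ext P
  exact ⟨fun h => h.1, fun h => ⟨h, fun z _ hz => hz⟩⟩

private lemma ev_empty (hs : ASym) (n J : ℕ) {v : ℤ × ℤ} (hv : v = o ∨ v = o') : ev n J v ∅ ≤ 1 := by
  have h1 : ev n J o ∅ ≤ 1 := by
    unfold ev Az
    simp only [Wa_empty]
    exact ENNReal.div_self_le_one
  rcases hv with rfl | rfl
  · exact h1
  · have h2 := hs n J _ Sy.ro o ∅ hon_o
    rw [Set.image_empty] at h2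
    have h3 : ((-1, 0) : ℤ × ℤ) - o = o' := by
      unfold o o'
      simp
    rw [h3] at h2
    rw [h2]
    exact h1

theorem ev_le_one (hs : ASym) (n J : ℕ) {v : ℤ × ℤ} (hv : v = o ∨ v = o') (S : Set (ℤ × ℤ)) : ev n J v S ≤ 1 :=
  (ev_anti (Set.empty_subset S)).trans (ev_empty hs n J hv)

theorem Vm_le_one (hs : ASym) (n J : ℕ) {v : ℤ × ℤ} (hv : v = o ∨ v = o') (X : Set (List (ℤ × ℤ))) : Vm n J v X ≤ 1 := by
  refine le_trans ?_ (ev_empty hs n J hv)
  unfold Vm ev
  refine ENNReal.div_le_div_right (Finset.sum_le_sum fun j _ => mul_le_mul' le_rfl ?_) _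
  rw [Wa_empty]
  have h1 : {w | w ∈ Wk v (n - j) ∧ ∃ t, ∃ η ∈ X, w = t ++ η} ⊆ Wk v (n - j) := fun P hP => hP.1
  exact_mod_cast Set.ncard_le_ncard h1 (Wk_finite v (n - j))

theorem Vm_mono {n J : ℕ} {v : ℤ × ℤ} {X Y : Set (List (ℤ × ℤ))} (h : ∀ η ∈ X, ∃ t, ∃ η' ∈ Y, η = t ++ η') :
    Vm n J v X ≤ Vm n J v Y := by
  unfold Vm
  refine ENNReal.div_le_div_right (Finset.sum_le_sum fun j _ => mul_le_mul' le_rfl ?_) _
  have h0 : {w | w ∈ Wk v (n - j) ∧ ∃ t, ∃ η ∈ X, w = t ++ η} ⊆ {w | w ∈ Wk v (n - j) ∧ ∃ t, ∃ η ∈ Y, w = t ++ η} := by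
    rintro P ⟨hP, t, η, hη, rfl⟩
    obtain ⟨t', η', h1, h2⟩ := h η hη
    exact ⟨hP, t ++ t', η', h1, by rw [h2, List.append_assoc]⟩
  exact_mod_cast Set.ncard_le_ncard h0 ((Wk_finite v (n - j)).subset fun P hP => hP.1)

/-- The rotation by 180 degrees about the middle of `w`, `w - (1, 0)`. -/
theorem ev_rot (hs : ASym) (n J : ℕ) {w : ℤ × ℤ} (hw : F0 w % 3 = 0) (S : Set (ℤ × ℤ)) :
    ev n J w S = ev n J o' ((fun z => w + (-1, 0) - z) '' S) := by
  have hh : hon w := by
    rw [OneW_honF]
    omega
  have h1 := hs n J _ Sy.ro w S hh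
  have hab : (w.1 - w.2) % 3 = 0 := by
    unfold F0 at hw
    omega
  have hh2 : hon ((-1, 0) - w) := by
    rw [OneW_honF, F0_sub]
    have : F0 ((-1 : ℤ), (0 : ℤ)) = -2 := by decide
    rw [this]
    omega
  have h2 := hs n J _ (Sy.tr w.1 w.2 hab) ((-1, 0) - w) ((fun z => (-1, 0) - z) '' S) hh2
  rw [h1] at h2
  rw [← h2]
  have e1 : ((-1, 0) : ℤ × ℤ) - w + (w.1, w.2) = o' := by
    unfold o'
    simp
  have e2 : (fun z : ℤ × ℤ => z + (w.1, w.2)) '' ((fun z => (-1, 0) - z) '' S) = (fun z => w + (-1, 0) - z) '' S := by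
    rw [Set.image_image]
    refine Set.image_congr fun z _ => ?_
    show (-1, 0) - z + w = w + (-1, 0) - z
    ring
  rw [e1, e2]

private lemma image_VL (y : ℤ × ℤ) (l : List Blk) :
    (fun z => y + ptz l + (-1, 0) - z) '' ((fun z => y + z) '' VL l) = VL (rvl l) := by
  rw [Set.image_image]
  ext z
  rw [mem_VL_rvl, Set.mem_image]
  constructor
  · rintro ⟨u, hu, rfl⟩
    have : ptz l + (-1, 0) - (y + ptz l + (-1, 0) - (y + u)) = u := by ring
    rw [this]
    exact hu
  · intro h
    exact ⟨_, h, by ring⟩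

/-- The same with a further obstacle `T` (given around the start `y` of the word). -/
theorem ev_word_union (hs : ASym) (n J : ℕ) {y : ℤ × ℤ} (hy : F0 y % 3 = 0) (l : List Blk) (T : Set (ℤ × ℤ)) :
    ev n J (y + ptz l) ((fun z => y + z) '' (VL l ∪ T)) = ev n J o' (VL (rvl l) ∪ (fun z => ptz l + (-1, 0) - z) '' T) := by
  have h1 : F0 (y + ptz l) % 3 = 0 := by
    rw [F0_add, F0_ptz]
    omega
  rw [ev_rot hs n J h1, Set.image_union, Set.image_union, image_VL, Set.image_image]
  congr 2
  refine Set.image_congr fun z _ => ?_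
  ring

/-- The functional at the end of a word which starts at `y`. -/
theorem ev_word (hs : ASym) (n J : ℕ) {y : ℤ × ℤ} (hy : F0 y % 3 = 0) (l : List Blk) :
    ev n J (y + ptz l) ((fun z => y + z) '' VL l) = ev n J o' (VL (rvl l)) := by
  have h1 := ev_word_union hs n J hy l ∅
  rwa [Set.union_empty, Set.image_empty, Set.union_empty] at h1

end Pool.Agent.EVN.KW
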