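import Pool.Agent.EVN.K.OneB
import Pool.Agent.EVN.K.OneW

/-!
EVN, block K: THE CONTRACT `KOne` from `AEq`, `ASym` and the polynomial bound.
-/

namespace Pool.Agent.EVN.KO

open Pool.Agent.EVN.KW Pool.Agent.Hhelper14.SAW Pool.Agent.HHP Pool.Agent.HEP Pool.Agent.PLY.G Pool.Agent.BEX.F
open scoped ENNReal

theorem wpath : WPath bw where
  nodup := bw_nodup
  chain := bw_chain
  last := bw_last
  head := fun _ => rfl
  mem_tail := fun _ _ => mem_pw
  tail_F0 := fun _ _ h => pw_F0 h
  len := bw_length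
  inj := fun _ _ h => bw_inj h

theorem rpath : RPath where
  inv := rvl_rvl
  hj := hj_rvl
  ln := ln_rvl
  wj := wj_rvl
  ptz := ptz_rvl
  VL := by
    intro l
    ext z
    rw [mem_VL_rvl]
    constructor
    · intro h
      exact ⟨_, h, by show PLY.G.ptz l + (-1, 0) - (PLY.G.ptz l + (-1, 0) - z) = z; rw [sub_sub_cancel]⟩
    · rintro ⟨w, hw, rfl⟩
      show PLY.G.ptz l + (-1, 0) - (PLY.G.ptz l + (-1, 0) - w) ∈ EVN.VL l
      rwa [sub_sub_cancel]

/-- THE CONTRACT `KOne`, with the polynomial bound as an input. -/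
theorem kone_poly (hA : AEq) (hS : ASym) (hP : PolyA) : KOne := kone_of wpath rpath hA hS hP

end Pool.Agent.EVN.KO
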