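import Pool.Agent.EVN.Defs

/-!
Project EVN, block K2 (the stage lemma): INTERFACE between the tube words (StageT), the crossing lemma (StageG) and the assembly.

`Poly K t σ l`: the word `l` follows the polygon of the side `σ`: at the depths `[5t/4, 11t/4]` it is at lateral position `≥ (K+1)t` (times `σ`),
at the depths `≥ 4t` it is at lateral position `≤ -t` (times `σ`); height between `5t` and `6t`, lateral positions at most `(2K+10) t`.
Used for `K = 1`.
-/

namespace Pool.Agent.EVN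

open Pool.Agent.Hhelper14.SAW Pool.Agent.HHP Pool.Agent.HEP Pool.Agent.PLY.G
open scoped ENNReal

/-- The word follows the polygon of the side `σ`. -/
def Poly (K t : ℕ) (σ : ℤ) (l : List Blk) : Prop :=
  5 * t ≤ hj l ∧ hj l ≤ 6 * t ∧ ∀ z ∈ VL l, |z.2| ≤ (2 * K + 10) * t ∧
    (15 * (t : ℤ) ≤ 4 * F0 z → 4 * F0 z ≤ 33 * t → (K + 1) * (t : ℤ) ≤ σ * z.2) ∧ (12 * (t : ℤ) ≤ F0 z → σ * z.2 ≤ -t)

end Pool.Agent.EVN
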