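import Pool.Agent.EVN.K.StageDef
import Pool.Agent.EVN.K.StageG0

/-!
Project EVN (MP_8c6f77_pr, note 3192), block K2, GEOMETRY: `stage_G`, the crossing lemma for the polygons `Poly`.
-/

namespace Pool.Agent.EVN

open Pool.Agent.Hhelper14.SAW Pool.Agent.HHP Pool.Agent.HEP Pool.Agent.PLY.G

/-- A path from `o'` with a point `z` in the window in front of `y` meets all the polygon words at `y` of one of the two kinds. -/
theorem stage_G {K t : ℕ} (ht : 2 ≤ t) {ω : List (ℤ × ℤ)} {y z : ℤ × ℤ} {m : ℤ} (hc : HChain ω)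
    (hl : ω.getLast? = some o') (hy : F0 y = 3 * m) (hm : 0 ≤ m) (hz : z ∈ ω) (h1 : 18 * (t : ℤ) ≤ 4 * (F0 z - F0 y))
    (h2 : 4 * (F0 z - F0 y) ≤ 30 * (t : ℤ)) (h3 : |z.2 - y.2| ≤ (K : ℤ) * t) :
    ∃ sg : ℤ, (sg = 1 ∨ sg = -1) ∧ ∀ l : List Blk, Poly K t sg l → ∃ w ∈ ω, w - y ∈ VL l := by
  have hKt : (0 : ℤ) ≤ (K : ℤ) * t := by positivity
  obtain ⟨sg, hsg, hG⟩ := stage_G' (W := (2 * (K : ℤ) + 10) * t) (T := 12 * (t : ℤ)) (a := F0 z - F0 y) (b := F0 z - F0 y)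
    (k := (K : ℤ) * t) (by omega) (by omega) (by omega) (by nlinarith) hc hl hy hm hz le_rfl le_rfl h3
  refine ⟨sg, hsg, fun l hP => ?_⟩
  obtain ⟨q1, q2, q3⟩ := hP
  refine hG l (by omega) (fun v hv => (q3 v hv).1) (fun v hv h5 h6 => ?_) fun v hv h5 => ?_
  · have h7 := (q3 v hv).2.1 (by omega) (by omega)
    have h8 : ((K : ℤ) + 1) * t = (K : ℤ) * t + t := by ring
    omega
  · have h7 := (q3 v hv).2.2 (by omega)
    omega

end Pool.Agent.EVN
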