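import Pool.Agent.EVN.K.StageDef
import Pool.Agent.PLY.G.Flat

/-!
Project EVN, block K2: TUBE WORDS. Prefix free sets of words of mass at least `c` along the two polygons, and straight ahead.
-/

namespace Pool.Agent.EVN

open Pool.Agent.Hhelper14.SAW Pool.Agent.HHP Pool.Agent.HEP Pool.Agent.PLY.G
open scoped ENNReal

/-! ### vertices of words -/

private lemma StT_ne {l : List Blk} {z : ℤ × ℤ} (h : z ∈ VL l) : l ≠ [] := by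
  obtain ⟨l1, c, l2, u, e, -, -⟩ := h
  rw [e]
  simp

private lemma StT_mem {l : List Blk} (hl : l ≠ []) (z : ℤ × ℤ) : z ∈ VL l ↔ z ∈ V (jn l) := (mem_jn hl z).symm

private lemma StT_ptz (l m : List Blk) : ptz (l ++ m) = ptz l + ptz m := by
  unfold ptz
  rw [List.map_append, List.sum_append]

private lemma StT_app {l m : List Blk} {z : ℤ × ℤ} (h : z ∈ VL (l ++ m)) : z ∈ VL l ∨ ∃ w ∈ VL m, z = ptz l + w := by
  obtain ⟨l1, c, l2, u, e, hu, hz⟩ := h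
  rcases List.append_eq_append_iff.1 e with ⟨t, h1, h2⟩ | ⟨t, h1, h2⟩
  · right
    refine ⟨ptz t + u, ⟨t, c, l2, u, h2, hu, rfl⟩, ?_⟩
    rw [hz, h1, StT_ptz]
    ring
  · cases t with
    | nil =>
      right
      rw [List.append_nil] at h1
      rw [List.nil_append] at h2
      refine ⟨ptz [] + u, ⟨[], c, l2, u, h2.symm, hu, rfl⟩, ?_⟩
      rw [hz, h1, ptz_nil, zero_add]
    | cons a t =>
      left
      rw [List.cons_append, List.cons.injEq] at h2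
      obtain ⟨rfl, h2⟩ := h2
      exact ⟨l1, c, t, u, h1, hu, hz⟩

private lemma StT_F0 {l : List Blk} {z : ℤ × ℤ} (h : z ∈ VL l) : 0 ≤ F0 z ∧ F0 z + 2 ≤ 3 * hj l := by
  obtain ⟨l1, c, l2, u, e, hu, hz⟩ := h
  have h1 := c.2.br.1.2 u hu
  have h2 := htw_pos c.1
  rw [hz, F0_add, F0_ptz, e, hj_append, hj_cons]
  push_cast
  omega

private lemma StT_tub {κ E0 : ℝ} {l : List Blk} (h : hsI.toAlph.tub wdb κ E0 l) {z : ℤ × ℤ} (hz : z ∈ VL l) :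
    |(z.2 : ℝ) - κ * (F0 z / 3)| ≤ E0 :=
  tube_V (StT_ne hz) h ((StT_mem (StT_ne hz) z).1 hz)

/-! ### the deterministic part -/

/-- One tube, seen from the side `σ`. -/
private lemma StT_side {κ E0 : ℝ} {σ : ℤ} (hσ : σ = 1 ∨ σ = -1) {l : List Blk} (hE : 0 ≤ E0)
    (h : hsI.toAlph.tub wdb (σ * κ) E0 l) :
    |(σ : ℝ) * xj l - κ * hj l| ≤ E0 ∧ ∀ z ∈ VL l, |(σ : ℝ) * z.2 - κ * (F0 z / 3)| ≤ E0 := by
  have key : ∀ a b : ℝ, |a - (σ : ℝ) * κ * b| = |(σ : ℝ) * a - κ * b| := by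
    intro a b
    rcases hσ with rfl | rfl
    · norm_num
    · push_cast
      rw [← abs_neg]
      congr 1
      ring
  constructor
  · rw [← key]
    exact tube_E hE h
  · intro z hz
    rw [← key]
    exact StT_tub h hz

private lemma StT_poly {t : ℕ} {σ : ℤ} (hσ : σ = 1 ∨ σ = -1) (ht : 64 ≤ t) {l1 l2 l3 l4 : List Blk}
    (a1 : t ≤ hj l1) (b1 : (hj l1 : ℝ) ≤ (1 + 1 / 64) * t) (c1 : hsI.toAlph.tub wdb (σ * 3) (1 / 64 * t) l1)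
    (a2 : 3 * t - hj l1 ≤ hj l2) (b2 : (hj l2 : ℝ) ≤ (1 + 1 / 64) * ((3 * t - hj l1 : ℕ) : ℝ))
    (c2 : hsI.toAlph.tub wdb (σ * 0) (1 / 64 * ((3 * t - hj l1 : ℕ) : ℝ)) l2)
    (a3 : (7 * t + 1) / 2 - (hj l1 + hj l2) ≤ hj l3)
    (b3 : (hj l3 : ℝ) ≤ (1 + 1 / 64) * (((7 * t + 1) / 2 - (hj l1 + hj l2) : ℕ) : ℝ))
    (c3 : hsI.toAlph.tub wdb (σ * (-12)) (1 / 64 * (((7 * t + 1) / 2 - (hj l1 + hj l2) : ℕ) : ℝ)) l3)
    (a4 : 5 * t - (hj l1 + hj l2 + hj l3) ≤ hj l4)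
    (b4 : (hj l4 : ℝ) ≤ (1 + 1 / 64) * ((5 * t - (hj l1 + hj l2 + hj l3) : ℕ) : ℝ))
    (c4 : hsI.toAlph.tub wdb (σ * 0) (1 / 64 * ((5 * t - (hj l1 + hj l2 + hj l3) : ℕ) : ℝ)) l4) :
    Poly 1 t σ (l1 ++ (l2 ++ (l3 ++ l4))) := by
  have htR : (64 : ℝ) ≤ t := by exact_mod_cast ht
  -- heights
  have a1R : (t : ℝ) ≤ hj l1 := by exact_mod_cast a1
  have h1n : 64 * hj l1 ≤ 65 * t := by
    have : (64 : ℝ) * hj l1 ≤ 65 * t := by linarith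
    exact_mod_cast this
  obtain ⟨N2, hN2⟩ : ∃ N2, N2 = 3 * t - hj l1 := ⟨_, rfl⟩
  rw [← hN2] at a2 b2 c2
  have a2R : (N2 : ℝ) ≤ hj l2 := by exact_mod_cast a2
  have e2 : N2 + hj l1 = 3 * t := by omega
  have e2R : (N2 : ℝ) + hj l1 = 3 * t := by exact_mod_cast e2
  have h2n : 64 * hj l2 ≤ 65 * N2 := by
    have : (64 : ℝ) * hj l2 ≤ 65 * N2 := by linarith
    exact_mod_cast this
  obtain ⟨N3, hN3⟩ : ∃ N3, N3 = (7 * t + 1) / 2 - (hj l1 + hj l2) := ⟨_, rfl⟩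
  rw [← hN3] at a3 b3 c3
  have a3R : (N3 : ℝ) ≤ hj l3 := by exact_mod_cast a3
  have e3 : 7 * t ≤ 2 * (N3 + hj l1 + hj l2) ∧ 2 * (N3 + hj l1 + hj l2) ≤ 7 * t + 1 := by omega
  have e3R : 7 * (t : ℝ) ≤ 2 * (N3 + hj l1 + hj l2) ∧ 2 * ((N3 : ℝ) + hj l1 + hj l2) ≤ 7 * t + 1 := by
    exact_mod_cast e3
  have h3n : 64 * hj l3 ≤ 65 * N3 := by
    have : (64 : ℝ) * hj l3 ≤ 65 * N3 := by linarith
    exact_mod_cast this
  obtain ⟨N4, hN4⟩ : ∃ N4, N4 = 5 * t - (hj l1 + hj l2 + hj l3) := ⟨_, rfl⟩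
  rw [← hN4] at a4 b4 c4
  have e4 : N4 + hj l1 + hj l2 + hj l3 = 5 * t := by omega
  have e4R : (N4 : ℝ) + hj l1 + hj l2 + hj l3 = 5 * t := by exact_mod_cast e4
  have h4n : 64 * hj l4 ≤ 65 * N4 := by
    have : (64 : ℝ) * hj l4 ≤ 65 * N4 := by linarith
    exact_mod_cast this
  have hN2R : (0 : ℝ) ≤ N2 := Nat.cast_nonneg _
  have hN3R : (0 : ℝ) ≤ N3 := Nat.cast_nonneg _
  have hN4R : (0 : ℝ) ≤ N4 := Nat.cast_nonneg _
  obtain ⟨x1, v1⟩ := StT_side hσ (by positivity) c1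
  obtain ⟨x2, v2⟩ := StT_side hσ (by positivity) c2
  obtain ⟨x3, v3⟩ := StT_side hσ (by positivity) c3
  obtain ⟨x4, v4⟩ := StT_side hσ (by positivity) c4
  rw [abs_le] at x1 x2 x3 x4
  have sgn : ∀ a : ℤ, ∀ M : ℝ, |(σ : ℝ) * a| ≤ M → |(a : ℝ)| ≤ M := by
    intro a M h
    rcases hσ with rfl | rfl
    · simpa using h
    · simpa using h
  refine ⟨by rw [hj_append, hj_append, hj_append]; omega, by rw [hj_append, hj_append, hj_append]; omega, ?_⟩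
  intro z hz
  -- the four parts
  have hcases : (z ∈ VL l1) ∨ (∃ w ∈ VL l2, z = ptz l1 + w) ∨ (∃ w ∈ VL l3, z = ptz l1 + ptz l2 + w) ∨
      (∃ w ∈ VL l4, z = ptz l1 + ptz l2 + ptz l3 + w) := by
    rcases StT_app hz with h | ⟨w, hw, e⟩
    · exact Or.inl h
    · rcases StT_app hw with h | ⟨w', hw', e'⟩
      · exact Or.inr (Or.inl ⟨w, h, e⟩)
      · rcases StT_app hw' with h | ⟨w'', hw'', e''⟩
        · exact Or.inr (Or.inr (Or.inl ⟨w', h, by rw [e, e']; ring⟩))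
        · exact Or.inr (Or.inr (Or.inr ⟨w'', hw'', by rw [e, e', e'']; ring⟩))
  have goalA : |(z.2 : ℝ)| ≤ 12 * t → |z.2| ≤ (2 * (1 : ℕ) + 10) * t := fun h => by
    have h' : |z.2| ≤ 12 * (t : ℤ) := by exact_mod_cast h
    push_cast
    linarith
  have goalB : 2 * (t : ℝ) ≤ (σ : ℝ) * z.2 → ((1 : ℕ) + 1) * (t : ℤ) ≤ σ * z.2 := fun h => by
    have h' : 2 * (t : ℤ) ≤ σ * z.2 := by exact_mod_cast h
    push_cast
    linarith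
  have goalC : (σ : ℝ) * z.2 ≤ - (t : ℝ) → σ * z.2 ≤ - (t : ℤ) := fun h => by exact_mod_cast h
  rcases hcases with h | ⟨w, hw, e⟩ | ⟨w, hw, e⟩ | ⟨w, hw, e⟩
  · -- first tube
    have f := StT_F0 h
    have fR : (0 : ℝ) ≤ F0 z ∧ (F0 z : ℝ) ≤ 3 * hj l1 := by
      constructor
      · exact_mod_cast f.1
      · have : F0 z ≤ 3 * (hj l1 : ℤ) := by omega
        exact_mod_cast this
    have v := abs_le.1 (v1 z h)
    refine ⟨goalA (sgn _ _ (abs_le.2 ⟨by linarith [v.1, fR.1], by linarith [v.2, fR.2]⟩)), ?_, ?_⟩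
    · intro h1 h2
      exfalso
      omega
    · intro h1
      exfalso
      omega
  · -- second tube
    have f := StT_F0 hw
    have v := abs_le.1 (v2 w hw)
    have ez : z.2 = xj l1 + w.2 := by rw [e, Prod.snd_add, snd_ptz]
    have ezR : (z.2 : ℝ) = xj l1 + w.2 := by exact_mod_cast ez
    have eF : F0 z = 3 * hj l1 + F0 w := by rw [e, F0_add, F0_ptz]
    have es : (σ : ℝ) * z.2 = σ * xj l1 + σ * w.2 := by rw [ezR]; ring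
    refine ⟨goalA (sgn _ _ ?_), ?_, ?_⟩
    · rw [es, abs_le]
      constructor
      · linarith [v.1, x1.1]
      · linarith [v.2, x1.2]
    · intro h1 h2
      apply goalB
      rw [es]
      linarith [v.1, x1.1]
    · intro h1
      exfalso
      omega
  · -- third tube
    have f := StT_F0 hw
    have fR : (0 : ℝ) ≤ F0 w ∧ (F0 w : ℝ) ≤ 3 * hj l3 := by
      constructor
      · exact_mod_cast f.1
      · have : F0 w ≤ 3 * (hj l3 : ℤ) := by omega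
        exact_mod_cast this
    have v := abs_le.1 (v3 w hw)
    have ez : z.2 = xj l1 + xj l2 + w.2 := by rw [e, Prod.snd_add, Prod.snd_add, snd_ptz, snd_ptz]
    have ezR : (z.2 : ℝ) = xj l1 + xj l2 + w.2 := by exact_mod_cast ez
    have eF : F0 z = 3 * hj l1 + 3 * hj l2 + F0 w := by rw [e, F0_add, F0_add, F0_ptz, F0_ptz]
    have es : (σ : ℝ) * z.2 = σ * xj l1 + σ * xj l2 + σ * w.2 := by rw [ezR]; ring
    refine ⟨goalA (sgn _ _ ?_), ?_, ?_⟩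
    · rw [es, abs_le]
      constructor
      · linarith [v.1, x1.1, x2.1, fR.2]
      · linarith [v.2, x1.2, x2.2, fR.1]
    · intro h1 h2
      exfalso
      omega
    · intro h1
      exfalso
      omega
  · -- fourth tube
    have f := StT_F0 hw
    have v := abs_le.1 (v4 w hw)
    have ez : z.2 = xj l1 + xj l2 + xj l3 + w.2 := by
      rw [e, Prod.snd_add, Prod.snd_add, Prod.snd_add, snd_ptz, snd_ptz, snd_ptz]
    have ezR : (z.2 : ℝ) = xj l1 + xj l2 + xj l3 + w.2 := by exact_mod_cast ez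
    have eF : F0 z = 3 * hj l1 + 3 * hj l2 + 3 * hj l3 + F0 w := by
      rw [e, F0_add, F0_add, F0_add, F0_ptz, F0_ptz, F0_ptz]
    have es : (σ : ℝ) * z.2 = σ * xj l1 + σ * xj l2 + σ * xj l3 + σ * w.2 := by rw [ezR]; ring
    refine ⟨goalA (sgn _ _ ?_), ?_, ?_⟩
    · rw [es, abs_le]
      constructor
      · linarith [v.1, x1.1, x2.1, x3.1]
      · linarith [v.2, x1.2, x2.2, x3.2]
    · intro h1 h2
      exfalso
      omega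
    · intro h1
      apply goalC
      rw [es]
      linarith [v.2, x1.2, x2.2, x3.2]

/-! ### the masses -/

/-- One side. -/
private lemma StT_one (hQ : hsI.Quarter) {σ : ℤ} (hσ : σ = 1 ∨ σ = -1) : ∃ (c : ℝ≥0∞) (t0 : ℕ), 0 < c ∧ ∀ t : ℕ, t0 ≤ t →
    ∃ X : Set (List Blk), hsI.toAlph.PF X ∧ (∀ l ∈ X, Poly 1 t σ l) ∧ c ≤ ∑' l, ind (l ∈ X) * wj l := by
  obtain ⟨c1, n1, hc1, h1⟩ := tube_all hQ (σ * 3) (1 / 64) (by norm_num)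
  obtain ⟨c2, n2, hc2, h2⟩ := tube_all hQ (σ * 0) (1 / 64) (by norm_num)
  obtain ⟨c3, n3, hc3, h3⟩ := tube_all hQ (σ * (-12)) (1 / 64) (by norm_num)
  choose! X hX1 hX2 hX3 using h1
  choose! Y hY1 hY2 hY3 using h2
  choose! Z hZ1 hZ2 hZ3 using h3
  refine ⟨c1 * (c2 * (c3 * c2)), n1 + 3 * n2 + 3 * n3 + 64,
    ENNReal.mul_pos hc1.ne' (ENNReal.mul_pos hc2.ne' (ENNReal.mul_pos hc3.ne' hc2.ne').ne').ne', fun t ht => ?_⟩
  have htR : (64 : ℝ) ≤ t := by exact_mod_cast (by omega : 64 ≤ t)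
  -- heights of the parts
  have g1 : ∀ s ∈ X t, t ≤ hj s ∧ 64 * hj s ≤ 65 * t := by
    intro s hs
    obtain ⟨a, b, -⟩ := hX2 t (by omega) s hs
    refine ⟨a, ?_⟩
    have : (64 : ℝ) * hj s ≤ 65 * t := by
      have b' : (hj s : ℝ) ≤ (1 + 1 / 64) * t := b
      linarith
    exact_mod_cast this
  have g2 : ∀ N, n2 ≤ N → ∀ s ∈ Y N, N ≤ hj s ∧ 64 * hj s ≤ 65 * N := by
    intro N hN s hs
    obtain ⟨a, b, -⟩ := hY2 N hN s hs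
    refine ⟨a, ?_⟩
    have : (64 : ℝ) * hj s ≤ 65 * N := by
      have b' : (hj s : ℝ) ≤ (1 + 1 / 64) * N := b
      linarith
    exact_mod_cast this
  have g3 : ∀ N, n3 ≤ N → ∀ s ∈ Z N, N ≤ hj s ∧ 64 * hj s ≤ 65 * N := by
    intro N hN s hs
    obtain ⟨a, b, -⟩ := hZ2 N hN s hs
    refine ⟨a, ?_⟩
    have : (64 : ℝ) * hj s ≤ 65 * N := by
      have b' : (hj s : ℝ) ≤ (1 + 1 / 64) * N := b
      linarith
    exact_mod_cast this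
  obtain ⟨Q4, hQ4⟩ : ∃ Q4 : List Blk → List Blk → List Blk → Set (List Blk),
    ∀ l1 l2 l3, Q4 l1 l2 l3 = Y (5 * t - (hj l1 + hj l2 + hj l3)) := ⟨_, fun _ _ _ => rfl⟩
  obtain ⟨Q3, hQ3⟩ : ∃ Q3 : List Blk → List Blk → Set (List Blk),
    ∀ l1 l2, Q3 l1 l2 = {k : List Blk | ∃ s l : List Blk, k = s ++ l ∧ s ∈ Z ((7 * t + 1) / 2 - (hj l1 + hj l2)) ∧ l ∈ Q4 l1 l2 s} :=
    ⟨_, fun _ _ => rfl⟩
  obtain ⟨Q2, hQ2⟩ : ∃ Q2 : List Blk → Set (List Blk),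
    ∀ l1, Q2 l1 = {k : List Blk | ∃ s l : List Blk, k = s ++ l ∧ s ∈ Y (3 * t - hj l1) ∧ l ∈ Q3 l1 s} := ⟨_, fun _ => rfl⟩
  -- the sizes
  have m2 : ∀ l1 ∈ X t, n2 ≤ 3 * t - hj l1 := by
    intro l1 hl1
    have := g1 l1 hl1
    omega
  have m3 : ∀ l1 ∈ X t, ∀ l2 ∈ Y (3 * t - hj l1), n3 ≤ (7 * t + 1) / 2 - (hj l1 + hj l2) := by
    intro l1 hl1 l2 hl2
    have e1 := g1 l1 hl1
    have e2 := g2 _ (m2 l1 hl1) l2 hl2
    omega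
  have m4 : ∀ l1 ∈ X t, ∀ l2 ∈ Y (3 * t - hj l1), ∀ l3 ∈ Z ((7 * t + 1) / 2 - (hj l1 + hj l2)),
      n2 ≤ 5 * t - (hj l1 + hj l2 + hj l3) := by
    intro l1 hl1 l2 hl2 l3 hl3
    have e1 := g1 l1 hl1
    have e2 := g2 _ (m2 l1 hl1) l2 hl2
    have e3 := g3 _ (m3 l1 hl1 l2 hl2) l3 hl3
    omega
  refine ⟨{k : List Blk | ∃ s l : List Blk, k = s ++ l ∧ s ∈ X t ∧ l ∈ Q2 s}, ?_, ?_, ?_⟩
  · refine (hX1 t (by omega)).bind fun l1 hl1 => ?_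
    rw [hQ2]
    refine (hY1 _ (m2 l1 hl1)).bind fun l2 hl2 => ?_
    rw [hQ3]
    refine (hZ1 _ (m3 l1 hl1 l2 hl2)).bind fun l3 hl3 => ?_
    rw [hQ4]
    exact hY1 _ (m4 l1 hl1 l2 hl2 l3 hl3)
  · rintro k ⟨l1, k1, rfl, hl1, hk1⟩
    rw [hQ2] at hk1
    obtain ⟨l2, k2, rfl, hl2, hk2⟩ := hk1
    rw [hQ3] at hk2
    obtain ⟨l3, l4, rfl, hl3, hl4⟩ := hk2
    rw [hQ4] at hl4
    obtain ⟨a1, b1, d1⟩ := hX2 t (by omega) l1 hl1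
    obtain ⟨a2, b2, d2⟩ := hY2 _ (m2 l1 hl1) l2 hl2
    obtain ⟨a3, b3, d3⟩ := hZ2 _ (m3 l1 hl1 l2 hl2) l3 hl3
    obtain ⟨a4, b4, d4⟩ := hY2 _ (m4 l1 hl1 l2 hl2 l3 hl3) l4 hl4
    exact StT_poly hσ (by omega) a1 b1 d1 a2 b2 d2 a3 b3 d3 a4 b4 d4
  · refine (hX1 t (by omega)).bind_mass Q2 (hX3 t (by omega)) fun l1 hl1 => ?_
    rw [hQ2]
    refine (hY1 _ (m2 l1 hl1)).bind_mass (Q3 l1) (hY3 _ (m2 l1 hl1)) fun l2 hl2 => ?_
    rw [hQ3]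
    refine (hZ1 _ (m3 l1 hl1 l2 hl2)).bind_mass (Q4 l1 l2) (hZ3 _ (m3 l1 hl1 l2 hl2)) fun l3 hl3 => ?_
    rw [hQ4]
    exact hY3 _ (m4 l1 hl1 l2 hl2 l3 hl3)

/-- The two polygons. -/
theorem poly_words (hQ : hsI.Quarter) : ∃ (c : ℝ≥0∞) (t0 : ℕ), 0 < c ∧ ∀ t : ℕ, t0 ≤ t → ∀ σ : ℤ, σ = 1 ∨ σ = -1 →
    ∃ X : Set (List Blk), hsI.toAlph.PF X ∧ (∀ l ∈ X, Poly 1 t σ l) ∧ c ≤ ∑' l, ind (l ∈ X) * wj l := by
  obtain ⟨c1, t1, h1, h1'⟩ := StT_one hQ (Or.inl rfl : (1 : ℤ) = 1 ∨ (1 : ℤ) = -1)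
  obtain ⟨c2, t2, h2, h2'⟩ := StT_one hQ (Or.inr rfl : (-1 : ℤ) = 1 ∨ (-1 : ℤ) = -1)
  refine ⟨min c1 c2, max t1 t2, lt_min h1 h2, fun t ht σ hσ => ?_⟩
  rcases hσ with rfl | rfl
  · obtain ⟨X, a, b, c⟩ := h1' t ((le_max_left _ _).trans ht)
    exact ⟨X, a, b, (min_le_left _ _).trans c⟩
  · obtain ⟨X, a, b, c⟩ := h2' t ((le_max_right _ _).trans ht)
    exact ⟨X, a, b, (min_le_right _ _).trans c⟩

/-- Straight ahead. -/
theorem zero_words (hQ : hsI.Quarter) : ∃ (c : ℝ≥0∞) (t0 : ℕ), 0 < c ∧ ∀ t : ℕ, t0 ≤ t →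
    ∃ X : Set (List Blk), hsI.toAlph.PF X ∧ (∀ l ∈ X, 2 * t ≤ hj l ∧ 4 * hj l ≤ 9 * t ∧ 4 * |xj l| ≤ t) ∧
      c ≤ ∑' l, ind (l ∈ X) * wj l := by
  obtain ⟨c, n0, hc, h⟩ := tube_all hQ 0 (1 / 8) (by norm_num)
  refine ⟨c, n0, hc, fun t ht => ?_⟩
  obtain ⟨X, h1, h2, h3⟩ := h (2 * t) (by omega)
  refine ⟨X, h1, fun l hl => ?_, h3⟩
  obtain ⟨a, b, d⟩ := h2 l hl
  have b' : (hj l : ℝ) ≤ (1 + 1 / 8) * ((2 * t : ℕ) : ℝ) := b
  have d' := tube_E (by positivity) d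
  push_cast at b' d'
  refine ⟨a, ?_, ?_⟩
  · have : (4 : ℝ) * hj l ≤ 9 * t := by linarith
    exact_mod_cast this
  · rw [zero_mul, sub_zero] at d'
    have : (4 : ℝ) * |(xj l : ℝ)| ≤ t := by linarith
    exact_mod_cast this

end Pool.Agent.EVN
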